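import Mathlib

set_option autoImplicit false
set_option linter.unusedSectionVars false
open MeasureTheory Set Filter ProbabilityTheory
open scoped ENNReal NNReal Topology

namespace Pool.Agent.Q298.Frog

/-- void events -/
def vd {E : Type*} (S : Finset E) : Set (E → Prop) := {f | ∀ e ∈ S, ¬ f e}

lemma meas_prop {E : Type*} (e : E) : MeasurableSet {f : E → Prop | f e} :=
  measurableSet_setOfPred.2 (measurable_pi_apply e)

lemma meas_vd {E : Type*} (S : Finset E) : MeasurableSet (vd S) := by
  have : vd S = ⋂ e ∈ S, {f : E → Prop | f e}ᶜ := by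
    ext f; simp [vd]
  rw [this]
  exact Finset.measurableSet_biInter _ (fun e _ => (meas_prop e).compl)

lemma gen_vd (E : Type*) : (MeasurableSpace.pi : MeasurableSpace (E → Prop)) =
    MeasurableSpace.generateFrom {A | ∃ S : Finset E, A = vd S} := by
  apply le_antisymm
  · refine iSup_le (fun e => ?_)
    rw [← measurable_iff_comap_le]
    have : Measurable[MeasurableSpace.generateFrom {A | ∃ S : Finset E, A = vd S}]
        (fun f : E → Prop => f e) := by
      refine (@measurableSet_setOfPred (E → Prop)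
        (MeasurableSpace.generateFrom {A | ∃ S : Finset E, A = vd S}) (fun f => f e)).1 ?_
      have h : MeasurableSet[MeasurableSpace.generateFrom {A | ∃ S : Finset E, A = vd S}]
          (vd ({e} : Finset E)) := MeasurableSpace.measurableSet_generateFrom ⟨_, rfl⟩
      have h2 := h.compl
      have e2 : (vd ({e} : Finset E))ᶜ = {f : E → Prop | f e} := by
        ext f; simp [vd]
      rwa [e2] at h2
    exact this
  · refine MeasurableSpace.generateFrom_le ?_
    rintro _ ⟨S, rfl⟩
    exact meas_vd S

theorem ext_vd {E : Type*} (μ ν : Measure (E → Prop)) [IsProbabilityMeasure μ]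
    [IsProbabilityMeasure ν] (h : ∀ S : Finset E, μ (vd S) = ν (vd S)) : μ = ν := by
  refine ext_of_generate_finite _ (gen_vd E) ?_ ?_ (by simp)
  · rintro _ ⟨S, rfl⟩ _ ⟨T, rfl⟩ _
    classical
    refine ⟨S ∪ T, ?_⟩
    ext f
    simp only [vd, mem_inter_iff, mem_ofPred_eq, Finset.mem_union]
    constructor
    · rintro ⟨h1, h2⟩ e (he | he)
      · exact h1 e he
      · exact h2 e he
    · intro h1
      exact ⟨fun e he => h1 e (Or.inl he), fun e he => h1 e (Or.inr he)⟩
  · rintro _ ⟨S, rfl⟩
    exact h S

/-- the law of a proposition which is false with probability `exp (-w)` -/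
noncomputable def bw (w : ℝ≥0) : Measure Prop :=
  ENNReal.ofReal (Real.exp (-w)) • Measure.dirac False +
    ENNReal.ofReal (1 - Real.exp (-w)) • Measure.dirac True

lemma exp_le_one' (w : ℝ≥0) : Real.exp (-(w : ℝ)) ≤ 1 := by
  rw [Real.exp_le_one_iff]
  have := w.2
  simp

instance (w : ℝ≥0) : IsProbabilityMeasure (bw w) := by
  constructor
  unfold bw
  simp only [Measure.coe_add, Measure.coe_smul, Pi.add_apply, Pi.smul_apply, measure_univ,
    smul_eq_mul, mul_one]
  rw [← ENNReal.ofReal_add (Real.exp_pos _).le (by linarith [exp_le_one' w])]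
  simp

lemma bw_false (w : ℝ≥0) : bw w {q | ¬ q} = ENNReal.ofReal (Real.exp (-w)) := by
  unfold bw
  simp only [Measure.coe_add, Measure.coe_smul, Pi.add_apply, Pi.smul_apply, smul_eq_mul]
  rw [Measure.dirac_apply' _ (MeasurableSet.of_discrete), Measure.dirac_apply' _ (MeasurableSet.of_discrete)]
  simp

lemma bw_true (w : ℝ≥0) : bw w {q | q} = ENNReal.ofReal (1 - Real.exp (-w)) := by
  unfold bw
  simp only [Measure.coe_add, Measure.coe_smul, Pi.add_apply, Pi.smul_apply, smul_eq_mul]
  rw [Measure.dirac_apply' _ (MeasurableSet.of_discrete), Measure.dirac_apply' _ (MeasurableSet.of_discrete)]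
  simp

variable {E : Type*} [Fintype E] [DecidableEq E]

/-- independent edges -/
noncomputable def lw (w : E → ℝ≥0) : Measure (E → Prop) := Measure.pi (fun e => bw (w e))

instance (w : E → ℝ≥0) : IsProbabilityMeasure (lw w) := by unfold lw; infer_instance

lemma lw_vd (w : E → ℝ≥0) (S : Finset E) :
    lw w (vd S) = ∏ e ∈ S, ENNReal.ofReal (Real.exp (-(w e : ℝ))) := by
  have : vd S = Set.pi univ (fun e => if e ∈ S then {q : Prop | ¬ q} else univ) := by
    ext f
    simp only [vd, mem_ofPred_eq, Set.mem_pi, mem_univ, forall_true_left]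
    refine forall_congr' (fun e => ?_)
    by_cases h : e ∈ S
    · simp [h]
    · simp [h]
  rw [this, lw, Measure.pi_pi]
  rw [← Finset.prod_filter_mul_prod_filter_not Finset.univ (fun e => e ∈ S)]
  have h2 : ∏ x with x ∉ S, (bw (w x)) (if x ∈ S then {q | ¬q} else univ) = 1 := by
    refine Finset.prod_eq_one (fun x hx => ?_)
    rw [if_neg (Finset.mem_filter.1 hx).2, measure_univ]
  rw [h2, mul_one]
  refine Finset.prod_congr (by ext; simp) (fun x hx => ?_)
  rw [if_pos hx, bw_false]

/-- independence of events depending on disjoint sets of edges -/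
lemma lw_indep (w : E → ℝ≥0) (A B : Finset E) (hAB : Disjoint A B) (S T : Set (E → Prop))
    (hS : ∀ f g : E → Prop, (∀ e ∈ A, f e = g e) → f ∈ S → g ∈ S)
    (hT : ∀ f g : E → Prop, (∀ e ∈ B, f e = g e) → f ∈ T → g ∈ T) :
    lw w (S ∩ T) = lw w S * lw w T := by
  have hi : iIndepFun (fun e (f : E → Prop) => f e) (lw w) :=
    iIndepFun_pi (X := fun _ => id) (fun _ => aemeasurable_id)
  have h2 := hi.indepFun_finset A B hAB (fun e => measurable_pi_apply e)
  have e1 : S = (fun (f : E → Prop) (i : A) => f i) ⁻¹' {g | ∃ f ∈ S, ∀ i : A, f i = g i} := by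
    ext f
    constructor
    · intro hf
      exact ⟨f, hf, fun _ => rfl⟩
    · rintro ⟨g, hg, h⟩
      exact hS g f (fun e he => h ⟨e, he⟩) hg
  have e2 : T = (fun (f : E → Prop) (i : B) => f i) ⁻¹' {g | ∃ f ∈ T, ∀ i : B, f i = g i} := by
    ext f
    constructor
    · intro hf
      exact ⟨f, hf, fun _ => rfl⟩
    · rintro ⟨g, hg, h⟩
      exact hT g f (fun e he => h ⟨e, he⟩) hg
  rw [e1, e2]
  exact h2.measure_inter_preimage_eq_mul _ _ MeasurableSet.of_discrete MeasurableSet.of_discrete

end Pool.Agent.Q298.Frog
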