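import Pool.Agent.Q298.Frog.Mass

set_option autoImplicit false
set_option linter.unusedSectionVars false
open MeasureTheory Set Filter ProbabilityTheory
open scoped ENNReal NNReal Topology

namespace Pool.Agent.Q298.Frog

variable {V : Type*} [MeasurableSpace V] [MeasurableSingletonClass V] [Countable V]

namespace Chain

variable {C : Chain V}

open Classical in
/-- extension of a partial configuration -/
noncomputable def exn (A : Finset V) (g : A → ℕ × (ℕ → ℕ → V)) : Cfg V :=
  fun x => if h : x ∈ A then g ⟨x, h⟩ else (0, fun _ _ => x)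

lemma meas_exn (A : Finset V) : Measurable (exn A) := by
  apply measurable_pi_lambda
  intro x
  unfold exn
  by_cases h : x ∈ A
  · simp only [dif_pos h]
    exact measurable_pi_apply _
  · simp only [dif_neg h]
    exact measurable_const

lemma clq_exn (K R : ℕ) (w : V) (A : Finset V) (hA : ∀ u, C.near R w u → u ∈ A) (ω : Cfg V) :
    w ∈ C.clq K R (rel ω) ↔ w ∈ C.clq K R (rel (exn A (fun i => ω i))) := by
  have key : ∀ u, C.near R w u → ∀ v, rel ω (u, v) = rel (exn A (fun i => ω i)) (u, v) := by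
    intro u hu v
    unfold rel
    have : exn A (fun i => ω i) u = ω u := by
      unfold exn
      rw [dif_pos (hA u hu)]
    simp only [this]
  exact ⟨clq_local K R _ _ w key, clq_local K R _ _ w (fun u hu v => (key u hu v).symm)⟩

/-- far away points are independent -/
lemma clq_indep (K R : ℕ) (l : ℝ≥0) (w w' : V) (h : ¬ C.near (R + R) w w') :
    C.Q l ({r | w ∈ C.clq K R r} ∩ {r | w' ∈ C.clq K R r}) =
      C.Q l {r | w ∈ C.clq K R r} * C.Q l {r | w' ∈ C.clq K R r} := by
  set A := (C.near_fin R w).toFinset with hA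
  set B := (C.near_fin R w').toFinset with hB
  have hAB : Disjoint A B := by
    rw [Finset.disjoint_left]
    intro u hu hu'
    rw [hA, Set.Finite.mem_toFinset] at hu
    rw [hB, Set.Finite.mem_toFinset] at hu'
    exact h (C.near_trans hu (C.near_symm hu'))
  have hi : iIndepFun (fun x (ω : Cfg V) => ω x) (C.frog l) :=
    iIndepFun_infinitePi (P := fun x => C.site l x) (X := fun _ => id) (fun _ => measurable_id)
  have h2 := hi.indepFun_finset A B hAB (fun e => measurable_pi_apply e)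
  have e1 : {ω : Cfg V | w ∈ C.clq K R (rel ω)} = (fun (ω : Cfg V) (i : A) => ω i) ⁻¹'
      {g | w ∈ C.clq K R (rel (exn A g))} := by
    ext ω
    exact clq_exn K R w A (fun u hu => by rw [hA, Set.Finite.mem_toFinset]; exact hu) ω
  have e2 : {ω : Cfg V | w' ∈ C.clq K R (rel ω)} = (fun (ω : Cfg V) (i : B) => ω i) ⁻¹'
      {g | w' ∈ C.clq K R (rel (exn B g))} := by
    ext ω
    exact clq_exn K R w' B (fun u hu => by rw [hB, Set.Finite.mem_toFinset]; exact hu) ω
  have m1 : MeasurableSet {g : A → ℕ × (ℕ → ℕ → V) | w ∈ C.clq K R (rel (exn A g))} :=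
    (meas_rel.comp (meas_exn A)) (C.meas_clq K R w)
  have m2 : MeasurableSet {g : B → ℕ × (ℕ → ℕ → V) | w' ∈ C.clq K R (rel (exn B g))} :=
    (meas_rel.comp (meas_exn B)) (C.meas_clq K R w')
  have h3 := h2.measure_inter_preimage_eq_mul _ _ m1 m2
  rw [← e1, ← e2] at h3
  unfold Q
  rw [Measure.map_apply meas_rel ((C.meas_clq K R w).inter (C.meas_clq K R w')),
    Measure.map_apply meas_rel (C.meas_clq K R w), Measure.map_apply meas_rel (C.meas_clq K R w')]
  exact h3

/-- centred indicator -/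
noncomputable def cz (C : Chain V) (K R : ℕ) (ι : ℝ) (w : V) (r : Rel V) : ℝ :=
  ({r | w ∈ C.clq K R r} : Set (Rel V)).indicator 1 r - ι

lemma meas_cz (K R : ℕ) (ι : ℝ) (w : V) : Measurable (C.cz K R ι w) := by
  unfold cz
  exact (measurable_one.indicator (C.meas_clq K R w)).sub_const ι

lemma cz_bd (K R : ℕ) (ι : ℝ) (h0 : 0 ≤ ι) (h1 : ι ≤ 1) (w : V) (r : Rel V) :
    |C.cz K R ι w r| ≤ 1 := by
  unfold cz
  by_cases h : r ∈ ({r | w ∈ C.clq K R r} : Set (Rel V))
  · rw [indicator_of_mem h, Pi.one_apply, abs_le]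
    constructor <;> linarith
  · rw [indicator_of_notMem h, abs_le]
    constructor <;> linarith

lemma cz_prod_int (K R : ℕ) (ι : ℝ) (h0 : 0 ≤ ι) (h1 : ι ≤ 1) (l : ℝ≥0) (w w' : V) :
    Integrable (fun r => C.cz K R ι w r * C.cz K R ι w' r) (C.Q l) := by
  refine Integrable.of_bound (((meas_cz K R ι w).mul (meas_cz K R ι w')).aestronglyMeasurable) 1
    (Eventually.of_forall (fun r => ?_))
  rw [Real.norm_eq_abs, abs_mul]
  calc |C.cz K R ι w r| * |C.cz K R ι w' r| ≤ 1 * 1 := by
        gcongr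
        · exact cz_bd K R ι h0 h1 w r
        · exact cz_bd K R ι h0 h1 w' r
    _ = 1 := one_mul 1

lemma cz_cov (htr : C.Trans) (K R : ℕ) (l : ℝ≥0) (o w w' : V) (h : ¬ C.near (R + R) w w') :
    ∫ r, C.cz K R (C.Q l {r | o ∈ C.clq K R r}).toReal w r *
      C.cz K R (C.Q l {r | o ∈ C.clq K R r}).toReal w' r ∂(C.Q l) = 0 := by
  set ι := (C.Q l {r | o ∈ C.clq K R r}).toReal with hι
  have mw := C.meas_clq K R w
  have mw' := C.meas_clq K R w'
  have e1 : (C.Q l {r | w ∈ C.clq K R r}).toReal = ι := by rw [hι, iota_const htr K R l w o]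
  have e2 : (C.Q l {r | w' ∈ C.clq K R r}).toReal = ι := by rw [hι, iota_const htr K R l w' o]
  have e3 : (C.Q l ({r | w ∈ C.clq K R r} ∩ {r | w' ∈ C.clq K R r})).toReal = ι * ι := by
    rw [clq_indep K R l w w' h, ENNReal.toReal_mul, e1, e2]
  have h4 : ∀ r, C.cz K R ι w r * C.cz K R ι w' r =
      (({r | w ∈ C.clq K R r} ∩ {r | w' ∈ C.clq K R r} : Set (Rel V)).indicator 1 r -
      ι * ({r | w ∈ C.clq K R r} : Set (Rel V)).indicator 1 r) -
      (ι * ({r | w' ∈ C.clq K R r} : Set (Rel V)).indicator 1 r - ι * ι) := by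
    intro r
    unfold cz
    rw [inter_indicator_one]
    simp only [Pi.mul_apply]
    ring
  have i1 : ∀ S : Set (Rel V), MeasurableSet S → Integrable (S.indicator (1 : Rel V → ℝ)) (C.Q l) :=
    fun S hS => (integrable_const (1 : ℝ)).indicator hS
  simp_rw [h4]
  rw [integral_sub, integral_sub, integral_sub, integral_const_mul, integral_const_mul,
    integral_indicator_one (mw.inter mw'), integral_indicator_one mw, integral_indicator_one mw',
    integral_const]
  · simp only [measureReal_def, e1, e2, e3, measure_univ, ENNReal.toReal_one, one_smul]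
    ring
  · exact (i1 _ mw').const_mul _
  · exact integrable_const _
  · exact i1 _ (mw.inter mw')
  · exact (i1 _ mw).const_mul _
  · exact (i1 _ (mw.inter mw')).sub ((i1 _ mw).const_mul _)
  · exact ((i1 _ mw').const_mul _).sub (integrable_const _)

/-- the support of the Green function -/
noncomputable def sup (C : Chain V) (N : ℕ) (x : V) : Finset V := (C.near_fin N x).toFinset

lemma gr_sup (N : ℕ) (x w : V) (h : w ∉ C.sup N x) : C.gr N x w = 0 := by
  unfold gr
  refine Finset.sum_eq_zero (fun k hk => ?_)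
  by_contra hne
  apply h
  rw [sup, Set.Finite.mem_toFinset]
  exact ⟨k, (Finset.mem_range.1 hk).le, hne⟩

lemma gr_ne_top (N : ℕ) (x w : V) : C.gr N x w ≠ ∞ := by
  unfold gr
  exact ENNReal.sum_ne_top.2 (fun k _ => pk_ne_top k x w)

lemma gr_total (N : ℕ) (x : V) : ∑ w ∈ C.sup N x, (C.gr N x w).toReal = N := by
  have h1 : ∑' w, C.gr N x w = N := by
    unfold gr
    rw [Summable.tsum_finsetSum (fun _ _ => ENNReal.summable)]
    simp_rw [sum_pk]
    simp
  rw [tsum_eq_sum (s := C.sup N x) (fun w hw => gr_sup N x w hw)] at h1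
  rw [← ENNReal.toReal_sum (fun w _ => gr_ne_top N x w), h1]
  simp

lemma near_card (htr : C.Trans) (r : ℕ) (x y : V) : (C.near_fin r x).toFinset.card =
    (C.near_fin r y).toFinset.card := by
  classical
  obtain ⟨φ, rfl⟩ := htr x y
  rw [← Finset.card_map φ.f.toEmbedding]
  congr 1
  ext u
  simp only [Finset.mem_map, Set.Finite.mem_toFinset, mem_ofPred_eq]
  constructor
  · rintro ⟨v, hv, rfl⟩
    exact (φ.near_iff r x v).2 hv
  · intro hu
    refine ⟨φ.f.symm u, ?_, by simp⟩
    rw [← φ.near_iff]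
    simpa using hu

/-- second moment bound -/
theorem second (htr : C.Trans) (K R : ℕ) (l : ℝ≥0) (o x : V) (N : ℕ) (δ : ℝ)
    (hδ : ∀ w, (C.gr N x w).toReal ≤ δ * N) (hδ0 : 0 ≤ δ) :
    ∫ r, (∑ w ∈ C.sup N x, (C.gr N x w).toReal *
      C.cz K R (C.Q l {r | o ∈ C.clq K R r}).toReal w r) ^ 2 ∂(C.Q l) ≤
      ((C.near_fin (R + R) o).toFinset.card : ℝ) * δ * N * N := by
  classical
  set ι := (C.Q l {r | o ∈ C.clq K R r}).toReal with hι
  have h0 : 0 ≤ ι := ENNReal.toReal_nonneg
  have h1 : ι ≤ 1 := by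
    have := ENNReal.toReal_mono ENNReal.one_ne_top (prob_le_one (μ := C.Q l)
      (s := {r | o ∈ C.clq K R r}))
    rwa [ENNReal.toReal_one] at this
  set g : V → ℝ := fun w => (C.gr N x w).toReal with hg
  have hg0 : ∀ w, 0 ≤ g w := fun w => ENNReal.toReal_nonneg
  have e1 : ∀ r, (∑ w ∈ C.sup N x, g w * C.cz K R ι w r) ^ 2 =
      ∑ w ∈ C.sup N x, ∑ w' ∈ C.sup N x, (g w * g w') * (C.cz K R ι w r * C.cz K R ι w' r) := by
    intro r
    rw [sq, Finset.sum_mul_sum]
    refine Finset.sum_congr rfl (fun w _ => Finset.sum_congr rfl (fun w' _ => ?_))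
    ring
  have e0 : ∫ r, (∑ w ∈ C.sup N x, (C.gr N x w).toReal * C.cz K R ι w r) ^ 2 ∂(C.Q l) =
      ∫ r, ∑ w ∈ C.sup N x, ∑ w' ∈ C.sup N x,
        (g w * g w') * (C.cz K R ι w r * C.cz K R ι w' r) ∂(C.Q l) :=
    integral_congr_ae (Eventually.of_forall e1)
  rw [e0]
  have hint : ∀ w w', Integrable (fun r => (g w * g w') * (C.cz K R ι w r * C.cz K R ι w' r))
      (C.Q l) := fun w w' => (cz_prod_int K R ι h0 h1 l w w').const_mul _
  have e2 : ∫ r, ∑ w ∈ C.sup N x, ∑ w' ∈ C.sup N x,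
      (g w * g w') * (C.cz K R ι w r * C.cz K R ι w' r) ∂(C.Q l) =
      ∑ w ∈ C.sup N x, ∑ w' ∈ C.sup N x,
      (g w * g w') * ∫ r, C.cz K R ι w r * C.cz K R ι w' r ∂(C.Q l) := by
    rw [integral_finsetSum _ (fun w _ => integrable_finsetSum _ (fun w' _ => hint w w'))]
    refine Finset.sum_congr rfl (fun w _ => ?_)
    rw [integral_finsetSum _ (fun w' _ => hint w w')]
    refine Finset.sum_congr rfl (fun w' _ => ?_)
    rw [integral_const_mul]
  rw [e2]
  have hterm : ∀ w w', (g w * g w') * ∫ r, C.cz K R ι w r * C.cz K R ι w' r ∂(C.Q l) ≤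
      if C.near (R + R) w w' then g w * (δ * N) else 0 := by
    intro w w'
    by_cases hn : C.near (R + R) w w'
    · rw [if_pos hn]
      have hle : ∫ r, C.cz K R ι w r * C.cz K R ι w' r ∂(C.Q l) ≤ 1 := by
        calc ∫ r, C.cz K R ι w r * C.cz K R ι w' r ∂(C.Q l) ≤ ∫ _, (1 : ℝ) ∂(C.Q l) := by
              refine integral_mono (cz_prod_int K R ι h0 h1 l w w') (integrable_const _) (fun r => ?_)
              have a := cz_bd (C := C) K R ι h0 h1 w r
              have b := cz_bd (C := C) K R ι h0 h1 w' r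
              calc C.cz K R ι w r * C.cz K R ι w' r ≤ |C.cz K R ι w r * C.cz K R ι w' r| := le_abs_self _
                _ = |C.cz K R ι w r| * |C.cz K R ι w' r| := abs_mul _ _
                _ ≤ 1 * 1 := by gcongr
                _ = 1 := one_mul 1
          _ = 1 := by simp
      calc g w * g w' * ∫ r, C.cz K R ι w r * C.cz K R ι w' r ∂(C.Q l) ≤ g w * g w' * 1 := by
            gcongr
        _ = g w * g w' := mul_one _
        _ ≤ g w * (δ * N) := by
            gcongr
            exact hδ w'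
    · rw [if_neg hn, cz_cov htr K R l o w w' hn, mul_zero]
  calc ∑ w ∈ C.sup N x, ∑ w' ∈ C.sup N x,
        (g w * g w') * ∫ r, C.cz K R ι w r * C.cz K R ι w' r ∂(C.Q l)
      ≤ ∑ w ∈ C.sup N x, ∑ w' ∈ C.sup N x, (if C.near (R + R) w w' then g w * (δ * N) else 0) :=
        Finset.sum_le_sum (fun w _ => Finset.sum_le_sum (fun w' _ => hterm w w'))
    _ ≤ ∑ w ∈ C.sup N x, ((C.near_fin (R + R) o).toFinset.card : ℝ) * (g w * (δ * N)) := by
        refine Finset.sum_le_sum (fun w _ => ?_)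
        rw [← Finset.sum_filter, Finset.sum_const, nsmul_eq_mul]
        have : ((C.sup N x).filter (fun w' => C.near (R + R) w w')).card ≤
            (C.near_fin (R + R) o).toFinset.card := by
          rw [near_card htr (R + R) o w]
          refine Finset.card_le_card (fun u hu => ?_)
          rw [Set.Finite.mem_toFinset]
          exact (Finset.mem_filter.1 hu).2
        gcongr
    _ = ((C.near_fin (R + R) o).toFinset.card : ℝ) * δ * N * ∑ w ∈ C.sup N x, g w := by
        rw [Finset.mul_sum]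
        refine Finset.sum_congr rfl (fun w _ => ?_)
        ring
    _ = _ := by rw [gr_total]

/-- concentration -/
theorem conc (htr : C.Trans) (hi : C.Irr) [Infinite V] (K R : ℕ) (l : ℝ≥0) (o x : V)
    (hι : C.Q l {r | o ∈ C.clq K R r} ≠ 0) (ε : ℝ≥0) (hε : 0 < ε) :
    ∃ N₀ : ℕ, ∀ N ≥ N₀, C.Q l {r | ∑ w ∈ C.sup N x, (C.gr N x w).toReal *
      ({r | w ∈ C.clq K R r} : Set (Rel V)).indicator 1 r <
        (C.Q l {r | o ∈ C.clq K R r}).toReal * N / 2} ≤ ε := by
  set ι := (C.Q l {r | o ∈ C.clq K R r}).toReal with hιdef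
  have hιpos : 0 < ι := ENNReal.toReal_pos hι (measure_ne_top _ _)
  set b : ℝ := ((C.near_fin (R + R) o).toFinset.card : ℝ) with hb
  have hb0 : 0 ≤ b := Nat.cast_nonneg _
  set δ : ℝ := ε * ι ^ 2 / (4 * (b + 1)) with hδ
  have hε' : (0 : ℝ) < ε := hε
  have hδpos : 0 < δ := by positivity
  obtain ⟨N₀, hN₀⟩ := gr_small htr hi δ hδpos
  refine ⟨max N₀ 1, fun N hN => ?_⟩
  have hN1 : 1 ≤ N := le_trans (le_max_right _ _) hN
  have hNpos : (0 : ℝ) < N := by exact_mod_cast hN1
  have hsec := second htr K R l o x N δ (fun w => hN₀ N (le_trans (le_max_left _ _) hN) x w) hδpos.le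
  rw [← hιdef, ← hb] at hsec
  set Y : Rel V → ℝ := fun r => ∑ w ∈ C.sup N x, (C.gr N x w).toReal * C.cz K R ι w r with hY
  have hYm : Measurable Y := Finset.measurable_sum _ (fun w _ => (meas_cz K R ι w).const_mul _)
  have hsub : {r | ∑ w ∈ C.sup N x, (C.gr N x w).toReal *
      ({r | w ∈ C.clq K R r} : Set (Rel V)).indicator 1 r < ι * N / 2} ⊆
      {r | (ι * N / 2) ^ 2 ≤ Y r ^ 2} := by
    intro r hr
    have hr' : ∑ w ∈ C.sup N x, (C.gr N x w).toReal *
      ({r | w ∈ C.clq K R r} : Set (Rel V)).indicator 1 r < ι * N / 2 := hr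
    have e : Y r = ∑ w ∈ C.sup N x, (C.gr N x w).toReal *
      ({r | w ∈ C.clq K R r} : Set (Rel V)).indicator 1 r - ι * N := by
      rw [hY]
      simp only [cz, mul_sub]
      rw [Finset.sum_sub_distrib, ← Finset.sum_mul, gr_total]
      ring
    have h2 : Y r ≤ -(ι * N / 2) := by rw [e]; linarith
    have h3 : 0 ≤ ι * N / 2 := by positivity
    show (ι * N / 2) ^ 2 ≤ Y r ^ 2
    nlinarith
  have hpos : (0 : ℝ) < (ι * N / 2) ^ 2 := by positivity
  have hYint : Integrable (fun r => Y r ^ 2) (C.Q l) := by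
    have h0 : 0 ≤ ι := hιpos.le
    have h1 : ι ≤ 1 := by
      have := ENNReal.toReal_mono ENNReal.one_ne_top (prob_le_one (μ := C.Q l)
        (s := {r | o ∈ C.clq K R r}))
      rwa [ENNReal.toReal_one] at this
    have e1 : (fun r => Y r ^ 2) = fun r => ∑ w ∈ C.sup N x, ∑ w' ∈ C.sup N x,
        ((C.gr N x w).toReal * (C.gr N x w').toReal) * (C.cz K R ι w r * C.cz K R ι w' r) := by
      ext r
      rw [hY, sq, Finset.sum_mul_sum]
      refine Finset.sum_congr rfl (fun w _ => Finset.sum_congr rfl (fun w' _ => ?_))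
      ring
    rw [e1]
    exact integrable_finsetSum _ (fun w _ => integrable_finsetSum _ (fun w' _ =>
      (cz_prod_int K R ι h0 h1 l w w').const_mul _))
  have hmk := mul_meas_ge_le_integral_of_nonneg (μ := C.Q l) (f := fun r => Y r ^ 2)
    (Eventually.of_forall (fun r => sq_nonneg _)) hYint ((ι * N / 2) ^ 2)
  have h4 : (C.Q l).real {r | (ι * N / 2) ^ 2 ≤ Y r ^ 2} ≤ ε := by
    have h5 : (ι * N / 2) ^ 2 * (C.Q l).real {r | (ι * N / 2) ^ 2 ≤ Y r ^ 2} ≤ b * δ * N * N :=
      hmk.trans hsec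
    have h6 : b * δ * N * N ≤ (ι * N / 2) ^ 2 * ε := by
      rw [hδ]
      have : b / (b + 1) ≤ 1 := by rw [div_le_one (by positivity)]; linarith
      calc b * (ε * ι ^ 2 / (4 * (b + 1))) * N * N = (b / (b + 1)) * ((ι * N / 2) ^ 2 * ε) := by
            field_simp
            ring
        _ ≤ 1 * ((ι * N / 2) ^ 2 * ε) := by gcongr
        _ = _ := one_mul _
    exact le_of_mul_le_mul_left (h5.trans h6) hpos
  refine (measure_mono hsub).trans ?_
  rw [measureReal_def] at h4
  rw [← ENNReal.toReal_le_toReal (measure_ne_top _ _) ENNReal.coe_ne_top]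
  exact h4

end Chain

end Pool.Agent.Q298.Frog
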