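import Pool.Agent.Q298.Frog.Path

set_option autoImplicit false
set_option linter.unusedSectionVars false
open MeasureTheory Set Filter
open scoped ENNReal NNReal Topology

namespace Pool.Agent.Q298.Frog

variable {V : Type*} [MeasurableSpace V] [MeasurableSingletonClass V] [Countable V]

namespace Chain

variable (C : Chain V)

/-- transitivity -/
def Trans : Prop := ∀ x y : V, ∃ φ : C.Sym, φ.f x = y

/-- irreducibility -/
def Irr : Prop := ∀ x y : V, ∃ n, C.pk n x y ≠ 0

variable {C}

lemma pk_le_one (n : ℕ) (x y : V) : C.pk n x y ≤ 1 := by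
  unfold pk
  exact prob_le_one

lemma pk_ne_top (n : ℕ) (x y : V) : C.pk n x y ≠ ∞ := ne_top_of_le_ne_top ENNReal.one_ne_top
  (pk_le_one n x y)

lemma pk_diag (h : C.Trans) (n : ℕ) (x y : V) : C.pk n x x = C.pk n y y := by
  obtain ⟨φ, rfl⟩ := h x y
  rw [φ.pk_eq]

lemma pk_even_le (h : C.Trans) (n : ℕ) (x y o : V) : C.pk (n + n) x y ≤ C.pk (n + n) o o := by
  have h1 : ∀ z, C.pk n x z * C.pk n z y ≤ (C.pk n x z * C.pk n z x) / 2 +
      (C.pk n y z * C.pk n z y) / 2 := by
    intro z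
    rw [C.pk_symm n z x, C.pk_symm n y z]
    have hx := pk_ne_top (C := C) n x z
    have hy := pk_ne_top (C := C) n z y
    lift C.pk n x z to ℝ≥0 using hx with a
    lift C.pk n z y to ℝ≥0 using hy with b
    rw [← ENNReal.coe_ofNat, ← ENNReal.coe_mul, ← ENNReal.coe_mul, ← ENNReal.coe_mul,
      ← ENNReal.coe_div two_ne_zero, ← ENNReal.coe_div two_ne_zero, ← ENNReal.coe_add,
      ENNReal.coe_le_coe, ← NNReal.coe_le_coe]
    push_cast
    nlinarith [sq_nonneg ((a : ℝ) - b)]
  calc C.pk (n + n) x y = ∑' z, C.pk n x z * C.pk n z y := C.pk_add n n x y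
    _ ≤ ∑' z, ((C.pk n x z * C.pk n z x) / 2 + (C.pk n y z * C.pk n z y) / 2) :=
        ENNReal.tsum_le_tsum h1
    _ = C.pk (n + n) x x / 2 + C.pk (n + n) y y / 2 := by
        rw [ENNReal.tsum_add]
        simp only [div_eq_mul_inv]
        rw [ENNReal.tsum_mul_right, ENNReal.tsum_mul_right, ← C.pk_add, ← C.pk_add]
    _ = C.pk (n + n) o o := by
        rw [pk_diag h (n + n) x o, pk_diag h (n + n) y o, ENNReal.add_halves]

lemma pk_le_diag (h : C.Trans) (n : ℕ) (x y o : V) : C.pk n x y ≤ C.pk (n / 2 + n / 2) o o := by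
  rcases Nat.even_or_odd n with ⟨k, hk⟩ | ⟨k, hk⟩
  · have : n / 2 = k := by omega
    rw [this, hk]
    exact pk_even_le h k x y o
  · have : n / 2 = k := by omega
    rw [this, hk, show 2 * k + 1 = (k + k) + 1 by ring, pk_succ]
    calc ∑' z, C.p x z * C.pk (k + k) z y ≤ ∑' z, C.p x z * C.pk (k + k) o o := by
          refine ENNReal.tsum_le_tsum (fun z => ?_)
          gcongr
          exact pk_even_le h k z y o
      _ = C.pk (k + k) o o := by rw [ENNReal.tsum_mul_right, sum_p, one_mul]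

lemma even_inf (hi : C.Irr) [Infinite V] (o : V) : {z | ∃ k, C.pk (k + k) o z ≠ 0}.Infinite := by
  intro hf
  have hall : (univ : Set V) ⊆ {z | ∃ k, C.pk (k + k) o z ≠ 0} ∪
      ⋃ e ∈ {z | ∃ k, C.pk (k + k) o z ≠ 0}, {y | C.p e y ≠ 0} := by
    intro z _
    obtain ⟨n, hn⟩ := hi o z
    rcases Nat.even_or_odd n with ⟨k, hk⟩ | ⟨k, hk⟩
    · left
      exact ⟨k, hk ▸ hn⟩
    · right
      rw [hk, show 2 * k + 1 = (k + k) + 1 by ring, pk_last] at hn
      obtain ⟨e, he⟩ : ∃ e, C.pk (k + k) o e * C.p e z ≠ 0 := by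
        by_contra hc
        push Not at hc
        exact hn (by rw [ENNReal.tsum_eq_zero]; exact hc)
      rw [mul_ne_zero_iff] at he
      exact mem_biUnion (show e ∈ {z | ∃ k, C.pk (k + k) o z ≠ 0} from ⟨k, he.1⟩) he.2
  have : (univ : Set V).Finite := (hf.union (hf.biUnion (fun e _ => C.fin e))).subset hall
  exact infinite_univ this

lemma diag_tendsto (h : C.Trans) (hi : C.Irr) [Infinite V] (o : V) :
    Tendsto (fun n => (C.pk (n + n) o o).toReal) atTop (𝓝 0) := by
  set a : ℕ → ℝ := fun n => (C.pk (n + n) o o).toReal with ha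
  have hle : ∀ n z, (C.pk (n + n) z o).toReal ≤ a n := by
    intro n z
    exact ENNReal.toReal_mono (pk_ne_top _ _ _) (pk_even_le h n z o o)
  have hrec : ∀ n k z, (C.pk (k + k) o z).toReal * (a n - (C.pk (n + n) z o).toReal) ≤
      a n - a (n + k) := by
    intro n k z
    have e1 : C.pk (n + k + (n + k)) o o = ∑' w, C.pk (k + k) o w * C.pk (n + n) w o := by
      rw [← C.pk_add]; congr 1; ring
    have e2 : a (n + k) = ∑' w, (C.pk (k + k) o w * C.pk (n + n) w o).toReal := by
      rw [ha]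
      simp only
      rw [e1, ENNReal.tsum_toReal_eq]
      intro w
      exact ENNReal.mul_ne_top (pk_ne_top _ _ _) (pk_ne_top _ _ _)
    have s1 : Summable (fun w => (C.pk (k + k) o w).toReal) := by
      apply ENNReal.summable_toReal
      rw [C.sum_pk]; exact ENNReal.one_ne_top
    have t1 : ∑' w, (C.pk (k + k) o w).toReal = 1 := by
      rw [← ENNReal.tsum_toReal_eq (fun w => pk_ne_top _ _ _), C.sum_pk]; rfl
    have s2 : Summable (fun w => (C.pk (k + k) o w * C.pk (n + n) w o).toReal) := by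
      apply ENNReal.summable_toReal
      rw [← e1]; exact pk_ne_top _ _ _
    have s3 : Summable (fun w => (C.pk (k + k) o w).toReal * (a n - (C.pk (n + n) w o).toReal)) := by
      have : (fun w => (C.pk (k + k) o w).toReal * (a n - (C.pk (n + n) w o).toReal)) =
          fun w => (C.pk (k + k) o w).toReal * a n - (C.pk (k + k) o w * C.pk (n + n) w o).toReal := by
        ext w; rw [ENNReal.toReal_mul]; ring
      rw [this]
      exact (s1.mul_right _).sub s2
    have t3 : ∑' w, (C.pk (k + k) o w).toReal * (a n - (C.pk (n + n) w o).toReal) =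
        a n - a (n + k) := by
      have : (fun w => (C.pk (k + k) o w).toReal * (a n - (C.pk (n + n) w o).toReal)) =
          fun w => (C.pk (k + k) o w).toReal * a n - (C.pk (k + k) o w * C.pk (n + n) w o).toReal := by
        ext w; rw [ENNReal.toReal_mul]; ring
      rw [this, (s1.mul_right _).tsum_sub s2, tsum_mul_right, t1, one_mul, e2]
    rw [← t3]
    exact s3.le_tsum z (fun w _ => mul_nonneg ENNReal.toReal_nonneg (by linarith [hle n w]))
  have hanti : Antitone a := by
    refine antitone_nat_of_succ_le (fun n => ?_)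
    have := hrec n 1 o
    have h1 : 0 ≤ (C.pk (1 + 1) o o).toReal * (a n - (C.pk (n + n) o o).toReal) :=
      mul_nonneg ENNReal.toReal_nonneg (by linarith [hle n o])
    linarith
  have hnn : ∀ n, 0 ≤ a n := fun n => ENNReal.toReal_nonneg
  obtain ⟨c, hc⟩ : ∃ c, Tendsto a atTop (𝓝 c) :=
    ⟨_, tendsto_atTop_ciInf hanti ⟨0, by rintro _ ⟨n, rfl⟩; exact hnn n⟩⟩
  have hc0 : 0 ≤ c := ge_of_tendsto' hc hnn
  rcases hc0.eq_or_lt with h0 | hpos
  · rwa [← h0] at hc
  exfalso
  have hz : ∀ z ∈ {z | ∃ k, C.pk (k + k) o z ≠ 0},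
      Tendsto (fun n => (C.pk (n + n) z o).toReal) atTop (𝓝 c) := by
    rintro z ⟨k, hk⟩
    have hkp : 0 < (C.pk (k + k) o z).toReal := ENNReal.toReal_pos hk (pk_ne_top _ _ _)
    have hdiff : Tendsto (fun n => a n - a (n + k)) atTop (𝓝 0) := by
      have := hc.sub ((tendsto_add_atTop_iff_nat k).2 hc)
      rwa [sub_self] at this
    have hd2 : Tendsto (fun n => (C.pk (k + k) o z).toReal⁻¹ * (a n - a (n + k))) atTop (𝓝 0) := by
      have := hdiff.const_mul ((C.pk (k + k) o z).toReal⁻¹)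
      rwa [mul_zero] at this
    have hd3 : Tendsto (fun n => a n - (C.pk (n + n) z o).toReal) atTop (𝓝 0) := by
      refine squeeze_zero (fun n => by linarith [hle n z]) (fun n => ?_) hd2
      rw [le_inv_mul_iff₀ hkp]
      exact hrec n k z
    have := hc.sub hd3
    rw [sub_zero] at this
    refine this.congr (fun n => ?_)
    ring
  obtain ⟨M, hM⟩ := exists_nat_gt (2 / c)
  obtain ⟨S, hS, hSc⟩ := (even_inf hi o).exists_subset_card_eq M
  have hsum : Tendsto (fun n => ∑ z ∈ S, (C.pk (n + n) z o).toReal) atTop (𝓝 (∑ _z ∈ S, c)) :=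
    tendsto_finsetSum _ (fun z hz' => hz z (hS hz'))
  have hle1 : ∀ n, ∑ z ∈ S, (C.pk (n + n) z o).toReal ≤ 1 := by
    intro n
    have s1 : Summable (fun w => (C.pk (n + n) w o).toReal) := by
      apply ENNReal.summable_toReal
      rw [C.sum_pk']; exact ENNReal.one_ne_top
    have t1 : ∑' w, (C.pk (n + n) w o).toReal = 1 := by
      rw [← ENNReal.tsum_toReal_eq (fun w => pk_ne_top _ _ _), C.sum_pk']; rfl
    rw [← t1]
    exact s1.sum_le_tsum S (fun _ _ => ENNReal.toReal_nonneg)
  have := le_of_tendsto' hsum hle1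
  rw [Finset.sum_const, hSc, nsmul_eq_mul] at this
  have : (2 / c) * c < 1 := by
    calc (2 / c) * c < M * c := by gcongr
      _ ≤ 1 := this
  rw [div_mul_cancel₀ _ hpos.ne'] at this
  linarith

/-- uniform sublinearity of the Green function -/
theorem gr_small (h : C.Trans) (hi : C.Irr) [Infinite V] (δ : ℝ) (hδ : 0 < δ) :
    ∃ N₀ : ℕ, ∀ N ≥ N₀, ∀ x y, (C.gr N x y).toReal ≤ δ * N := by
  obtain ⟨o⟩ : Nonempty V := inferInstance
  set s : ℕ → ℝ := fun n => (C.pk (n / 2 + n / 2) o o).toReal with hs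
  have hs0 : Tendsto s atTop (𝓝 0) := by
    have : Tendsto (fun n : ℕ => n / 2) atTop atTop := Nat.tendsto_div_const_atTop two_ne_zero
    exact (diag_tendsto h hi o).comp this
  have hces := hs0.cesaro
  obtain ⟨N₀, hN₀⟩ := eventually_atTop.1 (hces.eventually (gt_mem_nhds hδ))
  refine ⟨max N₀ 1, fun N hN x y => ?_⟩
  have hN1 : 1 ≤ N := le_trans (le_max_right _ _) hN
  have h1 := hN₀ N (le_trans (le_max_left _ _) hN)
  have hNpos : (0 : ℝ) < N := by exact_mod_cast hN1
  have h2 : (C.gr N x y).toReal ≤ ∑ k ∈ Finset.range N, s k := by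
    unfold gr
    rw [ENNReal.toReal_sum (fun k _ => pk_ne_top _ _ _)]
    exact Finset.sum_le_sum (fun k _ => ENNReal.toReal_mono (pk_ne_top _ _ _)
      (pk_le_diag h k x y o))
  rw [inv_mul_lt_iff₀ hNpos] at h1
  linarith [mul_comm (N : ℝ) δ]

end Chain

end Pool.Agent.Q298.Frog
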