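import Pool.Agent.Q298.Frog.Trip

set_option autoImplicit false
set_option linter.unusedSectionVars false
open MeasureTheory Set Filter ProbabilityTheory
open scoped ENNReal NNReal Topology

namespace Pool.Agent.Q298.Frog

variable {V : Type*} [MeasurableSpace V] [MeasurableSingletonClass V] [Countable V]

namespace Chain

variable (C : Chain V)

/-- at time `m` the path is in the clique set and never again later -/
def Lst (K R m : ℕ) : Set (Tri V) :=
  {q | q.2 m ∈ C.clq K R q.1.1 ∧ ∀ j > m, q.2 j ∉ C.clq K R q.1.1}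

variable {C}

lemma meas_Lst (K R m : ℕ) : MeasurableSet (C.Lst K R m) := by
  have : C.Lst K R m = {q : Tri V | q.2 m ∈ C.clq K R q.1.1} ∩
      ⋂ j > m, {q : Tri V | q.2 j ∈ C.clq K R q.1.1}ᶜ := by
    ext q
    simp [Lst]
  rw [this]
  exact (meas_pathI K R m).inter (MeasurableSet.iInter (fun j => MeasurableSet.iInter
    (fun _ => (meas_pathI K R j).compl)))

/-- never again in `I` after time `0` -/
def nrt (I : Set V) : Set (ℕ → V) := {X | X 0 ∈ I ∧ ∀ j > 0, X j ∉ I}

lemma meas_nrt (I : Set V) : MeasurableSet (nrt I) := by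
  have : nrt I = {X : ℕ → V | X 0 ∈ I} ∩ ⋂ j > 0, {X : ℕ → V | X j ∈ I}ᶜ := by
    ext X; simp [nrt]
  rw [this]
  have h : ∀ j : ℕ, MeasurableSet {X : ℕ → V | X j ∈ I} := fun j =>
    (measurable_pi_apply (X := fun _ : ℕ => V) j) (MeasurableSet.of_discrete (s := I))
  exact (h 0).inter (MeasurableSet.iInter (fun j => MeasurableSet.iInter (fun _ => (h j).compl)))

lemma P3_slice (l1 l2 : ℝ≥0) (x : V) {A : Set (Tri V)} (hA : MeasurableSet A) :
    C.P3 l1 l2 x A = ∫⁻ p, C.mu x {X | (p, X) ∈ A} ∂((C.Q l1).prod (C.Q l2)) := by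
  rw [P3, Measure.prod_apply hA]
  rfl

theorem Lst_null (htr : C.Trans) (K R : ℕ) (l1 l2 : ℝ≥0) (x : V) (m : ℕ) :
    C.P3 l1 l2 x (C.Lst K R m) = 0 := by
  -- the measure does not depend on m
  have hconst : ∀ y, C.P3 l1 l2 y (C.Lst K R 0) = C.P3 l1 l2 x (C.Lst K R 0) := by
    intro y
    obtain ⟨φ, rfl⟩ := htr x y
    refine φ.P3_eq l1 l2 x (meas_Lst K R 0) (fun q => ?_)
    simp only [Lst, Sym.tri, mem_ofPred_eq, φ.clq_act]
  have hm : ∀ m, C.P3 l1 l2 x (C.Lst K R m) = C.P3 l1 l2 x (C.Lst K R 0) := by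
    intro m
    rw [P3_slice l1 l2 x (meas_Lst K R m)]
    have h1 : ∀ p : Rel V × Rel V, C.mu x {X | (p, X) ∈ C.Lst K R m} =
        ∑' y, C.pk m x y * C.mu y {X | (p, X) ∈ C.Lst K R 0} := by
      intro p
      have h2 : ∀ y, C.pk m x y * C.mu y {X | (p, X) ∈ C.Lst K R 0} =
          C.mu x {X | X m = y ∧ (fun k => X (k + m)) ∈ nrt (C.clq K R p.1)} := by
        intro y
        rw [C.markov m x _ (meas_nrt _) y]
        rfl
      simp_rw [h2]
      rw [← measure_iUnion]
      · congr 1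
        ext X
        simp only [mem_iUnion, Lst, nrt, mem_ofPred_eq, exists_eq_left', zero_add, gt_iff_lt]
        refine and_congr_right (fun _ => ?_)
        constructor
        · intro h j hj
          exact h (j + m) (by omega)
        · intro h j hj
          have := h (j - m) (by omega)
          rwa [Nat.sub_add_cancel hj.le] at this
      · intro a b hab
        rw [Function.onFun, disjoint_left]
        rintro X ⟨h1, _⟩ ⟨h2, _⟩
        exact hab (h1.symm.trans h2)
      · intro y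
        exact (meas_pt m y).inter ((by fun_prop : Measurable fun (X : ℕ → V) k => X (k + m))
          (meas_nrt _))
    simp_rw [h1]
    rw [lintegral_tsum]
    · have h3 : ∀ y, ∫⁻ p, C.pk m x y * C.mu y {X | (p, X) ∈ C.Lst K R 0}
          ∂((C.Q l1).prod (C.Q l2)) = C.pk m x y * C.P3 l1 l2 x (C.Lst K R 0) := by
        intro y
        have hme : Measurable (fun p : Rel V × Rel V => C.mu y {X | (p, X) ∈ C.Lst K R 0}) :=
          measurable_measure_prodMk_left (meas_Lst K R 0)
        rw [lintegral_const_mul _ hme, ← P3_slice l1 l2 y (meas_Lst K R 0), hconst y]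
      simp_rw [h3]
      rw [ENNReal.tsum_mul_right, sum_pk, one_mul]
    · intro y
      exact ((measurable_measure_prodMk_left (meas_Lst K R 0)).const_mul _).aemeasurable
  -- disjointness
  have hdisj : Pairwise (Function.onFun Disjoint (fun m => C.Lst K R m)) := by
    intro m m' hne
    rw [Function.onFun, disjoint_left]
    rintro q ⟨h1, h2⟩ ⟨h3, h4⟩
    rcases lt_or_gt_of_ne hne with h | h
    · exact h2 m' h h3
    · exact h4 m h h1
  have hsum : ∑' m, C.P3 l1 l2 x (C.Lst K R m) ≤ 1 := by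
    rw [← measure_iUnion hdisj (fun m => meas_Lst K R m)]
    exact prob_le_one
  rw [hm m]
  by_contra h0
  simp_rw [hm] at hsum
  rw [ENNReal.tsum_const_eq_top_of_ne_zero h0] at hsum
  exact absurd hsum (by simp)

/-- finitely many visits -/
lemma fin_visits_null (htr : C.Trans) (K R : ℕ) (l1 l2 : ℝ≥0) (x : V) :
    C.P3 l1 l2 x {q | x ∈ C.clq K R q.1.1 ∧ ∃ N, ∀ j ≥ N, q.2 j ∉ C.clq K R q.1.1} = 0 := by
  have h0 : ∀ᵐ q ∂(C.P3 l1 l2 x), q.2 0 = x := by
    have : C.P3 l1 l2 x {q : Tri V | q.2 0 = x}ᶜ = 0 := by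
      have e : ({q : Tri V | q.2 0 = x}ᶜ : Set (Tri V)) = univ ×ˢ {X : ℕ → V | X 0 = x}ᶜ := by
        ext q; simp
      rw [e, P3, Measure.prod_prod, C.start x, mul_zero]
    exact measure_eq_zero_iff_ae_notMem.1 this |>.mono (fun q hq => by simpa using hq)
  have h1 : C.P3 l1 l2 x (⋃ m, C.Lst K R m) = 0 := by
    rw [measure_iUnion_null_iff]
    exact fun m => Lst_null htr K R l1 l2 x m
  have h2 : ∀ᵐ q ∂(C.P3 l1 l2 x), q ∉ ⋃ m, C.Lst K R m := measure_eq_zero_iff_ae_notMem.1 h1
  rw [measure_eq_zero_iff_ae_notMem]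
  filter_upwards [h0, h2] with q hq0 hq2
  rintro ⟨hx, N, hN⟩
  apply hq2
  classical
  have hex : ∃ m, q.2 m ∈ C.clq K R q.1.1 ∧ m < N := by
    refine ⟨0, by rw [hq0]; exact hx, ?_⟩
    by_contra hn
    have : N = 0 := by omega
    subst this
    exact hN 0 le_rfl (by rw [hq0]; exact hx)
  set S := (Finset.range N).filter (fun m => q.2 m ∈ C.clq K R q.1.1) with hS
  have hne : S.Nonempty := by
    obtain ⟨m, hm, hmN⟩ := hex
    exact ⟨m, Finset.mem_filter.2 ⟨Finset.mem_range.2 hmN, hm⟩⟩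
  rw [mem_iUnion]
  refine ⟨S.max' hne, ?_, ?_⟩
  · exact (Finset.mem_filter.1 (S.max'_mem hne)).2
  · intro j hj hjI
    by_cases hjN : N ≤ j
    · exact hN j hjN hjI
    · have := S.le_max' j (Finset.mem_filter.2 ⟨Finset.mem_range.2 (by omega), hjI⟩)
      omega

variable (C)

/-- the path enters the backward cluster of `w` only finitely often -/
def Fn (w : V) : Set (Tri V) := {q | ∃ N, ∀ j ≥ N, ¬ dre (jn q.1.1 q.1.2) (q.2 j) w}

/-- pairs -/
def Fw (K R : ℕ) (w : V) : Set (Tri V) := {q | w ∈ C.clq K R q.1.1} ∩ Fn w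

variable {C}

lemma meas_tail (w : V) (N : ℕ) :
    MeasurableSet {q : Tri V | ∀ j ≥ N, ¬ dre (jn q.1.1 q.1.2) (q.2 j) w} := by
  have : {q : Tri V | ∀ j ≥ N, ¬ dre (jn q.1.1 q.1.2) (q.2 j) w} =
      ⋂ j ≥ N, {q : Tri V | dre (jn q.1.1 q.1.2) (q.2 j) w}ᶜ := by
    ext q; simp
  rw [this]
  exact MeasurableSet.iInter (fun j => MeasurableSet.iInter (fun _ => (meas_drep j w).compl))

lemma meas_Fn (w : V) : MeasurableSet (Fn w : Set (Tri V)) := by
  have : (Fn w : Set (Tri V)) = ⋃ N, {q : Tri V | ∀ j ≥ N, ¬ dre (jn q.1.1 q.1.2) (q.2 j) w} := by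
    ext q; simp [Fn]
  rw [this]
  exact MeasurableSet.iUnion (fun N => meas_tail w N)

lemma meas_Fw (K R : ℕ) (w : V) : MeasurableSet (C.Fw K R w) := (meas_inI K R w).inter (meas_Fn w)

/-- diagonal bound -/
theorem diag_le (htr : C.Trans) (ham : C.Amen) (K R : ℕ) (l1 l2 : ℝ≥0) (o : V) :
    (l2 * K : ℝ≥0∞) * C.P3 l1 l2 o (C.Fw K R o) ≤ 2 * C.Q l1 {r | o ∈ C.clq K R r} := by
  set A : ℕ → Set (Tri V) := fun N => {q | o ∈ C.clq K R q.1.1} ∩
    {q : Tri V | ∀ j ≥ N, ¬ dre (jn q.1.1 q.1.2) (q.2 j) o} with hAdef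
  have hAm : ∀ N, MeasurableSet (A N) := fun N => (meas_inI K R o).inter (meas_tail o N)
  have hU : C.Fw K R o = ⋃ N, A N := by
    ext q
    simp only [Fw, Fn, mem_inter_iff, mem_ofPred_eq, mem_iUnion, hAdef]
    constructor
    · rintro ⟨h1, N, hN⟩
      exact ⟨N, h1, hN⟩
    · rintro ⟨N, h1, hN⟩
      exact ⟨h1, N, hN⟩
  have hmono : Monotone A := by
    intro N M hNM q hq
    exact ⟨hq.1, fun j hj => hq.2 j (le_trans hNM hj)⟩
  have hbound : ∀ N, (l2 * K : ℝ≥0∞) * C.P3 l1 l2 o (A N) ≤ 2 * C.Q l1 {r | o ∈ C.clq K R r} := by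
    intro N
    -- B T : no n-th visit up to time T
    set B : ℕ → Set (Tri V) := fun T => {q | o ∈ C.clq K R q.1.1} ∩
      ⋂ m ∈ Finset.range (T + 1), ({q : Tri V | q.2 m ∈ C.clq K R q.1.1} ∩
        {q : Tri V | vis (C.clq K R q.1.1) q.2 m ∈ ({N + 1} : Set ℕ)})ᶜ with hB
    have hBm : ∀ T, MeasurableSet (B T) := by
      intro T
      refine (meas_inI K R o).inter (Finset.measurableSet_biInter _ (fun m _ => ?_))
      exact ((meas_pathI K R m).inter ((meas_visI K R m)
        (MeasurableSet.of_discrete (s := {N + 1})))).compl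
    have hBanti : Antitone B := by
      intro T T' hTT q hq
      refine ⟨hq.1, ?_⟩
      have h2 := hq.2
      simp only [mem_iInter] at h2 ⊢
      intro m hm
      exact h2 m (Finset.mem_range.2 (by have := Finset.mem_range.1 hm; omega))
    have hBnull : C.P3 l1 l2 o (⋂ T, B T) = 0 := by
      refine measure_mono_null ?_ (measure_union_null (fin_visits_null htr K R l1 l2 o)
        (show C.P3 l1 l2 o {q : Tri V | q.2 0 = o}ᶜ = 0 by
          have e : ({q : Tri V | q.2 0 = o}ᶜ : Set (Tri V)) = univ ×ˢ {X : ℕ → V | X 0 = o}ᶜ := by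
            ext q; simp
          rw [e, P3, Measure.prod_prod, C.start o, mul_zero]))
      intro q hq
      by_cases hq0 : q.2 0 = o
      swap
      · right; exact hq0
      left
      rw [mem_iInter] at hq
      have ho : o ∈ C.clq K R q.1.1 := (hq 0).1
      refine ⟨ho, ?_⟩
      by_contra hcon
      push Not at hcon
      -- visits are unbounded, so the value N + 1 is attained at a visit
      have hvis : ∀ k : ℕ, ∃ m, q.2 m ∈ C.clq K R q.1.1 ∧ vis (C.clq K R q.1.1) q.2 m = k + 1 := by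
        classical
        intro k
        induction k with
        | zero =>
          refine ⟨0, by rw [hq0]; exact ho, ?_⟩
          rw [vis_zero, hq0, ind, if_pos ho]
        | succ k ih =>
          obtain ⟨m, hm, hmv⟩ := ih
          have hex : ∃ j, j > m ∧ q.2 j ∈ C.clq K R q.1.1 := by
            obtain ⟨j, hj, hjI⟩ := hcon (m + 1)
            exact ⟨j, by omega, hjI⟩
          have hfind := Nat.find_spec hex
          refine ⟨Nat.find hex, hfind.2, ?_⟩
          have hbet : ∀ i, m ≤ i → i < Nat.find hex → vis (C.clq K R q.1.1) q.2 i = k + 1 := by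
            intro i hi
            induction i, hi using Nat.le_induction with
            | base => intro _; exact hmv
            | succ i hi ih =>
              intro hlt
              rw [vis_last, ih (by omega), ind, if_neg]
              intro hI
              exact Nat.find_min hex hlt ⟨by omega, hI⟩
          obtain ⟨i, hi⟩ : ∃ i, Nat.find hex = i + 1 := ⟨Nat.find hex - 1, by omega⟩
          rw [hi] at hfind ⊢
          rw [vis_last, hbet i (by omega) (by omega), ind, if_pos hfind.2]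
      obtain ⟨m, hm, hmv⟩ := hvis N
      have := (hq m).2
      simp only [mem_iInter] at this
      exact this m (Finset.mem_range.2 (by omega)) ⟨hm, hmv⟩
    have hlim : Tendsto (fun T => C.P3 l1 l2 o (B T)) atTop (𝓝 0) := by
      have := tendsto_measure_iInter_atTop (μ := C.P3 l1 l2 o) (fun T => (hBm T).nullMeasurableSet)
        hBanti ⟨0, measure_ne_top _ _⟩
      rwa [hBnull] at this
    have hsub : ∀ T, A N ⊆ B T ∪ C.Ev K R T N o := by
      intro T q hq
      by_cases h : ∃ m ≤ T, q.2 m ∈ C.clq K R q.1.1 ∧ vis (C.clq K R q.1.1) q.2 m = N + 1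
      · right
        obtain ⟨m, hm, h1, h2⟩ := h
        refine ⟨hq.1, m, hm, h1, h2, hq.2 m ?_⟩
        have := vis_le (C.clq K R q.1.1) q.2 m
        show N ≤ m
        omega
      · left
        refine ⟨hq.1, ?_⟩
        simp only [mem_iInter]
        intro m hm hc
        exact h ⟨m, by have := Finset.mem_range.1 hm; omega, hc.1, hc.2⟩
    have hT : ∀ T, (l2 * K : ℝ≥0∞) * C.P3 l1 l2 o (A N) ≤
        (l2 * K : ℝ≥0∞) * C.P3 l1 l2 o (B T) + 2 * C.Q l1 {r | o ∈ C.clq K R r} := by
      intro T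
      calc (l2 * K : ℝ≥0∞) * C.P3 l1 l2 o (A N)
          ≤ (l2 * K : ℝ≥0∞) * (C.P3 l1 l2 o (B T) + C.P3 l1 l2 o (C.Ev K R T N o)) := by
            gcongr
            exact (measure_mono (hsub T)).trans (measure_union_le _ _)
        _ = (l2 * K : ℝ≥0∞) * C.P3 l1 l2 o (B T) + (l2 * K : ℝ≥0∞) * C.P3 l1 l2 o (C.Ev K R T N o) :=
            mul_add _ _ _
        _ ≤ _ := add_le_add le_rfl (Ev_le htr ham K R T N l1 l2 o)
    have hlim2 : Tendsto (fun T => (l2 * K : ℝ≥0∞) * C.P3 l1 l2 o (B T) +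
        2 * C.Q l1 {r | o ∈ C.clq K R r}) atTop (𝓝 ((l2 * K : ℝ≥0∞) * 0 +
        2 * C.Q l1 {r | o ∈ C.clq K R r})) := by
      refine Tendsto.add_const _ (ENNReal.Tendsto.const_mul hlim (Or.inr ?_))
      exact ENNReal.mul_ne_top ENNReal.coe_ne_top (ENNReal.natCast_ne_top _)
    have := ge_of_tendsto' hlim2 hT
    rwa [mul_zero, zero_add] at this
  rw [hU, hmono.measure_iUnion, ENNReal.mul_iSup]
  exact iSup_le hbound

end Chain

end Pool.Agent.Q298.Frog
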