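import Pool.Agent.Q298.Frog.Bern

set_option autoImplicit false
set_option linter.unusedSectionVars false
open MeasureTheory Set Filter ProbabilityTheory
open scoped ENNReal NNReal Topology

namespace Pool.Agent.Q298.Frog

section clusters

variable {D : Type*} [Fintype D] [DecidableEq D] {E : Type*} [Fintype E] [DecidableEq E]

/-- reachability inside `C` -/
def rin (e : D → D → E) (f : E → Prop) (C : Finset D) (r x : D) : Prop :=
  Relation.ReflTransGen (fun a b => a ∈ C ∧ b ∈ C ∧ f (e a b)) r x

/-- the cluster of `r` inside `C` -/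
noncomputable def cl (e : D → D → E) (f : E → Prop) (C : Finset D) (r : D) : Finset D := by
  classical exact C.filter (fun x => rin e f C r x)

lemma mem_cl {e : D → D → E} {f : E → Prop} {C : Finset D} {r x : D} :
    x ∈ cl e f C r ↔ x ∈ C ∧ rin e f C r x := by
  classical
  unfold cl
  rw [Finset.mem_filter]

lemma rin_mono {e : D → D → E} {f : E → Prop} {C C' : Finset D} (h : C ⊆ C') {r x : D}
    (hr : rin e f C r x) : rin e f C' r x := by
  induction hr with
  | refl => exact Relation.ReflTransGen.refl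
  | tail _ hbc ih => exact Relation.ReflTransGen.tail ih ⟨h hbc.1, h hbc.2.1, hbc.2.2⟩

lemma cl_iff {e : D → D → E} {f : E → Prop} {C D' : Finset D} {r : D} (hr : r ∈ C)
    (hCD : C ⊆ D') : cl e f D' r = C ↔
      (cl e f C r = C ∧ ∀ c ∈ C, ∀ d ∈ D' \ C, ¬ f (e c d)) := by
  constructor
  · intro h
    have hm : ∀ x, x ∈ D' → rin e f D' r x → x ∈ C := by
      intro x hx hrx
      rw [← h, mem_cl]
      exact ⟨hx, hrx⟩
    constructor
    · have key : ∀ x, rin e f D' r x → rin e f C r x := by
        intro x hx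
        induction hx with
        | refl => exact Relation.ReflTransGen.refl
        | tail hab hbc ih =>
          refine Relation.ReflTransGen.tail ih ⟨hm _ hbc.1 hab, hm _ hbc.2.1 (hab.tail hbc), hbc.2.2⟩
      ext x
      rw [mem_cl]
      constructor
      · exact fun h' => h'.1
      · intro hx
        have hx' := hx
        rw [← h, mem_cl] at hx'
        exact ⟨hx, key x hx'.2⟩
    · intro c hc d hd hf
      rw [Finset.mem_sdiff] at hd
      have hc' := hc
      rw [← h, mem_cl] at hc'
      exact hd.2 (hm d hd.1 (hc'.2.tail ⟨hc'.1, hd.1, hf⟩))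
  · rintro ⟨h1, h2⟩
    ext x
    rw [mem_cl]
    constructor
    · rintro ⟨_, hx⟩
      induction hx with
      | refl => exact hr
      | tail hab hbc ih =>
        have hb := ih hbc.1
        by_contra hc
        exact h2 _ hb _ (Finset.mem_sdiff.2 ⟨hbc.2.1, hc⟩) hbc.2.2
    · intro hx
      have hx' := hx
      rw [← h1, mem_cl] at hx'
      exact ⟨hCD hx, rin_mono hCD hx'.2⟩

/-- the edge labelling separates pairs up to a swap -/
def Sep (e : D → D → E) : Prop :=
  ∀ a b c d, e a b = e c d → (a = c ∧ b = d) ∨ (a = d ∧ b = c)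

lemma prob_cl {e : D → D → E} (he : Sep e) (w : E → ℝ≥0) (W : D → D → ℝ≥0)
    (hw : ∀ a b, a ≠ b → w (e a b) = W a b) {C D' : Finset D} {r : D} (hr : r ∈ C)
    (hCD : C ⊆ D') :
    lw w {f | cl e f D' r = C} = lw w {f | cl e f C r = C} *
      ∏ p ∈ C ×ˢ (D' \ C), ENNReal.ofReal (Real.exp (-(W p.1 p.2 : ℝ))) := by
  have h1 : {f | cl e f D' r = C} = {f | cl e f C r = C} ∩
      vd ((C ×ˢ (D' \ C)).image (fun p => e p.1 p.2)) := by
    ext f
    simp only [mem_ofPred_eq, mem_inter_iff, vd, cl_iff hr hCD]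
    refine and_congr_right (fun _ => ?_)
    constructor
    · intro h b hb
      rw [Finset.mem_image] at hb
      obtain ⟨p, hp, rfl⟩ := hb
      rw [Finset.mem_product] at hp
      exact h _ hp.1 _ hp.2
    · intro h c hc d hd
      exact h _ (Finset.mem_image.2 ⟨(c, d), Finset.mem_product.2 ⟨hc, hd⟩, rfl⟩)
  rw [h1, lw_indep w ((C ×ˢ C).image (fun p => e p.1 p.2))
    ((C ×ˢ (D' \ C)).image (fun p => e p.1 p.2)), lw_vd, Finset.prod_image]
  · congr 1
    refine Finset.prod_congr rfl (fun p hp => ?_)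
    rw [Finset.mem_product, Finset.mem_sdiff] at hp
    rw [hw _ _ (fun h => hp.2.2 (by rw [← h]; exact hp.1))]
  · intro p hp q hq h
    rw [Finset.mem_coe, Finset.mem_product, Finset.mem_sdiff] at hp hq
    rcases he _ _ _ _ h with h' | h'
    · exact Prod.ext h'.1 h'.2
    · exact absurd (h'.1 ▸ hp.1) hq.2.2
  · rw [Finset.disjoint_left]
    intro b hb hb'
    rw [Finset.mem_image] at hb hb'
    obtain ⟨p, hp, rfl⟩ := hb
    obtain ⟨q, hq, hpq⟩ := hb'
    rw [Finset.mem_product] at hp hq
    rw [Finset.mem_sdiff] at hq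
    rcases he _ _ _ _ hpq with h' | h'
    · exact hq.2.2 (h'.2 ▸ hp.2)
    · exact hq.2.2 (h'.2 ▸ hp.1)
  · intro f g hfg h
    simp only [mem_ofPred_eq] at *
    refine Eq.trans ?_ h
    ext x
    rw [mem_cl, mem_cl]
    refine and_congr_right (fun _ => ?_)
    have hrel : (fun a b => a ∈ C ∧ b ∈ C ∧ g (e a b)) = fun a b => a ∈ C ∧ b ∈ C ∧ f (e a b) := by
      ext a b
      constructor
      · rintro ⟨ha, hb, hg⟩
        refine ⟨ha, hb, ?_⟩
        rw [hfg _ (Finset.mem_image.2 ⟨(a, b), Finset.mem_product.2 ⟨ha, hb⟩, rfl⟩)]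
        exact hg
      · rintro ⟨ha, hb, hg⟩
        refine ⟨ha, hb, ?_⟩
        rw [← hfg _ (Finset.mem_image.2 ⟨(a, b), Finset.mem_product.2 ⟨ha, hb⟩, rfl⟩)]
        exact hg
    unfold rin
    rw [hrel]
  · intro f g hfg h b hb hgb
    exact h b hb (by rw [hfg b hb]; exact hgb)

lemma sum_cl (e : D → D → E) (w : E → ℝ≥0) {C : Finset D} {r : D} (hr : r ∈ C) :
    ∑ C' ∈ C.powerset.filter (fun C' => r ∈ C'), lw w {f | cl e f C r = C'} = 1 := by
  rw [← measure_biUnion_finset]
  · have : (⋃ C' ∈ C.powerset.filter (fun C' => r ∈ C'), {f : E → Prop | cl e f C r = C'}) = univ := by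
      ext f
      simp only [mem_iUnion, mem_ofPred_eq, mem_univ, iff_true]
      refine ⟨cl e f C r, ?_, rfl⟩
      rw [Finset.mem_filter, Finset.mem_powerset]
      refine ⟨?_, ?_⟩
      · intro x hx
        exact (mem_cl.1 hx).1
      · exact mem_cl.2 ⟨hr, Relation.ReflTransGen.refl⟩
    rw [this, measure_univ]
  · intro A _ B _ hAB
    rw [Function.onFun, disjoint_left]
    intro f h1 h2
    exact hAB (h1.symm.trans h2)
  · intro A _
    exact MeasurableSet.of_discrete

variable {E' : Type*} [Fintype E'] [DecidableEq E']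

theorem cl_eq {e : D → D → E} (he : Sep e) (w : E → ℝ≥0) {e' : D → D → E'} (he' : Sep e')
    (w' : E' → ℝ≥0) (W : D → D → ℝ≥0) (hw : ∀ a b, a ≠ b → w (e a b) = W a b)
    (hw' : ∀ a b, a ≠ b → w' (e' a b) = W a b) (r : D) (n : ℕ) :
    ∀ C : Finset D, C.card = n → r ∈ C →
      lw w {f | cl e f C r = C} = lw w' {f | cl e' f C r = C} := by
  induction n using Nat.strong_induction_on with
  | _ n ih =>
    intro C hC hr
    have s1 := sum_cl e w hr
    have s2 := sum_cl e' w' hr
    have hmem : C ∈ C.powerset.filter (fun C' => r ∈ C') := by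
      rw [Finset.mem_filter, Finset.mem_powerset]
      exact ⟨Finset.Subset.refl _, hr⟩
    rw [← Finset.add_sum_erase _ _ hmem] at s1 s2
    have hrest : ∑ C' ∈ (C.powerset.filter (fun C' => r ∈ C')).erase C, lw w {f | cl e f C r = C'} =
        ∑ C' ∈ (C.powerset.filter (fun C' => r ∈ C')).erase C, lw w' {f | cl e' f C r = C'} := by
      refine Finset.sum_congr rfl (fun C' hC' => ?_)
      rw [Finset.mem_erase, Finset.mem_filter, Finset.mem_powerset] at hC'
      rw [prob_cl he w W hw hC'.2.2 hC'.2.1, prob_cl he' w' W hw' hC'.2.2 hC'.2.1]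
      rw [ih C'.card ?_ C' rfl hC'.2.2]
      rw [← hC]
      exact Finset.card_lt_card (Finset.ssubset_iff_subset_ne.2 ⟨hC'.2.1, hC'.1⟩)
    rw [← s2, hrest] at s1
    refine (ENNReal.add_left_inj ?_).1 s1
    refine ne_top_of_le_ne_top ENNReal.one_ne_top ?_
    rw [← sum_cl e' w' hr]
    exact Finset.sum_le_sum_of_subset (Finset.erase_subset _ _)

lemma rin_dec (e : D → D → E) (w : E → ℝ≥0) (r x : D) :
    lw w {f | rin e f Finset.univ r x} =
      ∑ C' ∈ (Finset.univ : Finset (Finset D)).filter (fun C' => r ∈ C' ∧ x ∈ C'),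
        lw w {f | cl e f Finset.univ r = C'} := by
  rw [← measure_biUnion_finset]
  · congr 1
    ext f
    simp only [mem_iUnion, mem_ofPred_eq, Finset.mem_filter, Finset.mem_univ, true_and, exists_prop]
    constructor
    · intro h
      exact ⟨cl e f Finset.univ r, ⟨mem_cl.2 ⟨Finset.mem_univ _, Relation.ReflTransGen.refl⟩,
        mem_cl.2 ⟨Finset.mem_univ _, h⟩⟩, rfl⟩
    · rintro ⟨C', ⟨_, hx⟩, h⟩
      rw [← h] at hx
      exact (mem_cl.1 hx).2
  · intro A _ B _ hAB
    rw [Function.onFun, disjoint_left]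
    intro f h1 h2
    exact hAB (h1.symm.trans h2)
  · intro A _
    exact MeasurableSet.of_discrete

/-- connection probabilities coincide -/
theorem rin_eq {e : D → D → E} (he : Sep e) (w : E → ℝ≥0) {e' : D → D → E'} (he' : Sep e')
    (w' : E' → ℝ≥0) (W : D → D → ℝ≥0) (hw : ∀ a b, a ≠ b → w (e a b) = W a b)
    (hw' : ∀ a b, a ≠ b → w' (e' a b) = W a b) (r x : D) :
    lw w {f | rin e f Finset.univ r x} = lw w' {f | rin e' f Finset.univ r x} := by
  rw [rin_dec e w, rin_dec e' w']
  refine Finset.sum_congr rfl (fun C' hC' => ?_)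
  rw [Finset.mem_filter] at hC'
  rw [prob_cl he w W hw hC'.2.1 (Finset.subset_univ _), prob_cl he' w' W hw' hC'.2.1
    (Finset.subset_univ _), cl_eq he w he' w' W hw hw' r _ C' rfl hC'.2.1]

end clusters

section undirected

variable {D : Type*} [Fintype D] [DecidableEq D]

/-- open graph -/
def gph (f : Sym2 D → Prop) : SimpleGraph D := SimpleGraph.fromEdgeSet {e | f e}

open Classical in
lemma bridges_le (f : Sym2 D → Prop) :
    ((Finset.univ : Finset (Sym2 D)).filter
      (fun e => ¬ e.IsDiag ∧ f e ∧ (gph f).IsBridge e)).card ≤ Fintype.card D := by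
  rcases isEmpty_or_nonempty D with hD | hD
  · have : IsEmpty (Sym2 D) := by
      refine ⟨fun e => ?_⟩
      induction e with
      | _ a b => exact hD.elim a
    rw [Finset.univ_eq_empty, Finset.filter_empty]
    simp
  set B := (Finset.univ : Finset (Sym2 D)).filter
      (fun e => ¬ e.IsDiag ∧ f e ∧ (gph f).IsBridge e) with hB
  set H : SimpleGraph D := SimpleGraph.fromEdgeSet (B : Set (Sym2 D)) with hH
  have hHG : H ≤ gph f := by
    apply SimpleGraph.fromEdgeSet_mono
    intro e he
    rw [hB, Finset.mem_coe, Finset.mem_filter] at he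
    exact he.2.2.1
  have hHe : H.edgeSet = (B : Set (Sym2 D)) := by
    rw [hH, SimpleGraph.edgeSet_fromEdgeSet]
    ext e
    simp only [Set.mem_sdiff]
    constructor
    · exact fun h => h.1
    · intro h
      refine ⟨h, ?_⟩
      rw [hB, Finset.mem_coe, Finset.mem_filter] at h
      exact h.2.1
  have hac : H.IsAcyclic := by
    rw [SimpleGraph.isAcyclic_iff_forall_isBridge]
    intro e he
    rw [hHe, hB, Finset.mem_coe, Finset.mem_filter] at he
    have hb := he.2.2.2
    induction e with
    | _ a b =>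
      rw [SimpleGraph.isBridge_iff] at hb ⊢
      intro hr
      exact hb (hr.mono (SimpleGraph.deleteEdges_mono hHG))
  obtain ⟨T, hHT, _, hT⟩ := SimpleGraph.connected_top.exists_isTree_le_of_le_of_isAcyclic
    (le_top : H ≤ ⊤) hac
  have h1 := hT.card_edgeFinset
  have h2 : B ⊆ T.edgeFinset := by
    intro e he
    rw [SimpleGraph.mem_edgeFinset]
    apply SimpleGraph.edgeSet_mono hHT
    rw [hHe]
    exact he
  have := Finset.card_le_card h2
  omega

/-- undirected bound -/
lemma undirected (w : Sym2 D → ℝ≥0) :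
    ∑ e ∈ (Finset.univ : Finset (Sym2 D)).filter (fun e => ¬ e.IsDiag), (w e : ℝ≥0∞) *
      lw w {f | ¬ f e ∧ (gph f).IsBridge e} ≤ Fintype.card D := by
  classical
  have h1 : ∀ e : Sym2 D, (w e : ℝ≥0∞) * lw w {f | ¬ f e ∧ (gph f).IsBridge e} ≤
      lw w {f | f e ∧ (gph f).IsBridge e} := by
    intro e
    have hdep : ∀ f g : Sym2 D → Prop, (∀ e' ∈ Finset.univ \ {e}, f e' = g e') →
        f ∈ {f | (gph f).IsBridge e} → g ∈ {f | (gph f).IsBridge e} := by
      intro f g hfg h
      have : (gph f).deleteEdges {e} = (gph g).deleteEdges {e} := by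
        ext a b
        simp only [gph, SimpleGraph.deleteEdges_adj, SimpleGraph.fromEdgeSet_adj, mem_ofPred_eq,
          mem_singleton_iff]
        by_cases hab : s(a, b) = e
        · simp [hab]
        · rw [hfg (s(a, b)) (by simp [hab])]
      simp only [mem_ofPred_eq] at *
      induction e with
      | _ a b =>
        rw [SimpleGraph.isBridge_iff] at *
        rwa [← this]
    have hd : Disjoint ({e} : Finset (Sym2 D)) (Finset.univ \ {e}) := Finset.disjoint_sdiff
    have e1 : lw w {f | ¬ f e ∧ (gph f).IsBridge e} =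
        lw w (vd {e}) * lw w {f | (gph f).IsBridge e} := by
      rw [← lw_indep w {e} (Finset.univ \ {e}) hd (vd {e}) {f | (gph f).IsBridge e} ?_ hdep]
      · congr 1
        ext f
        simp [vd]
      · intro f g hfg h e' he' hg
        exact h e' he' (by rw [hfg e' he']; exact hg)
    have e2 : lw w {f | f e ∧ (gph f).IsBridge e} =
        lw w (vd {e})ᶜ * lw w {f | (gph f).IsBridge e} := by
      rw [← lw_indep w {e} (Finset.univ \ {e}) hd (vd {e})ᶜ {f | (gph f).IsBridge e} ?_ hdep]
      · congr 1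
        ext f
        simp [vd]
      · intro f g hfg h h'
        refine h ?_
        intro e' he' hg
        exact h' e' he' (by rw [← hfg e' he']; exact hg)
    rw [e1, e2, ← mul_assoc]
    gcongr
    rw [prob_compl_eq_one_sub (meas_vd _), lw_vd, Finset.prod_singleton]
    have : (w e : ℝ≥0∞) = ENNReal.ofReal (w e : ℝ) := by rw [ENNReal.ofReal_coe_nnreal]
    rw [this, ← ENNReal.ofReal_mul (NNReal.coe_nonneg (w e)), ← ENNReal.ofReal_one,
      ← ENNReal.ofReal_sub _ (Real.exp_pos _).le]
    apply ENNReal.ofReal_le_ofReal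
    have h3 := Real.add_one_le_exp (w e : ℝ)
    have h4 : Real.exp (w e : ℝ) * Real.exp (-(w e : ℝ)) = 1 := by
      rw [← Real.exp_add]; simp
    have h5 := Real.exp_pos (-(w e : ℝ))
    nlinarith
  calc _ ≤ ∑ e ∈ (Finset.univ : Finset (Sym2 D)).filter (fun e => ¬ e.IsDiag),
        lw w {f | f e ∧ (gph f).IsBridge e} := Finset.sum_le_sum (fun e _ => h1 e)
    _ = ∑ e ∈ (Finset.univ : Finset (Sym2 D)).filter (fun e => ¬ e.IsDiag),
        ∫⁻ f, ({f | f e ∧ (gph f).IsBridge e} : Set (Sym2 D → Prop)).indicator 1 f ∂(lw w) := by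
        refine Finset.sum_congr rfl (fun e _ => ?_)
        rw [lintegral_indicator_one MeasurableSet.of_discrete]
    _ = ∫⁻ f, ∑ e ∈ (Finset.univ : Finset (Sym2 D)).filter (fun e => ¬ e.IsDiag),
        ({f | f e ∧ (gph f).IsBridge e} : Set (Sym2 D → Prop)).indicator 1 f ∂(lw w) := by
        rw [lintegral_finsetSum _ (fun e _ => Measurable.of_discrete)]
    _ ≤ ∫⁻ _, (Fintype.card D : ℝ≥0∞) ∂(lw w) := by
        refine lintegral_mono (fun f => ?_)
        have := bridges_le f
        calc ∑ e ∈ (Finset.univ : Finset (Sym2 D)).filter (fun e => ¬ e.IsDiag),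
              ({f | f e ∧ (gph f).IsBridge e} : Set (Sym2 D → Prop)).indicator
                (1 : (Sym2 D → Prop) → ℝ≥0∞) f
            = ∑ e ∈ (Finset.univ : Finset (Sym2 D)).filter (fun e => ¬ e.IsDiag),
              (if f e ∧ (gph f).IsBridge e then 1 else 0) := by
              refine Finset.sum_congr rfl (fun e _ => ?_)
              rw [indicator_apply]
              rfl
          _ = ((Finset.univ : Finset (Sym2 D)).filter
              (fun e => ¬ e.IsDiag ∧ f e ∧ (gph f).IsBridge e)).card := by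
              rw [← Finset.sum_filter, Finset.filter_filter]
              simp
          _ ≤ _ := by exact_mod_cast this
    _ = _ := by simp

end undirected

end Pool.Agent.Q298.Frog
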