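import Pool.Agent.Q298.Frog.FL

set_option autoImplicit false
set_option linter.unusedSectionVars false
open MeasureTheory Set Filter ProbabilityTheory
open scoped ENNReal NNReal Topology

namespace Pool.Agent.Q298.Frog

variable {D : Type*} [Fintype D] [DecidableEq D]

/-- forward reachability -/
def dre (f : D × D → Prop) (a b : D) : Prop := Relation.ReflTransGen (fun a b => f (a, b)) a b

lemma rin_pair (f : D × D → Prop) (a b : D) :
    rin (fun a b => (a, b)) f Finset.univ a b ↔ dre f a b := by
  unfold rin dre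
  have : (fun a b => a ∈ (Finset.univ : Finset D) ∧ b ∈ (Finset.univ : Finset D) ∧ f (a, b)) =
      fun a b => f (a, b) := by
    ext a b; simp
  rw [this]

lemma rin_sym (f : Sym2 D → Prop) (a b : D) (h : (gph f).Reachable a b) :
    rin (fun a b => s(a, b)) f Finset.univ a b := by
  rw [SimpleGraph.reachable_iff_reflTransGen] at h
  unfold rin
  induction h with
  | refl => exact Relation.ReflTransGen.refl
  | tail _ hbc ih =>
    refine ih.tail ⟨Finset.mem_univ _, Finset.mem_univ _, ?_⟩
    rw [gph, SimpleGraph.fromEdgeSet_adj] at hbc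
    exact hbc.1

lemma sum_offdiag (g : Sym2 D → ℝ≥0∞) :
    ∑ p ∈ (Finset.univ : Finset (D × D)).filter (fun p => p.1 ≠ p.2), g s(p.1, p.2) ≤
      2 * ∑ e ∈ (Finset.univ : Finset (Sym2 D)).filter (fun e => ¬ e.IsDiag), g e := by
  classical
  rw [← Finset.sum_fiberwise_of_maps_to (g := fun p : D × D => s(p.1, p.2))
    (t := (Finset.univ : Finset (Sym2 D)).filter (fun e => ¬ e.IsDiag))]
  · rw [Finset.mul_sum]
    refine Finset.sum_le_sum (fun e he => ?_)
    have h1 : ∀ p ∈ ((Finset.univ : Finset (D × D)).filter (fun p => p.1 ≠ p.2)).filter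
        (fun p => s(p.1, p.2) = e), g s(p.1, p.2) = g e := by
      intro p hp
      rw [(Finset.mem_filter.1 hp).2]
    rw [Finset.sum_congr rfl h1, Finset.sum_const, nsmul_eq_mul]
    gcongr
    induction e with
    | _ a b =>
      have : ((Finset.univ : Finset (D × D)).filter (fun p => p.1 ≠ p.2)).filter
          (fun p => s(p.1, p.2) = s(a, b)) ⊆ {(a, b), (b, a)} := by
        intro p hp
        have h2 := (Finset.mem_filter.1 hp).2
        rw [Sym2.eq_iff] at h2
        rw [Finset.mem_insert, Finset.mem_singleton]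
        rcases h2 with h2 | h2
        · left; exact Prod.ext h2.1 h2.2
        · right; exact Prod.ext h2.1 h2.2
      have := (Finset.card_le_card this).trans Finset.card_le_two
      exact_mod_cast this
  · intro p hp
    rw [Finset.mem_filter] at hp ⊢
    refine ⟨Finset.mem_univ _, ?_⟩
    rw [Sym2.mk_isDiag_iff]
    exact hp.2

/-- the directed bound -/
theorem directed (W : D → D → ℝ≥0) (hW : ∀ a b, W a b = W b a) :
    ∑ p ∈ (Finset.univ : Finset (D × D)).filter (fun p => p.1 ≠ p.2), (W p.1 p.2 : ℝ≥0∞) *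
      lw (fun p : D × D => W p.1 p.2) {f | ¬ dre f p.1 p.2} ≤ 2 * Fintype.card D := by
  classical
  set w2 : Sym2 D → ℝ≥0 := Sym2.lift ⟨W, hW⟩ with hw2
  have hsep1 : Sep (fun a b : D => (a, b)) := by
    intro a b c d h
    left
    exact Prod.mk.inj h
  have hsep2 : Sep (fun a b : D => s(a, b)) := by
    intro a b c d h
    exact Sym2.eq_iff.1 h
  have heq : ∀ a b : D, lw (fun p : D × D => W p.1 p.2) {f | dre f a b} =
      lw w2 {f | rin (fun a b => s(a, b)) f Finset.univ a b} := by
    intro a b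
    rw [← rin_eq hsep1 (fun p : D × D => W p.1 p.2) hsep2 w2 W (fun _ _ _ => rfl)
      (fun a b _ => by rw [hw2]; rfl) a b]
    congr 1
    ext f
    exact (rin_pair f a b).symm
  have h1 : ∀ p ∈ (Finset.univ : Finset (D × D)).filter (fun p => p.1 ≠ p.2),
      (W p.1 p.2 : ℝ≥0∞) * lw (fun p : D × D => W p.1 p.2) {f | ¬ dre f p.1 p.2} ≤
      (w2 s(p.1, p.2) : ℝ≥0∞) * lw w2 {f | ¬ f s(p.1, p.2) ∧ (gph f).IsBridge s(p.1, p.2)} := by
    rintro ⟨a, b⟩ hab
    rw [Finset.mem_filter] at hab
    simp only at hab ⊢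
    have e1 : (w2 s(a, b) : ℝ≥0∞) = W a b := by rw [hw2]; rfl
    rw [e1]
    gcongr
    have c1 : {f : D × D → Prop | ¬ dre f a b} = {f | dre f a b}ᶜ := rfl
    rw [c1, prob_compl_eq_one_sub MeasurableSet.of_discrete, heq a b,
      ← prob_compl_eq_one_sub MeasurableSet.of_discrete]
    apply measure_mono
    intro f hf
    have hf' : ¬ rin (fun a b => s(a, b)) f Finset.univ a b := hf
    refine ⟨?_, ?_⟩
    · intro h
      exact hf' (Relation.ReflTransGen.single ⟨Finset.mem_univ _, Finset.mem_univ _, h⟩)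
    · apply SimpleGraph.IsBridge.of_not_reachable
      intro h
      exact hf' (rin_sym f a b h)
  refine (Finset.sum_le_sum h1).trans ?_
  refine (sum_offdiag (fun e => (w2 e : ℝ≥0∞) * lw w2 {f | ¬ f e ∧ (gph f).IsBridge e})).trans ?_
  gcongr
  exact undirected w2

end Pool.Agent.Q298.Frog
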