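import Pool.Agent.Q298.Frog.Decay
import Pool.Agent.Q298.Frog.FL2

set_option autoImplicit false
set_option linter.unusedSectionVars false
open MeasureTheory Set Filter ProbabilityTheory
open scoped ENNReal NNReal Topology

namespace Pool.Agent.Q298.Frog

/-- frog configurations -/
abbrev Cfg (V : Type*) := V → ℕ × (ℕ → ℕ → V)

/-- random relations -/
abbrev Rel (V : Type*) := V × V → Prop

/-- `y` is visited by a particle of `x` -/
def rel {V : Type*} (ω : Cfg V) : Rel V := fun e => ∃ k < (ω e.1).1, ∃ n, (ω e.1).2 k n = e.2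

variable {V : Type*} [MeasurableSpace V] [MeasurableSingletonClass V] [Countable V]

lemma meas_noHit (A : Set (ℕ → V)) (hA : MeasurableSet A) :
    MeasurableSet {p : ℕ × (ℕ → ℕ → V) | ∀ k < p.1, p.2 k ∉ A} := by
  have : {p : ℕ × (ℕ → ℕ → V) | ∀ k < p.1, p.2 k ∉ A} =
      ⋂ k, ({p : ℕ × (ℕ → ℕ → V) | k < p.1}ᶜ ∪ {p | p.2 k ∈ A}ᶜ) := by
    ext p
    simp only [mem_ofPred_eq, mem_iInter, mem_union, mem_compl_iff]
    refine forall_congr' (fun k => ?_)
    tauto
  rw [this]
  refine MeasurableSet.iInter (fun k => MeasurableSet.union ?_ ?_)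
  · exact ((measurable_fst (MeasurableSet.of_discrete (s := {m : ℕ | k < m}))) : _).compl
  · exact (((measurable_pi_apply k).comp measurable_snd) hA).compl

namespace Chain

variable (C : Chain V)

/-- law at one vertex -/
noncomputable def site (l : ℝ≥0) (x : V) : Measure (ℕ × (ℕ → ℕ → V)) :=
  (poissonMeasure l).prod (Measure.infinitePi fun _ : ℕ => C.mu x)

instance (l : ℝ≥0) (x : V) : IsProbabilityMeasure (C.site l x) := by
  unfold site; infer_instance

/-- law of the frogs -/
noncomputable def frog (l : ℝ≥0) : Measure (Cfg V) := Measure.infinitePi fun x => C.site l x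

instance (l : ℝ≥0) : IsProbabilityMeasure (C.frog l) := by unfold frog; infer_instance

lemma site_noHit (l : ℝ≥0) (x : V) (A : Set (ℕ → V)) (hA : MeasurableSet A) :
    C.site l x {p | ∀ k < p.1, p.2 k ∉ A} = ENNReal.ofReal (Real.exp (-(l * (C.mu x A).toReal))) := by
  unfold site
  rw [Measure.prod_apply (meas_noHit A hA)]
  have h1 : ∀ n : ℕ, (Measure.infinitePi fun _ : ℕ => C.mu x)
      (Prod.mk n ⁻¹' {p : ℕ × (ℕ → ℕ → V) | ∀ k < p.1, p.2 k ∉ A}) =
      ENNReal.ofReal ((1 - (C.mu x A).toReal) ^ n) := by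
    intro n
    have : (Prod.mk n ⁻¹' {p : ℕ × (ℕ → ℕ → V) | ∀ k < p.1, p.2 k ∉ A}) =
        Set.pi (Finset.range n : Set ℕ) (fun _ => Aᶜ) := by
      ext W
      simp
    rw [this, Measure.infinitePi_pi _ (fun _ _ => hA.compl), Finset.prod_const, Finset.card_range,
      prob_compl_eq_one_sub hA, ENNReal.ofReal_pow]
    · congr 1
      rw [ENNReal.ofReal_sub _ ENNReal.toReal_nonneg, ENNReal.ofReal_one, ENNReal.ofReal_toReal
        (measure_ne_top _ _)]
    · have := ENNReal.toReal_mono ENNReal.one_ne_top (prob_le_one (μ := C.mu x) (s := A))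
      rw [ENNReal.toReal_one] at this
      linarith
  simp_rw [h1]
  rw [lintegral_countable']
  simp_rw [poissonMeasure_singleton]
  set q : ℝ := 1 - (C.mu x A).toReal with hq
  have hq0 : 0 ≤ q := by
    have := ENNReal.toReal_mono ENNReal.one_ne_top (prob_le_one (μ := C.mu x) (s := A))
    rw [ENNReal.toReal_one] at this
    linarith
  have h2 : ∀ n : ℕ, ENNReal.ofReal (q ^ n) * ENNReal.ofReal (Real.exp (-(l : ℝ)) * (l : ℝ) ^ n / n.factorial) =
      ENNReal.ofReal (Real.exp (-(l : ℝ)) * ((l * q) ^ n / n.factorial)) := by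
    intro n
    rw [← ENNReal.ofReal_mul (by positivity)]
    congr 1
    rw [mul_pow]
    ring
  simp_rw [h2]
  have hs : HasSum (fun n : ℕ => Real.exp (-(l : ℝ)) * ((l * q) ^ n / n.factorial))
      (Real.exp (-(l : ℝ)) * Real.exp (l * q)) := by
    apply HasSum.mul_left
    rw [Real.exp_eq_exp_ℝ]
    exact NormedSpace.expSeries_div_hasSum_exp (l * q : ℝ)
  rw [← ENNReal.ofReal_tsum_of_nonneg (fun n => by positivity) hs.summable, hs.tsum_eq,
    ← Real.exp_add]
  congr 2
  rw [hq]; ring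

/-- void probabilities of the frogs -/
lemma frog_noHit (l : ℝ≥0) (s : Finset V) (A : V → Set (ℕ → V)) (hA : ∀ x, MeasurableSet (A x)) :
    C.frog l {ω | ∀ x ∈ s, ∀ k < (ω x).1, (ω x).2 k ∉ A x} =
      ENNReal.ofReal (Real.exp (-(l * ∑ x ∈ s, (C.mu x (A x)).toReal))) := by
  have : {ω : Cfg V | ∀ x ∈ s, ∀ k < (ω x).1, (ω x).2 k ∉ A x} =
      Set.pi (s : Set V) (fun x => {p | ∀ k < p.1, p.2 k ∉ A x}) := by
    ext ω
    simp
  rw [this, frog, Measure.infinitePi_pi _ (fun x _ => meas_noHit _ (hA x))]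
  simp_rw [fun x => C.site_noHit l x (A x) (hA x)]
  rw [← ENNReal.ofReal_prod_of_nonneg (fun _ _ => (Real.exp_pos _).le), ← Real.exp_sum]
  congr 2
  rw [Finset.sum_neg_distrib, Finset.mul_sum]

end Chain

lemma meas_rel_e (e : V × V) : MeasurableSet {ω : Cfg V | rel ω e} := by
  have : {ω : Cfg V | rel ω e} = ⋃ k, ⋃ n, ({ω : Cfg V | k < (ω e.1).1} ∩
      {ω | (ω e.1).2 k n = e.2}) := by
    ext ω
    simp only [rel, mem_ofPred_eq, mem_iUnion, mem_inter_iff]
    constructor
    · rintro ⟨k, hk, n, hn⟩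
      exact ⟨k, n, hk, hn⟩
    · rintro ⟨k, n, hk, hn⟩
      exact ⟨k, hk, n, hn⟩
  rw [this]
  refine MeasurableSet.iUnion (fun k => MeasurableSet.iUnion (fun n => MeasurableSet.inter ?_ ?_))
  · have h : Measurable (fun ω : Cfg V => (ω e.1).1) := measurable_fst.comp (measurable_pi_apply _)
    exact h (MeasurableSet.of_discrete (s := {m : ℕ | k < m}))
  · have h : Measurable (fun ω : Cfg V => (ω e.1).2 k n) := by fun_prop
    exact h (measurableSet_singleton _)

lemma meas_rel : Measurable (rel : Cfg V → Rel V) := by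
  apply measurable_pi_lambda
  intro e
  rw [← measurableSet_setOfPred]
  exact meas_rel_e e

namespace Chain

variable (C : Chain V)

/-- the law of the random relation -/
noncomputable def Q (l : ℝ≥0) : Measure (Rel V) := (C.frog l).map rel

instance (l : ℝ≥0) : IsProbabilityMeasure (C.Q l) := by
  unfold Q; exact Measure.isProbabilityMeasure_map meas_rel.aemeasurable

open Classical in
/-- exponent of the void probability -/
noncomputable def hs (S : Finset (V × V)) : ℝ :=
  ∑ x ∈ S.image Prod.fst, (C.mu x {X | ∃ n, (x, X n) ∈ S}).toReal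

lemma meas_hs (x : V) (S : Finset (V × V)) : MeasurableSet {X : ℕ → V | ∃ n, (x, X n) ∈ S} := by
  have : {X : ℕ → V | ∃ n, (x, X n) ∈ S} = ⋃ n, {X | X n ∈ {y | (x, y) ∈ S}} := by
    ext X; simp
  rw [this]
  exact MeasurableSet.iUnion (fun n => (measurable_pi_apply (X := fun _ : ℕ => V) n)
    (MeasurableSet.of_discrete (s := {y | (x, y) ∈ S})))

lemma Q_vd (l : ℝ≥0) (S : Finset (V × V)) :
    C.Q l (vd S) = ENNReal.ofReal (Real.exp (-(l * C.hs S))) := by
  classical
  unfold Q
  rw [Measure.map_apply meas_rel (meas_vd S)]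
  have : rel ⁻¹' (vd S) = {ω : Cfg V | ∀ x ∈ S.image Prod.fst, ∀ k < (ω x).1,
      (ω x).2 k ∉ {X : ℕ → V | ∃ n, (x, X n) ∈ S}} := by
    ext ω
    simp only [mem_preimage, vd, mem_ofPred_eq, rel, Finset.mem_image]
    constructor
    · rintro h x ⟨e, he, rfl⟩ k hk ⟨n, hn⟩
      exact h _ hn ⟨k, hk, n, rfl⟩
    · rintro h e he ⟨k, hk, n, hn⟩
      exact h e.1 ⟨e, he, rfl⟩ k hk ⟨n, by rw [hn]; exact he⟩
  rw [this, C.frog_noHit l _ _ (fun x => meas_hs x S), hs]

/-- superposition -/
theorem Q_add (a b : ℝ≥0) : ((C.Q a).prod (C.Q b)).map (fun p e => p.1 e ∨ p.2 e) = C.Q (a + b) := by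
  have hm : Measurable (fun (p : Rel V × Rel V) (e : V × V) => p.1 e ∨ p.2 e) := by
    apply measurable_pi_lambda
    intro e
    rw [← measurableSet_setOfPred]
    have : {p : Rel V × Rel V | p.1 e ∨ p.2 e} =
        (Prod.fst ⁻¹' {f : Rel V | f e}) ∪ (Prod.snd ⁻¹' {f : Rel V | f e}) := by
      ext p; simp
    rw [this]
    exact (measurable_fst (meas_prop e)).union (measurable_snd (meas_prop e))
  have : IsProbabilityMeasure (((C.Q a).prod (C.Q b)).map (fun p e => p.1 e ∨ p.2 e)) :=
    Measure.isProbabilityMeasure_map hm.aemeasurable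
  apply ext_vd
  intro S
  rw [Measure.map_apply hm (meas_vd S)]
  have h2 : (fun (p : Rel V × Rel V) (e : V × V) => p.1 e ∨ p.2 e) ⁻¹' vd S = vd S ×ˢ vd S := by
    ext p
    simp only [mem_preimage, vd, mem_ofPred_eq, mem_prod, not_or]
    constructor
    · intro h
      exact ⟨fun e he => (h e he).1, fun e he => (h e he).2⟩
    · intro h e he
      exact ⟨h.1 e he, h.2 e he⟩
  rw [h2, Measure.prod_prod, Q_vd, Q_vd, Q_vd, ← ENNReal.ofReal_mul (Real.exp_pos _).le,
    ← Real.exp_add]
  congr 2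
  push_cast
  ring

variable {C}

/-- action of a symmetry on relations -/
def Sym.act (φ : C.Sym) (r : Rel V) : Rel V := fun e => r (φ.f.symm e.1, φ.f.symm e.2)

lemma Sym.meas_act (φ : C.Sym) : Measurable (φ.act : Rel V → Rel V) := by
  apply measurable_pi_lambda
  intro e
  exact measurable_pi_apply _

theorem Sym.Q_act (φ : C.Sym) (l : ℝ≥0) : (C.Q l).map φ.act = C.Q l := by
  classical
  have : IsProbabilityMeasure ((C.Q l).map φ.act) :=
    Measure.isProbabilityMeasure_map φ.meas_act.aemeasurable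
  apply ext_vd
  intro S
  rw [Measure.map_apply φ.meas_act (meas_vd S)]
  have h2 : φ.act ⁻¹' vd S = vd (S.image (fun e => (φ.f.symm e.1, φ.f.symm e.2))) := by
    ext r
    simp only [mem_preimage, vd, mem_ofPred_eq, Sym.act, Finset.mem_image]
    constructor
    · rintro h _ ⟨e, he, rfl⟩
      exact h e he
    · intro h e he
      exact h _ ⟨e, he, rfl⟩
  rw [h2, Q_vd, Q_vd]
  congr 3
  congr 1
  unfold hs
  have h3 : (S.image (fun e => (φ.f.symm e.1, φ.f.symm e.2))).image Prod.fst =
      (S.image Prod.fst).image φ.f.symm := by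
    rw [Finset.image_image, Finset.image_image]
    rfl
  rw [h3, Finset.sum_image (fun a _ b _ h => φ.f.symm.injective h)]
  refine Finset.sum_congr rfl (fun x _ => ?_)
  congr 1
  have h4 := φ.mu_eq (φ.f.symm x) (meas_hs x S)
  rw [Equiv.apply_symm_apply] at h4
  rw [h4]
  congr 1
  ext X
  simp only [mem_ofPred_eq, Finset.mem_image]
  refine exists_congr (fun n => ?_)
  constructor
  · rintro ⟨e, he, h⟩
    have h5 := Prod.mk.inj h
    have h6 : e = (x, φ.f (X n)) := by
      refine Prod.ext ?_ ?_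
      · exact φ.f.symm.injective h5.1
      · rw [← h5.2, Equiv.apply_symm_apply]
    rwa [← h6]
  · intro h
    exact ⟨_, h, by simp⟩

end Chain

end Pool.Agent.Q298.Frog
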