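import Pool.Agent.Q298.Frog.Kt

set_option autoImplicit false
set_option linter.unusedSectionVars false
open MeasureTheory Set Filter ProbabilityTheory
open scoped ENNReal NNReal Topology

namespace Pool.Agent.Q298.Frog

section defs

variable {V : Type*} (G : SimpleGraph V) [G.LocallyFinite]

open Classical in
/-- transition probabilities of the simple random walk -/
noncomputable def srwStep (x y : V) : ℝ≥0∞ := if G.Adj x y then (G.degree x : ℝ≥0∞)⁻¹ else 0

open Classical in
/-- `μ` is the law of the simple random walk on `G` started at `x` -/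
structure IsSRW [MeasurableSpace V] (x : V) (μ : Measure (ℕ → V)) : Prop where
  prob : IsProbabilityMeasure μ
  cylinder : ∀ (n : ℕ) (w : ℕ → V), μ {X | ∀ i ≤ n, X i = w i} =
    if w 0 = x then ∏ i ∈ Finset.range n, srwStep G (w i) (w (i + 1)) else 0

omit [G.LocallyFinite] in
/-- outer vertex boundary -/
def vbd (F : Finset V) : Set V := {y | y ∉ F ∧ ∃ x ∈ F, G.Adj x y}

omit [G.LocallyFinite] in
/-- amenability -/
def Amenable : Prop := ∃ F : ℕ → Finset V, (∀ n, (F n).Nonempty) ∧
  Tendsto (fun n => ((vbd G (F n)).ncard : ℝ) / (F n).card) atTop (𝓝 0)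

end defs

section prelim

variable {V : Type*} {G : SimpleGraph V} [G.LocallyFinite]

lemma countable_of_conn (hc : G.Connected) : Countable V := by
  obtain ⟨o⟩ := hc.nonempty
  let S : ℕ → Set V := fun n => Nat.rec {o} (fun _ s => ⋃ v ∈ s, G.neighborSet v) n
  have hS : ∀ n, (S n).Countable := by
    intro n
    induction n with
    | zero => exact countable_singleton o
    | succ n ih =>
      show (⋃ v ∈ S n, G.neighborSet v).Countable
      exact ih.biUnion (fun v _ => (Set.toFinite (G.neighborSet v)).countable)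
  have huniv : (univ : Set V) ⊆ ⋃ n, S n := by
    intro v _
    obtain ⟨p⟩ := hc.preconnected o v
    have key : ∀ (u w : V) (q : G.Walk u w) (n : ℕ), u ∈ S n → w ∈ ⋃ n, S n := by
      intro u w q
      induction q with
      | nil => exact fun n hn => mem_iUnion.2 ⟨n, hn⟩
      | cons h _ ih =>
        intro n hn
        refine ih (n + 1) ?_
        show _ ∈ ⋃ v ∈ S n, G.neighborSet v
        exact mem_biUnion hn h
    exact key o v p 0 rfl
  have := (countable_iUnion hS).mono huniv
  exact countable_univ_iff.1 this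

lemma deg_iso (φ : G ≃g G) (x : V) : G.degree (φ x) = G.degree x := by
  have h1 : (G.neighborFinset x).map φ.toEquiv.toEmbedding = G.neighborFinset (φ x) := by
    ext y
    simp only [Finset.mem_map, SimpleGraph.mem_neighborFinset, Equiv.coe_toEmbedding]
    constructor
    · rintro ⟨z, hz, rfl⟩
      exact φ.map_adj_iff.2 hz
    · intro hy
      refine ⟨φ.symm y, ?_, by simp⟩
      rw [← φ.map_adj_iff]
      simpa using hy
  rw [← SimpleGraph.card_neighborFinset_eq_degree, ← SimpleGraph.card_neighborFinset_eq_degree,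
    ← h1, Finset.card_map]

lemma srwStep_iso (φ : G ≃g G) (x y : V) : srwStep G (φ x) (φ y) = srwStep G x y := by
  unfold srwStep
  rw [deg_iso]
  by_cases h : G.Adj x y
  · rw [if_pos h, if_pos (φ.map_adj_iff.2 h)]
  · rw [if_neg h, if_neg (fun h' => h (φ.map_adj_iff.1 h'))]

lemma srwStep_fin (x : V) : {y | srwStep G x y ≠ 0}.Finite := by
  refine (Set.toFinite (G.neighborSet x)).subset ?_
  intro y hy
  by_contra h
  exact hy (if_neg h)

lemma srwStep_sum_le (x : V) : ∑' y, srwStep G x y ≤ 1 := by
  rw [tsum_eq_sum (s := G.neighborFinset x)]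
  · calc ∑ y ∈ G.neighborFinset x, srwStep G x y
        = ∑ y ∈ G.neighborFinset x, (G.degree x : ℝ≥0∞)⁻¹ := by
          refine Finset.sum_congr rfl (fun y hy => ?_)
          rw [SimpleGraph.mem_neighborFinset] at hy
          exact if_pos hy
      _ = (G.degree x : ℝ≥0∞) * (G.degree x : ℝ≥0∞)⁻¹ := by
          rw [Finset.sum_const, nsmul_eq_mul, SimpleGraph.card_neighborFinset_eq_degree]
      _ ≤ 1 := ENNReal.mul_inv_le_one _
  · intro y hy
    rw [SimpleGraph.mem_neighborFinset] at hy
    exact if_neg hy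

variable [MeasurableSpace V] [MeasurableSingletonClass V] [Countable V]

lemma start_of_srw {x : V} {μ : Measure (ℕ → V)} (h : IsSRW G x μ) : μ {X | X 0 = x}ᶜ = 0 := by
  have := h.prob
  have h1 := h.cylinder 0 (fun _ => x)
  rw [if_pos rfl, Finset.prod_range_zero] at h1
  have h2 : {X : ℕ → V | ∀ i ≤ 0, X i = x} = {X | X 0 = x} := by
    ext X
    simp
  rw [h2] at h1
  rwa [← prob_compl_eq_zero_iff (Chain.meas_pt 0 x)] at h1

lemma step_of_srw (m : V → Measure (ℕ → V)) (hm : ∀ x, IsSRW G x (m x)) (x : V)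
    (A : Set (ℕ → V)) (hA : MeasurableSet A) :
    m x {X | (fun n => X (n + 1)) ∈ A} = ∑' z, srwStep G x z * m z A := by
  classical
  have hp := fun x => (hm x).prob
  have hsh : Measurable (fun (X : ℕ → V) n => X (n + 1)) := by fun_prop
  have key : (m x).map (fun (X : ℕ → V) n => X (n + 1)) =
      Measure.sum (fun z => srwStep G x z • m z) := by
    have i1 : IsProbabilityMeasure ((m x).map (fun (X : ℕ → V) n => X (n + 1))) :=
      Measure.isProbabilityMeasure_map hsh.aemeasurable
    have i2 : IsFiniteMeasure (Measure.sum (fun z => srwStep G x z • m z)) := by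
      refine ⟨?_⟩
      rw [Measure.sum_apply _ MeasurableSet.univ]
      simp only [Measure.smul_apply, measure_univ, smul_eq_mul, mul_one]
      exact lt_of_le_of_lt (srwStep_sum_le x) ENNReal.one_lt_top
    apply ext_cyl
    intro n w
    rw [Measure.map_apply hsh (meas_cyl n w), Measure.sum_apply _ (meas_cyl n w)]
    have h1 : m x ((fun (X : ℕ → V) n => X (n + 1)) ⁻¹' cyl n w) =
        m x {X | ∀ i ≤ n + 1, X i = (fun i => if i = 0 then x else w (i - 1)) i} := by
      apply measure_congr
      have h0 : ∀ᵐ X ∂(m x), X 0 = x := by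
        rw [ae_iff]
        exact start_of_srw (hm x)
      filter_upwards [h0] with X hX
      apply propext
      constructor
      · intro h i hi
        cases i with
        | zero => simpa using hX
        | succ i =>
          simp only [Nat.add_eq_zero_iff, one_ne_zero, and_false, if_false, Nat.add_sub_cancel]
          exact h i (by omega)
      · intro h i hi
        have := h (i + 1) (by omega)
        simpa using this
    rw [h1, (hm x).cylinder, if_pos (by simp), Finset.prod_range_succ']
    simp only [Nat.add_eq_zero_iff, one_ne_zero, and_false, if_false, Nat.add_sub_cancel,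
      if_true, Measure.smul_apply, smul_eq_mul, Nat.sub_self, zero_add]
    have h2 : ∀ z, m z (cyl n w) = if w 0 = z then
        ∏ i ∈ Finset.range n, srwStep G (w i) (w (i + 1)) else 0 := fun z => (hm z).cylinder n w
    simp_rw [h2]
    rw [tsum_eq_single (w 0)]
    · rw [if_pos rfl, mul_comm]
    · intro z hz
      rw [if_neg (fun h => hz h.symm), mul_zero]
  have h3 : (m x).map (fun (X : ℕ → V) n => X (n + 1)) A =
      Measure.sum (fun z => srwStep G x z • m z) A := by rw [key]
  rw [Measure.map_apply hsh hA, Measure.sum_apply _ hA] at h3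
  exact h3

/-- the chain of the simple random walk -/
noncomputable def srwChain (htr : ∀ x y : V, ∃ φ : G ≃g G, φ x = y) (m : V → Measure (ℕ → V))
    (hm : ∀ x, IsSRW G x (m x)) : Chain V where
  p := srwStep G
  mu := m
  prob := fun x => (hm x).prob
  start := fun x => start_of_srw (hm x)
  step := step_of_srw m hm
  symm := by
    intro x y
    obtain ⟨φ, rfl⟩ := htr x y
    unfold srwStep
    by_cases h : G.Adj x (φ x)
    · rw [if_pos h, if_pos h.symm, deg_iso]
    · rw [if_neg h, if_neg (fun h' => h h'.symm)]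
  fin := srwStep_fin

variable (htr : ∀ x y : V, ∃ φ : G ≃g G, φ x = y) (m : V → Measure (ℕ → V))
    (hm : ∀ x, IsSRW G x (m x))

lemma srw_Trans : (srwChain htr m hm).Trans := by
  intro x y
  obtain ⟨φ, rfl⟩ := htr x y
  exact ⟨⟨φ.toEquiv, fun x y => srwStep_iso φ x y⟩, rfl⟩

lemma step_pos {x y : V} (h : G.Adj x y) : srwStep G x y ≠ 0 := by
  unfold srwStep
  rw [if_pos h]
  exact ENNReal.inv_ne_zero.2 (ENNReal.natCast_ne_top _)

lemma adj_of_step {x y : V} (h : srwStep G x y ≠ 0) : G.Adj x y := by
  by_contra h'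
  exact h (if_neg h')

lemma pk_cons (C : Chain V) {x z y : V} {k : ℕ} (h1 : C.p x z ≠ 0) (h2 : C.pk k z y ≠ 0) :
    C.pk (k + 1) x y ≠ 0 := by
  rw [C.pk_succ]
  intro h0
  rw [ENNReal.tsum_eq_zero] at h0
  rcases mul_eq_zero.1 (h0 z) with h | h
  · exact h1 h
  · exact h2 h

lemma srw_Irr (hc : G.Connected) : (srwChain htr m hm).Irr := by
  intro x y
  obtain ⟨p⟩ := hc.preconnected x y
  induction p with
  | nil => exact ⟨0, by rw [Chain.pk_zero, if_pos rfl]; exact one_ne_zero⟩
  | cons h _ ih =>
    obtain ⟨n, hn⟩ := ih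
    exact ⟨n + 1, pk_cons _ (step_pos h) hn⟩

lemma cross (F : Finset V) (k : ℕ) : ∀ x y, x ∈ F → y ∉ F → (srwChain htr m hm).pk k x y ≠ 0 →
    ∃ v ∈ vbd G F, (srwChain htr m hm).near k x v := by
  induction k with
  | zero =>
    intro x y hx hy h
    rw [Chain.pk_zero] at h
    by_cases hxy : x = y
    · exact absurd (hxy ▸ hx) hy
    · exact absurd (if_neg hxy) h
  | succ k ih =>
    intro x y hx hy h
    rw [Chain.pk_succ] at h
    obtain ⟨z, hz⟩ : ∃ z, (srwChain htr m hm).p x z * (srwChain htr m hm).pk k z y ≠ 0 := by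
      by_contra hcon
      push Not at hcon
      exact h (ENNReal.tsum_eq_zero.2 hcon)
    have hz1 := left_ne_zero_of_mul hz
    have hz2 := right_ne_zero_of_mul hz
    by_cases hzF : z ∈ F
    · obtain ⟨v, hv, j, hj, hvj⟩ := ih z y hzF hy hz2
      exact ⟨v, hv, j + 1, by omega, pk_cons _ hz1 hvj⟩
    · refine ⟨z, ⟨hzF, x, hx, adj_of_step hz1⟩, 1, by omega, ?_⟩
      rw [Chain.pk_one]
      exact hz1

omit [MeasurableSpace V] [MeasurableSingletonClass V] [Countable V] in
lemma vbd_fin (F : Finset V) : (vbd G F).Finite := by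
  refine (Set.Finite.biUnion (s := (F : Set V)) (Finset.finite_toSet F)
    (t := fun x => G.neighborSet x) (fun x _ => Set.toFinite (G.neighborSet x))).subset ?_
  rintro y ⟨_, x, hx, h⟩
  exact mem_biUnion (Finset.mem_coe.2 hx) h

lemma srw_Amen (ham : Amenable G) : (srwChain htr m hm).Amen := by
  classical
  intro r δ hδ
  set C := srwChain htr m hm with hC
  obtain ⟨F, hne, hF⟩ := ham
  obtain ⟨o, ho⟩ := hne 0
  set B : V → Finset V := fun x => (C.near_fin r x).toFinset with hB
  set M := (B o).card with hM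
  have hBM : ∀ x, (B x).card = M := by
    intro x
    obtain ⟨φ, hφ⟩ := srw_Trans htr m hm o x
    have : B x = (B o).map φ.f.toEmbedding := by
      ext y
      simp only [hB, Set.Finite.mem_toFinset, mem_ofPred_eq, Finset.mem_map,
        Equiv.coe_toEmbedding]
      constructor
      · intro h
        refine ⟨φ.f.symm y, ?_, by simp⟩
        rw [← φ.near_iff, hφ]
        simpa using h
      · rintro ⟨z, hz, rfl⟩
        rw [← hφ, φ.near_iff]
        exact hz
    rw [this, Finset.card_map]
  have hδ' : (0 : ℝ) < δ := hδ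
  have hε : (0 : ℝ) < δ / ((1 + δ) * (M + 1)) := by positivity
  obtain ⟨n, hn⟩ := (hF.eventually (gt_mem_nhds hε)).exists
  refine ⟨F n, hne n, ?_⟩
  have hcard : (0 : ℝ) < (F n).card := by exact_mod_cast Finset.card_pos.2 (hne n)
  have hsub : F n \ C.deep r (F n) ⊆ (vbd_fin (G := G) (F n)).toFinset.biUnion B := by
    intro x hx
    rw [Finset.mem_sdiff] at hx
    obtain ⟨hx1, hx2⟩ := hx
    have : ∃ y, C.near r x y ∧ y ∉ F n := by
      by_contra hcon
      push Not at hcon
      exact hx2 (Finset.mem_filter.2 ⟨hx1, hcon⟩)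
    obtain ⟨y, ⟨k, hk, hky⟩, hy⟩ := this
    obtain ⟨v, hv, hvn⟩ := cross htr m hm (F n) k x y hx1 hy hky
    rw [Finset.mem_biUnion]
    refine ⟨v, (Set.Finite.mem_toFinset _).2 hv, ?_⟩
    rw [hB, Set.Finite.mem_toFinset]
    exact C.near_mono hk (C.near_symm hvn)
  have h1 : (F n).card ≤ (C.deep r (F n)).card + (vbd G (F n)).ncard * M := by
    have h2 : (F n).card = (C.deep r (F n)).card + (F n \ C.deep r (F n)).card := by
      rw [add_comm]
      exact (Finset.card_sdiff_add_card_eq_card (Finset.filter_subset _ _)).symm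
    have h3 : (F n \ C.deep r (F n)).card ≤ (vbd G (F n)).ncard * M := by
      refine (Finset.card_le_card hsub).trans (Finset.card_biUnion_le.trans ?_)
      rw [Finset.sum_congr rfl (fun v _ => hBM v), Finset.sum_const, smul_eq_mul,
        Set.ncard_eq_toFinset_card _ (vbd_fin (G := G) (F n))]
    omega
  have h4 : ((vbd G (F n)).ncard : ℝ) < δ / ((1 + δ) * (M + 1)) * (F n).card := by
    rwa [div_lt_iff₀ hcard] at hn
  have h5 : ((F n).card : ℝ) ≤ (1 + δ) * (C.deep r (F n)).card := by
    have h6 : ((F n).card : ℝ) ≤ (C.deep r (F n)).card + (vbd G (F n)).ncard * M := by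
      exact_mod_cast h1
    have h7 : ((vbd G (F n)).ncard : ℝ) * M ≤ δ / (1 + δ) * (F n).card := by
      calc ((vbd G (F n)).ncard : ℝ) * M ≤ (δ / ((1 + δ) * (M + 1)) * (F n).card) * (M + 1) := by
            gcongr
            linarith
        _ = _ := by field_simp
    have h8 : ((F n).card : ℝ) * (1 + δ) ≤ (1 + δ) * (C.deep r (F n)).card + δ * (F n).card := by
      have h9 : (1 + (δ : ℝ)) * (δ / (1 + δ) * (F n).card) = δ * (F n).card := by field_simp
      nlinarith
    linarith
  have h6 : ((F n).card : ℝ≥0) ≤ (1 + δ) * ((C.deep r (F n)).card : ℝ≥0) := by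
    rw [← NNReal.coe_le_coe]
    push_cast
    exact h5
  have h7 := ENNReal.coe_le_coe.2 h6
  push_cast at h7
  exact h7

end prelim

end Pool.Agent.Q298.Frog
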