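import Pool.Agent.Q298.Frog.Conc

set_option autoImplicit false
set_option linter.unusedSectionVars false
open MeasureTheory Set Filter ProbabilityTheory
open scoped ENNReal NNReal Topology

namespace Pool.Agent.Q298.Frog

variable {V : Type*} [MeasurableSpace V] [MeasurableSingletonClass V] [Countable V]

namespace Chain

variable (C : Chain V)

/-- expected number of hits of `y` from the points whose backward cluster is recurrent for the
path -/
noncomputable def HH (y : V) (q : Tri V) : ℝ≥0∞ :=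
  ∑' w, ((Fn w)ᶜ : Set (Tri V)).indicator (fun _ => C.hit w y) q

noncomputable def AN (K R N : ℕ) (x : V) (q : Tri V) : ℝ≥0∞ :=
  ∑ w ∈ C.sup N x, ({q | w ∈ C.clq K R q.1.1} : Set (Tri V)).indicator (fun _ => C.gr N x w) q

noncomputable def AF (K R N : ℕ) (x : V) (q : Tri V) : ℝ≥0∞ :=
  ∑ w ∈ C.sup N x, (C.Fw K R w).indicator (fun _ => C.gr N x w) q

variable {C}

lemma meas_HH (y : V) : Measurable (C.HH y) := by
  unfold HH
  exact Measurable.ennreal_tsum (fun w => measurable_const.indicator (meas_Fn w).compl)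

lemma meas_AN (K R N : ℕ) (x : V) : Measurable (C.AN K R N x) := by
  unfold AN
  exact Finset.measurable_sum _ (fun w _ => measurable_const.indicator (meas_inI K R w))

lemma meas_AF (K R N : ℕ) (x : V) : Measurable (C.AF K R N x) := by
  unfold AF
  exact Finset.measurable_sum _ (fun w _ => measurable_const.indicator (meas_Fw K R w))

/-- pointwise inequality -/
lemma pointwise (K R N m : ℕ) (x y : V) (q : Tri V) :
    C.pk m x y * C.AN K R N x q ≤ C.HH y q * C.gr (N + m) y y + C.pk m x y * C.AF K R N x q := by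
  classical
  have h1 : C.AN K R N x q ≤ ∑ w ∈ C.sup N x, ((Fn w)ᶜ : Set (Tri V)).indicator
      (fun _ => C.gr N x w) q + C.AF K R N x q := by
    unfold AN AF
    rw [← Finset.sum_add_distrib]
    refine Finset.sum_le_sum (fun w _ => ?_)
    by_cases hI : q ∈ ({q | w ∈ C.clq K R q.1.1} : Set (Tri V))
    · rw [indicator_of_mem hI]
      by_cases hF : q ∈ (Fn w : Set (Tri V))
      · rw [indicator_of_mem (show q ∈ C.Fw K R w from ⟨hI, hF⟩)]
        exact le_add_self
      · rw [indicator_of_mem (show q ∈ (Fn w)ᶜ from hF)]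
        exact le_self_add
    · rw [indicator_of_notMem hI]
      exact bot_le
  have h2 : C.pk m x y * ∑ w ∈ C.sup N x, ((Fn w)ᶜ : Set (Tri V)).indicator
      (fun _ => C.gr N x w) q ≤ C.HH y q * C.gr (N + m) y y := by
    unfold HH
    rw [← ENNReal.tsum_mul_right, Finset.mul_sum]
    refine le_trans ?_ (ENNReal.sum_le_tsum (C.sup N x))
    refine Finset.sum_le_sum (fun w _ => ?_)
    by_cases hF : q ∈ ((Fn w)ᶜ : Set (Tri V))
    · rw [indicator_of_mem hF, indicator_of_mem hF, gr_symm, mul_comm]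
      exact (C.gr_shift N m w x y).trans (C.gr_le (N + m) y w)
    · rw [indicator_of_notMem hF, mul_zero]
      exact bot_le
  calc C.pk m x y * C.AN K R N x q ≤ C.pk m x y * (∑ w ∈ C.sup N x,
        ((Fn w)ᶜ : Set (Tri V)).indicator (fun _ => C.gr N x w) q + C.AF K R N x q) := by gcongr
    _ = C.pk m x y * ∑ w ∈ C.sup N x, ((Fn w)ᶜ : Set (Tri V)).indicator
        (fun _ => C.gr N x w) q + C.pk m x y * C.AF K R N x q := mul_add _ _ _
    _ ≤ _ := by gcongr

/-- mean of the bad part -/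
lemma mean_AF (htr : C.Trans) (ham : C.Amen) (K R N : ℕ) (l1 l2 : ℝ≥0) (x : V) :
    ∫⁻ q, C.AF K R N x q ∂(C.P3 l1 l2 x) ≤ N * C.P3 l1 l2 x (C.Fw K R x) := by
  unfold AF
  rw [lintegral_finsetSum _ (fun w _ => measurable_const.indicator (meas_Fw K R w))]
  calc ∑ w ∈ C.sup N x, ∫⁻ q, (C.Fw K R w).indicator (fun _ => C.gr N x w) q ∂(C.P3 l1 l2 x)
      = ∑ w ∈ C.sup N x, ∑ k ∈ Finset.range N, C.pk k x w * C.P3 l1 l2 x (C.Fw K R w) := by
        refine Finset.sum_congr rfl (fun w _ => ?_)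
        rw [lintegral_indicator_const (meas_Fw K R w), gr, Finset.sum_mul]
    _ = ∑ k ∈ Finset.range N, ∑ w ∈ C.sup N x, C.pk k x w * C.P3 l1 l2 x (C.Fw K R w) :=
        Finset.sum_comm
    _ ≤ ∑ k ∈ Finset.range N, C.P3 l1 l2 x (C.Fw K R x) := by
        refine Finset.sum_le_sum (fun k _ => ?_)
        exact (ENNReal.sum_le_tsum _).trans (mass htr ham K R k l1 l2 x)
    _ = _ := by rw [Finset.sum_const, Finset.card_range, nsmul_eq_mul]

lemma AN_toReal (K R N : ℕ) (x : V) (q : Tri V) : (C.AN K R N x q).toReal =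
    ∑ w ∈ C.sup N x, (C.gr N x w).toReal *
      ({r | w ∈ C.clq K R r} : Set (Rel V)).indicator 1 q.1.1 := by
  classical
  unfold AN
  rw [ENNReal.toReal_sum]
  · refine Finset.sum_congr rfl (fun w _ => ?_)
    by_cases hI : w ∈ C.clq K R q.1.1
    · rw [indicator_of_mem (show q ∈ ({q | w ∈ C.clq K R q.1.1} : Set (Tri V)) from hI),
        indicator_of_mem (show q.1.1 ∈ ({r | w ∈ C.clq K R r} : Set (Rel V)) from hI)]
      simp
    · rw [indicator_of_notMem (show q ∉ ({q | w ∈ C.clq K R q.1.1} : Set (Tri V)) from hI),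
        indicator_of_notMem (show q.1.1 ∉ ({r | w ∈ C.clq K R r} : Set (Rel V)) from hI)]
      simp
  · intro w _
    by_cases hI : q ∈ ({q | w ∈ C.clq K R q.1.1} : Set (Tri V))
    · rw [indicator_of_mem hI]; exact gr_ne_top N x w
    · rw [indicator_of_notMem hI]; exact ENNReal.zero_ne_top

lemma AN_ne_top (K R N : ℕ) (x : V) (q : Tri V) : C.AN K R N x q ≠ ∞ := by
  unfold AN
  refine ENNReal.sum_ne_top.2 (fun w _ => ?_)
  by_cases hI : q ∈ ({q | w ∈ C.clq K R q.1.1} : Set (Tri V))
  · rw [indicator_of_mem hI]; exact gr_ne_top N x w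
  · rw [indicator_of_notMem hI]; exact ENNReal.zero_ne_top

/-- the key almost sure statement -/
theorem HH_top (htr : C.Trans) (hi : C.Irr) (ham : C.Amen) [Infinite V] (l1 l2 : ℝ≥0)
    (h1 : 0 < l1) (h2 : 0 < l2) (x y : V) (M : ℕ) :
    C.P3 l1 l2 x {q | C.HH y q ≤ M} = 0 := by
  classical
  obtain ⟨m, hm⟩ := hi x y
  set p0 := C.pk m x y with hp0
  have hp0t : p0 ≠ ∞ := pk_ne_top m x y
  -- main estimate for all K and ε
  have main : ∀ (K : ℕ) (ε : ℝ≥0), 0 < K → 0 < ε →
      C.P3 l1 l2 x {q | C.HH y q ≤ M} ≤ ε + 8 / (l2 * K) := by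
    intro K ε hK hε
    obtain ⟨R, hR⟩ := C.clq_pos hi l1 h1 K x
    set ιe := C.Q l1 {r | x ∈ C.clq K R r} with hιe
    have hιt : ιe ≠ ∞ := measure_ne_top _ _
    set ι := ιe.toReal with hι
    have hιpos : 0 < ι := ENNReal.toReal_pos hR hιt
    have hp0pos : 0 < p0.toReal := ENNReal.toReal_pos hm hp0t
    obtain ⟨N₁, hN₁⟩ := conc htr hi K R l1 x x hR ε hε
    set δ : ℝ := p0.toReal * ι / (8 * (M + 1)) with hδ
    have hδpos : 0 < δ := by positivity
    obtain ⟨N₂, hN₂⟩ := gr_small htr hi δ hδpos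
    set N := max (max N₁ N₂) (m + 1) with hN
    have hNN₁ : N₁ ≤ N := (le_max_left _ _).trans (le_max_left _ _)
    have hNN₂ : N₂ ≤ N := (le_max_right _ _).trans (le_max_left _ _)
    have hNm : m + 1 ≤ N := le_max_right _ _
    have hNpos : (0 : ℝ) < N := by exact_mod_cast (by omega : 0 < N)
    have hG : (C.gr (N + m) y y).toReal ≤ δ * (2 * N) := by
      refine (hN₂ (N + m) (by omega) y y).trans ?_
      gcongr
      push_cast
      have : (m : ℝ) ≤ N := by exact_mod_cast (by omega : m ≤ N)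
      linarith
    have hsub : {q | C.HH y q ≤ M} ⊆ {q | (C.AN K R N x q).toReal < ι * N / 2} ∪
        {q | ENNReal.ofReal (ι * N / 4) ≤ C.AF K R N x q} := by
      intro q hq
      by_contra hcon
      rw [mem_union, not_or] at hcon
      have c1 : ι * N / 2 ≤ (C.AN K R N x q).toReal := not_lt.1 hcon.1
      have c2 : C.AF K R N x q < ENNReal.ofReal (ι * N / 4) := not_le.1 hcon.2
      have hAFt : C.AF K R N x q ≠ ∞ := ne_top_of_lt c2
      have hp := pointwise (C := C) K R N m x y q
      have hq' : C.HH y q ≤ M := hq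
      have hp2 : p0 * C.AN K R N x q ≤ M * C.gr (N + m) y y + p0 * C.AF K R N x q := by
        refine hp.trans ?_
        gcongr
      have hp3 := ENNReal.toReal_mono (ENNReal.add_ne_top.2 ⟨ENNReal.mul_ne_top
        (ENNReal.natCast_ne_top _) (gr_ne_top _ _ _), ENNReal.mul_ne_top hp0t hAFt⟩) hp2
      rw [ENNReal.toReal_mul, ENNReal.toReal_add (ENNReal.mul_ne_top
        (ENNReal.natCast_ne_top _) (gr_ne_top _ _ _)) (ENNReal.mul_ne_top hp0t hAFt),
        ENNReal.toReal_mul, ENNReal.toReal_mul, ENNReal.toReal_natCast] at hp3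
      have c3 : (C.AF K R N x q).toReal < ι * N / 4 := by
        rw [← ENNReal.toReal_ofReal (show (0 : ℝ) ≤ ι * N / 4 by positivity)]
        exact (ENNReal.toReal_lt_toReal hAFt ENNReal.ofReal_ne_top).2 c2
      have c4 : (M : ℝ) * (C.gr (N + m) y y).toReal ≤ p0.toReal * (ι * N / 4) := by
        calc (M : ℝ) * (C.gr (N + m) y y).toReal ≤ M * (δ * (2 * N)) := by gcongr
          _ = (M / (M + 1)) * (p0.toReal * (ι * N / 4)) := by
              rw [hδ]; field_simp; ring
          _ ≤ 1 * (p0.toReal * (ι * N / 4)) := by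
              gcongr
              rw [div_le_one (by positivity)]
              linarith
          _ = _ := one_mul _
      have c5 : p0.toReal * (ι * N / 2) ≤ p0.toReal * (C.AN K R N x q).toReal := by gcongr
      have c6 : p0.toReal * (C.AF K R N x q).toReal < p0.toReal * (ι * N / 4) := by gcongr
      have c7 : p0.toReal * (ι * N / 2) = p0.toReal * (ι * N / 4) + p0.toReal * (ι * N / 4) := by ring
      linarith
    refine (measure_mono hsub).trans ((measure_union_le _ _).trans ?_)
    gcongr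
    · -- concentration
      have e1 : {q : Tri V | (C.AN K R N x q).toReal < ι * N / 2} =
          (Prod.fst ⁻¹' (Prod.fst ⁻¹' {r | ∑ w ∈ C.sup N x, (C.gr N x w).toReal *
            ({r | w ∈ C.clq K R r} : Set (Rel V)).indicator 1 r < ι * N / 2})) := by
        ext q
        simp only [mem_ofPred_eq, mem_preimage, AN_toReal]
      have hms : MeasurableSet {r : Rel V | ∑ w ∈ C.sup N x, (C.gr N x w).toReal *
            ({r | w ∈ C.clq K R r} : Set (Rel V)).indicator 1 r < ι * N / 2} := by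
        refine measurableSet_lt (Finset.measurable_sum _ (fun w _ => ?_)) measurable_const
        exact (measurable_one.indicator (C.meas_clq K R w)).const_mul _
      have hfst : ∀ S : Set (Rel V), MeasurableSet S →
          C.P3 l1 l2 x (Prod.fst ⁻¹' (Prod.fst ⁻¹' S)) = C.Q l1 S := by
        intro S hS
        have : (Prod.fst ⁻¹' (Prod.fst ⁻¹' S) : Set (Tri V)) = (S ×ˢ univ) ×ˢ univ := by
          ext q; simp
        rw [this, P3, Measure.prod_prod, Measure.prod_prod]
        simp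
      rw [e1, hfst _ hms]
      exact hN₁ N hNN₁
    · -- Markov
      have hmk := mul_meas_ge_le_lintegral (μ := C.P3 l1 l2 x) (meas_AF (C := C) K R N x)
        (ENNReal.ofReal (ι * N / 4))
      have hmean := mean_AF htr ham K R N l1 l2 x
      have hdiag := diag_le htr ham K R l1 l2 x
      rw [← hιe] at hdiag
      set pr := C.P3 l1 l2 x {q | ENNReal.ofReal (ι * N / 4) ≤ C.AF K R N x q} with hpr
      have hl2K0 : (l2 * K : ℝ≥0∞) ≠ 0 := mul_ne_zero (by exact_mod_cast h2.ne')
        (by exact_mod_cast hK.ne')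
      have hl2Kt : (l2 * K : ℝ≥0∞) ≠ ∞ := ENNReal.mul_ne_top ENNReal.coe_ne_top
        (ENNReal.natCast_ne_top _)
      rw [ENNReal.le_div_iff_mul_le (Or.inl hl2K0) (Or.inl hl2Kt)]
      have e3 : ENNReal.ofReal (ι * N / 4) = ιe * N / 4 := by
        rw [ENNReal.ofReal_div_of_pos (by norm_num), ENNReal.ofReal_mul hιpos.le, hι,
          ENNReal.ofReal_toReal hιt, ENNReal.ofReal_natCast]
        norm_num
      have h5 : (ιe * N / 4) * pr * (l2 * K) ≤ N * (2 * ιe) := by
        calc (ιe * N / 4) * pr * (l2 * K) ≤ (N * C.P3 l1 l2 x (C.Fw K R x)) * (l2 * K) := by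
              rw [← e3]
              exact mul_le_mul' (hmk.trans hmean) le_rfl
          _ = N * ((l2 * K) * C.P3 l1 l2 x (C.Fw K R x)) := by ring
          _ ≤ _ := mul_le_mul' le_rfl hdiag
      have h6 : (ιe * N) * (pr * (l2 * K)) ≤ (ιe * N) * 8 := by
        calc (ιe * N) * (pr * (l2 * K)) = 4 * ((ιe * N / 4) * pr * (l2 * K)) := by
              rw [ENNReal.div_eq_inv_mul]
              have : (4 : ℝ≥0∞) * 4⁻¹ = 1 := ENNReal.mul_inv_cancel (by norm_num) (by norm_num)
              calc ιe * N * (pr * (l2 * K)) = 1 * (ιe * N * (pr * (l2 * K))) := (one_mul _).symm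
                _ = (4 * 4⁻¹) * (ιe * N * (pr * (l2 * K))) := by rw [this]
                _ = _ := by ring
          _ ≤ 4 * (N * (2 * ιe)) := by gcongr
          _ = _ := by ring
      have h7 : ιe * N ≠ 0 := mul_ne_zero hR (by
        have : 0 < N := by omega
        exact_mod_cast this.ne')
      have h8 : ιe * N ≠ ∞ := ENNReal.mul_ne_top hιt (ENNReal.natCast_ne_top _)
      exact (ENNReal.mul_le_mul_iff_right h7 h8).1 h6
  -- conclusion
  refine le_antisymm ?_ bot_le
  have hlim : ∀ ε : ℝ≥0, 0 < ε → C.P3 l1 l2 x {q | C.HH y q ≤ M} ≤ 0 + ε := by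
    intro ε hε
    rw [zero_add]
    obtain ⟨K, hK⟩ := exists_nat_gt (16 / (l2 * ε) : ℝ≥0)
    have hKpos : 0 < K := by
      rcases Nat.eq_zero_or_pos K with h0 | h0
      · rw [h0, Nat.cast_zero] at hK
        exact absurd hK (not_lt.2 bot_le)
      · exact h0
    refine (main K (ε / 2) hKpos (half_pos hε)).trans ?_
    have h9 : (8 : ℝ≥0∞) / (l2 * K) ≤ ((ε / 2 : ℝ≥0) : ℝ≥0∞) := by
      have hK' : (0 : ℝ≥0) < K := by exact_mod_cast hKpos
      have e4 : (8 : ℝ≥0∞) / (l2 * K) = ((8 / (l2 * K) : ℝ≥0) : ℝ≥0∞) := by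
        rw [ENNReal.coe_div (mul_pos h2 hK').ne']
        push_cast
        rfl
      rw [e4, ENNReal.coe_le_coe, div_le_iff₀ (mul_pos h2 hK')]
      rw [div_lt_iff₀ (mul_pos h2 hε)] at hK
      rw [← NNReal.coe_le_coe]
      rw [← NNReal.coe_lt_coe] at hK
      push_cast at hK ⊢
      nlinarith
    calc ((ε / 2 : ℝ≥0) : ℝ≥0∞) + 8 / (l2 * K) ≤ ((ε / 2 : ℝ≥0) : ℝ≥0∞) + ((ε / 2 : ℝ≥0) : ℝ≥0∞) := by
          gcongr
      _ = ε := by
          rw [← ENNReal.coe_add, add_halves]
  exact ENNReal.le_of_forall_pos_le_add (fun ε hε _ => hlim ε hε)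

end Chain

end Pool.Agent.Q298.Frog
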