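import Pool.Agent.Q298.Frog.HInf

set_option autoImplicit false
set_option linter.unusedSectionVars false
open MeasureTheory Set Filter ProbabilityTheory
open scoped ENNReal NNReal Topology

namespace Pool.Agent.Q298.Frog

variable {V : Type*} [MeasurableSpace V] [MeasurableSingletonClass V] [Countable V]

namespace Chain

variable {C : Chain V}

lemma Q_nohit (l : ℝ≥0) (S : Finset V) (y : V) :
    C.Q l {r | ∀ w ∈ S, ¬ r (w, y)} =
      ENNReal.ofReal (Real.exp (-(l * ∑ w ∈ S, (C.hit w y).toReal))) := by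
  classical
  have h1 : {r : Rel V | ∀ w ∈ S, ¬ r (w, y)} = vd (S.image (fun w => (w, y))) := by
    ext r
    simp only [vd, mem_ofPred_eq, Finset.mem_image]
    constructor
    · rintro h _ ⟨w, hw, rfl⟩
      exact h w hw
    · intro h w hw
      exact h _ ⟨w, hw, rfl⟩
  rw [h1, Q_vd]
  congr 4
  unfold hs
  have h2 : (S.image (fun w => (w, y))).image Prod.fst = S := by
    rw [Finset.image_image]
    exact Finset.image_id
  rw [h2]
  refine Finset.sum_congr rfl (fun w hw => ?_)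
  unfold hit
  congr 2
  ext X
  simp only [mem_ofPred_eq, Finset.mem_image, Prod.mk.injEq]
  refine exists_congr (fun n => ?_)
  constructor
  · rintro ⟨w', _, _, h⟩
    exact h.symm
  · intro h
    exact ⟨w, hw, rfl, h.symm⟩

lemma meas_miss (y : V) : MeasurableSet {p : Rel V × (ℕ → V) | ∀ n, ¬ dre p.1 (p.2 n) y} := by
  have : {p : Rel V × (ℕ → V) | ∀ n, ¬ dre p.1 (p.2 n) y} =
      ⋂ n, {p : Rel V × (ℕ → V) | dre p.1 (p.2 n) y}ᶜ := by
    ext p; simp
  rw [this]
  refine MeasurableSet.iInter (fun n => MeasurableSet.compl ?_)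
  exact meas_at (fun p : Rel V × (ℕ → V) => p.2 n) ((measurable_pi_apply n).comp measurable_snd)
    (fun v => {p | dre p.1 v y}) (fun v => measurable_fst (meas_dre v y))

/-- almost surely the third family finishes the job -/
theorem slice_zero (htr : C.Trans) (hi : C.Irr) (ham : C.Amen) [Infinite V] (l1 l2 l3 : ℝ≥0)
    (h1 : 0 < l1) (h2 : 0 < l2) (h3 : 0 < l3) (x y : V) :
    ∀ᵐ q ∂(C.P3 l1 l2 x),
      C.Q l3 {r | ∀ n, ¬ dre (jn (jn q.1.1 q.1.2) r) (q.2 n) y} = 0 := by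
  have hH : ∀ᵐ q ∂(C.P3 l1 l2 x), ∀ M : ℕ, ¬ C.HH y q ≤ M := by
    rw [ae_all_iff]
    intro M
    rw [ae_iff]
    simpa using HH_top htr hi ham l1 l2 h1 h2 x y M
  filter_upwards [hH] with q hq
  -- bound by exponentials
  have key : ∀ S : Finset V, (∀ w ∈ S, q ∉ (Fn w : Set (Tri V))) →
      C.Q l3 {r | ∀ n, ¬ dre (jn (jn q.1.1 q.1.2) r) (q.2 n) y} ≤
        ENNReal.ofReal (Real.exp (-(l3 * ∑ w ∈ S, (C.hit w y).toReal))) := by
    intro S hS
    rw [← Q_nohit]
    refine measure_mono (fun r hr w hw hrw => ?_)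
    have hFn := hS w hw
    simp only [Fn, mem_ofPred_eq, not_exists, not_forall, not_not] at hFn
    obtain ⟨n, _, hn⟩ := hFn 0
    refine hr n ?_
    exact (dre_left hn).tail (Or.inr hrw)
  refine le_antisymm ?_ bot_le
  refine ENNReal.le_of_forall_pos_le_add (fun ε hε _ => ?_)
  rw [zero_add]
  -- choose M large
  obtain ⟨M, hM⟩ := exists_nat_gt (1 / (l3 * ε) : ℝ≥0)
  have hMq := hq M
  rw [not_le] at hMq
  unfold HH at hMq
  rw [ENNReal.tsum_eq_iSup_sum] at hMq
  obtain ⟨S, hS⟩ := lt_iSup_iff.1 hMq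
  classical
  set S' := S.filter (fun w => q ∉ (Fn w : Set (Tri V))) with hS'
  have hsum : (∑ w ∈ S, ((Fn w)ᶜ : Set (Tri V)).indicator (fun _ => C.hit w y) q) =
      ∑ w ∈ S', C.hit w y := by
    rw [hS', Finset.sum_filter]
    refine Finset.sum_congr rfl (fun w _ => ?_)
    by_cases hF : q ∈ (Fn w : Set (Tri V))
    · rw [indicator_of_notMem (by simpa using hF), if_neg (by simpa using hF)]
    · rw [indicator_of_mem hF, if_pos hF]
  rw [hsum] at hS
  have hht : ∀ w, C.hit w y ≠ ∞ := fun w => measure_ne_top _ _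
  have hS2 : (M : ℝ) < ∑ w ∈ S', (C.hit w y).toReal := by
    rw [← ENNReal.toReal_sum (fun w _ => hht w)]
    have := (ENNReal.toReal_lt_toReal (ENNReal.natCast_ne_top M)
      (ENNReal.sum_ne_top.2 (fun w _ => hht w))).2 hS
    simpa using this
  refine (key S' (fun w hw => (Finset.mem_filter.1 hw).2)).trans ?_
  have hM' : (1 : ℝ) / (l3 * ε) < M := by
    have := NNReal.coe_lt_coe.2 hM
    push_cast at this
    exact this
  have hl3 : (0 : ℝ) < l3 := h3
  have hε' : (0 : ℝ) < ε := hε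
  rw [← ENNReal.ofReal_coe_nnreal]
  refine ENNReal.ofReal_le_ofReal ?_
  set t : ℝ := l3 * ∑ w ∈ S', (C.hit w y).toReal with ht
  have ht1 : 1 / (ε : ℝ) < t := by
    rw [ht]
    calc 1 / (ε : ℝ) = l3 * (1 / (l3 * ε)) := by field_simp
      _ < l3 * M := by gcongr
      _ ≤ _ := by gcongr
  have ht0 : 0 < t := lt_trans (by positivity) ht1
  rw [Real.exp_neg]
  calc (Real.exp t)⁻¹ ≤ t⁻¹ := by
        apply inv_anti₀ ht0
        have := Real.add_one_le_exp t
        linarith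
    _ ≤ (1 / (ε : ℝ))⁻¹ := inv_anti₀ (by positivity) ht1.le
    _ = ε := by rw [one_div, inv_inv]

/-- the walk is absorbed by the backward cluster -/
theorem absorb (htr : C.Trans) (hi : C.Irr) (ham : C.Amen) [Infinite V] (l : ℝ≥0) (hl : 0 < l)
    (x y : V) : ((C.Q l).prod (C.mu x)) {p | ∀ n, ¬ dre p.1 (p.2 n) y} = 0 := by
  have hl3 : 0 < l / 3 := by positivity
  have hq2 : C.Q (l / 3 + l / 3) = ((C.Q (l / 3)).prod (C.Q (l / 3))).map (fun p => jn p.1 p.2) :=
    (C.Q_add (l / 3) (l / 3)).symm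
  have hq3 : C.Q l = (((C.Q (l / 3)).prod (C.Q (l / 3))).prod (C.Q (l / 3))).map
      (fun p => jn (jn p.1.1 p.1.2) p.2) := by
    have e1 : l = (l / 3 + l / 3) + l / 3 := by
      rw [← NNReal.coe_inj]; push_cast; ring
    have e2 : C.Q l = ((C.Q (l / 3 + l / 3)).prod (C.Q (l / 3))).map (fun p => jn p.1 p.2) := by
      conv_lhs => rw [e1]
      exact (C.Q_add (l / 3 + l / 3) (l / 3)).symm
    rw [e2, hq2]
    have e3 : (((C.Q (l / 3)).prod (C.Q (l / 3))).map (fun p => jn p.1 p.2)).prod (C.Q (l / 3)) =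
        (((C.Q (l / 3)).prod (C.Q (l / 3))).prod (C.Q (l / 3))).map
          (Prod.map (fun p : Rel V × Rel V => jn p.1 p.2) id) := by
      rw [← Measure.map_prod_map _ _ meas_jn measurable_id, Measure.map_id]
    rw [e3, Measure.map_map meas_jn (meas_jn.prodMap measurable_id)]
    rfl
  have hmj : Measurable (fun p : (Rel V × Rel V) × Rel V => jn (jn p.1.1 p.1.2) p.2) :=
    meas_jn.comp (meas_jn.prodMap measurable_id)
  rw [Measure.prod_apply_symm (meas_miss y)]
  have hmZ : MeasurableSet {z : Tri V × Rel V |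
      ∀ n, ¬ dre (jn (jn z.1.1.1 z.1.1.2) z.2) (z.1.2 n) y} := by
    have hf : Measurable (fun z : Tri V × Rel V =>
        (jn (jn z.1.1.1 z.1.1.2) z.2, z.1.2)) := by
      refine Measurable.prodMk ?_ (measurable_snd.comp measurable_fst)
      exact hmj.comp (Measurable.prodMk (measurable_fst.comp measurable_fst) measurable_snd)
    exact hf (meas_miss y)
  have h4 : ∀ X : ℕ → V, C.Q l ((fun r => (r, X)) ⁻¹' {p | ∀ n, ¬ dre p.1 (p.2 n) y}) =
      ∫⁻ a, C.Q (l / 3) {r | ∀ n, ¬ dre (jn (jn a.1 a.2) r) (X n) y}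
        ∂((C.Q (l / 3)).prod (C.Q (l / 3))) := by
    intro X
    have hm1 : MeasurableSet ((fun r : Rel V => (r, X)) ⁻¹' {p | ∀ n, ¬ dre p.1 (p.2 n) y}) :=
      (Measurable.prodMk measurable_id measurable_const) (meas_miss y)
    rw [hq3, Measure.map_apply hmj hm1, Measure.prod_apply (hmj hm1)]
    rfl
  simp_rw [h4]
  have hmf : Measurable (fun z : Tri V =>
      C.Q (l / 3) {r | ∀ n, ¬ dre (jn (jn z.1.1 z.1.2) r) (z.2 n) y}) :=
    measurable_measure_prodMk_left hmZ
  have h5 := lintegral_prod_symm (μ := (C.Q (l / 3)).prod (C.Q (l / 3))) (ν := C.mu x)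
    (fun z : Tri V => C.Q (l / 3) {r | ∀ n, ¬ dre (jn (jn z.1.1 z.1.2) r) (z.2 n) y})
    hmf.aemeasurable
  rw [← h5]
  rw [lintegral_eq_zero_iff hmf]
  exact slice_zero htr hi ham (l / 3) (l / 3) (l / 3) hl3 hl3 hl3 x y

/-- one particle -/
lemma map_particle (l : ℝ≥0) (o : V) (k : ℕ) :
    (C.frog l).map (fun ω => (ω o).2 k) = C.mu o := by
  have h1 : (fun ω : Cfg V => (ω o).2 k) =
      (fun W : ℕ → ℕ → V => W k) ∘ (Prod.snd ∘ (fun ω : Cfg V => ω o)) := rfl
  rw [h1, ← Measure.map_map (measurable_pi_apply k) (measurable_snd.comp (measurable_pi_apply o)),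
    ← Measure.map_map measurable_snd (measurable_pi_apply o), frog, Measure.infinitePi_map_eval,
    site, Measure.map_snd_prod, measure_univ, one_smul, Measure.infinitePi_map_eval]

/-- first half -/
lemma half (htr : C.Trans) (hi : C.Irr) (ham : C.Amen) [Infinite V] (a b : ℝ≥0)
    (hb : 0 < b) (o y : V) :
    ((C.Q a).prod (C.Q b)) {p | p.1 (o, o) ∧ ¬ dre (jn p.1 p.2) o y} = 0 := by
  have hm : MeasurableSet {p : Rel V × Rel V | p.1 (o, o) ∧ ¬ dre (jn p.1 p.2) o y} :=
    (measurable_fst (meas_prop (o, o))).inter (meas_jn (meas_dre o y)).compl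
  rw [Measure.prod_apply_symm hm]
  have h1 : ∀ s : Rel V, C.Q a ((fun r => (r, s)) ⁻¹'
      {p : Rel V × Rel V | p.1 (o, o) ∧ ¬ dre (jn p.1 p.2) o y}) ≤
      ∑' k : ℕ, C.mu o {X | ∀ n, ¬ dre s (X n) y} := by
    intro s
    have hm2 : MeasurableSet ((fun r : Rel V => (r, s)) ⁻¹'
        {p : Rel V × Rel V | p.1 (o, o) ∧ ¬ dre (jn p.1 p.2) o y}) :=
      (Measurable.prodMk measurable_id measurable_const) hm
    have hm3 : MeasurableSet {X : ℕ → V | ∀ n, ¬ dre s (X n) y} :=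
      (Measurable.prodMk measurable_const measurable_id) (meas_miss y)
    rw [Q, Measure.map_apply meas_rel hm2]
    have hsub : rel ⁻¹' ((fun r : Rel V => (r, s)) ⁻¹'
        {p : Rel V × Rel V | p.1 (o, o) ∧ ¬ dre (jn p.1 p.2) o y}) ⊆
        ⋃ k : ℕ, {ω : Cfg V | (ω o).2 k ∈ {X : ℕ → V | ∀ n, ¬ dre s (X n) y}} := by
      rintro ω ⟨⟨k, hk, _⟩, hω⟩
      rw [mem_iUnion]
      refine ⟨k, fun n hn => hω ?_⟩
      refine Relation.ReflTransGen.head (b := (ω o).2 k n) ?_ (dre_right hn)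
      exact Or.inl ⟨k, hk, n, rfl⟩
    refine (measure_mono hsub).trans ((measure_iUnion_le _).trans ?_)
    refine ENNReal.tsum_le_tsum (fun k => ?_)
    rw [← C.map_particle a o k, Measure.map_apply (by fun_prop) hm3]
    exact le_rfl
  have hm4 : Measurable (fun s : Rel V => C.mu o {X | ∀ n, ¬ dre s (X n) y}) :=
    measurable_measure_prodMk_left (meas_miss y)
  have h2 := absorb htr hi ham b hb o y
  rw [Measure.prod_apply (meas_miss y), lintegral_eq_zero_iff
    (measurable_measure_prodMk_left (meas_miss y))] at h2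
  have h3 : ∀ᵐ s ∂(C.Q b), C.mu o {X | ∀ n, ¬ dre s (X n) y} = 0 := h2
  refine le_antisymm ?_ bot_le
  refine (lintegral_mono h1).trans ?_
  rw [lintegral_congr_ae (g := fun _ => 0)]
  · simp
  · filter_upwards [h3] with s hs
    simp [hs]

/-- full theorem for relations -/
theorem rel_conn (htr : C.Trans) (hi : C.Irr) (ham : C.Amen) [Infinite V] (l : ℝ≥0)
    (hl : 0 < l) (o y : V) : C.Q l {r | r (o, o) ∧ ¬ dre r o y} = 0 := by
  have hl2 : 0 < l / 2 := by positivity
  have e1 : C.Q l = ((C.Q (l / 2)).prod (C.Q (l / 2))).map (fun p => jn p.1 p.2) := by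
    have e0 : l = l / 2 + l / 2 := (add_halves l).symm
    conv_lhs => rw [e0]
    exact (C.Q_add (l / 2) (l / 2)).symm
  have hm : MeasurableSet {r : Rel V | r (o, o) ∧ ¬ dre r o y} :=
    (meas_prop (o, o)).inter (meas_dre o y).compl
  rw [e1, Measure.map_apply meas_jn hm]
  have hsub : (fun p : Rel V × Rel V => jn p.1 p.2) ⁻¹' {r : Rel V | r (o, o) ∧ ¬ dre r o y} ⊆
      {p | p.1 (o, o) ∧ ¬ dre (jn p.1 p.2) o y} ∪
      Prod.swap ⁻¹' {p | p.1 (o, o) ∧ ¬ dre (jn p.1 p.2) o y} := by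
    rintro ⟨r, s⟩ ⟨h1, h2⟩
    rcases h1 with h1 | h1
    · exact Or.inl ⟨h1, h2⟩
    · refine Or.inr ⟨h1, fun h3 => h2 ?_⟩
      exact dre_mono (fun e he => he.symm) h3
  refine le_antisymm ((measure_mono hsub).trans ((measure_union_le _ _).trans ?_)) bot_le
  have hm2 : MeasurableSet {p : Rel V × Rel V | p.1 (o, o) ∧ ¬ dre (jn p.1 p.2) o y} :=
    (measurable_fst (meas_prop (o, o))).inter (meas_jn (meas_dre o y)).compl
  rw [half htr hi ham (l / 2) (l / 2) hl2 o y, zero_add, ← Measure.map_apply measurable_swap hm2,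
    Measure.prod_swap, half htr hi ham (l / 2) (l / 2) hl2 o y]

/-- full theorem for the frogs -/
theorem frog_conn (htr : C.Trans) (hi : C.Irr) (ham : C.Amen) [Infinite V] (l : ℝ≥0)
    (hl : 0 < l) (o : V) :
    ∀ᵐ ω ∂(C.frog l), 0 < (ω o).1 → ∀ y, dre (rel ω) o y := by
  have h1 : ∀ᵐ ω ∂(C.frog l), ∀ y, ¬ (rel ω (o, o) ∧ ¬ dre (rel ω) o y) := by
    rw [ae_all_iff]
    intro y
    rw [ae_iff]
    have := rel_conn htr hi ham l hl o y
    have hm : MeasurableSet {r : Rel V | r (o, o) ∧ ¬ dre r o y} :=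
      (meas_prop (o, o)).inter (meas_dre o y).compl
    rw [Q, Measure.map_apply meas_rel hm] at this
    simp only [not_not]
    exact this
  have h2 : ∀ᵐ ω ∂(C.frog l), (ω o).2 0 0 = o := by
    have h3 : ∀ᵐ X ∂(C.mu o), X 0 = o := by
      rw [ae_iff]
      exact C.start o
    rw [← C.map_particle l o 0] at h3
    have hm : Measurable (fun ω : Cfg V => (ω o).2 0) := by fun_prop
    exact ae_of_ae_map hm.aemeasurable h3
  filter_upwards [h1, h2] with ω hω hω2 hpos y
  by_contra hcon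
  exact hω y ⟨⟨0, hpos, 0, hω2⟩, hcon⟩

end Chain

end Pool.Agent.Q298.Frog
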