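import Pool.Agent.Q298.Frog.Diag

set_option autoImplicit false
set_option linter.unusedSectionVars false
open MeasureTheory Set Filter ProbabilityTheory
open scoped ENNReal NNReal Topology

namespace Pool.Agent.Q298.Frog

variable {V : Type*} [MeasurableSpace V] [MeasurableSingletonClass V] [Countable V]

namespace Chain

variable {C : Chain V}

lemma harm (K R k : ℕ) (l1 l2 : ℝ≥0) (w : V) :
    ∑' x, C.pk k w x * C.P3 l1 l2 x (C.Fw K R w) = C.P3 l1 l2 w (C.Fw K R w) := by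
  simp_rw [P3_slice l1 l2 _ (meas_Fw (C := C) K R w)]
  have hme : ∀ x, Measurable (fun p : Rel V × Rel V => C.mu x {X | (p, X) ∈ C.Fw K R w}) :=
    fun x => measurable_measure_prodMk_left (meas_Fw K R w)
  have h1 : ∀ x, C.pk k w x * ∫⁻ p, C.mu x {X | (p, X) ∈ C.Fw K R w} ∂((C.Q l1).prod (C.Q l2)) =
      ∫⁻ p, C.pk k w x * C.mu x {X | (p, X) ∈ C.Fw K R w} ∂((C.Q l1).prod (C.Q l2)) := by
    intro x
    rw [lintegral_const_mul _ (hme x)]
  simp_rw [h1]
  rw [← lintegral_tsum (fun x => ((hme x).const_mul _).aemeasurable)]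
  congr 1
  ext p
  symm
  have hms : MeasurableSet {X : ℕ → V | (p, X) ∈ C.Fw K R w} :=
    (measurable_prodMk_left : Measurable (Prod.mk p : (ℕ → V) → Tri V)) (meas_Fw K R w)
  refine C.inv_step _ hms (fun X => ?_) k w
  simp only [Fw, Fn, mem_inter_iff, mem_ofPred_eq]
  refine and_congr_right (fun _ => ?_)
  constructor
  · rintro ⟨N, hN⟩
    exact ⟨N, fun j hj => hN (j + 1) (by omega)⟩
  · rintro ⟨N, hN⟩
    refine ⟨N + 1, fun j hj => ?_⟩
    have := hN (j - 1) (by omega)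
    rwa [Nat.sub_add_cancel (by omega)] at this

lemma Sym.Fw_act (φ : C.Sym) (K R : ℕ) (w : V) (q : Tri V) :
    φ.tri q ∈ C.Fw K R (φ.f w) ↔ q ∈ C.Fw K R w := by
  simp only [Fw, Fn, mem_inter_iff, mem_ofPred_eq, Sym.tri, φ.clq_act, ← φ.jn_act, φ.dre_act]

theorem mass (htr : C.Trans) (ham : C.Amen) (K R k : ℕ) (l1 l2 : ℝ≥0) (x : V) :
    ∑' w, C.pk k x w * C.P3 l1 l2 x (C.Fw K R w) ≤ C.P3 l1 l2 x (C.Fw K R x) := by
  classical
  have hc1 : ∀ y, ∑' w, C.pk k y w * C.P3 l1 l2 y (C.Fw K R w) =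
      ∑' w, C.pk k x w * C.P3 l1 l2 x (C.Fw K R w) := by
    intro y
    obtain ⟨φ, rfl⟩ := htr x y
    rw [← Equiv.tsum_eq φ.f]
    congr 1
    ext w
    rw [φ.pk_eq, φ.P3_eq l1 l2 x (meas_Fw K R _) (φ.Fw_act K R w)]
  have hc2 : ∀ y, C.P3 l1 l2 y (C.Fw K R y) = C.P3 l1 l2 x (C.Fw K R x) := by
    intro y
    obtain ⟨φ, rfl⟩ := htr x y
    exact φ.P3_eq l1 l2 x (meas_Fw K R _) (φ.Fw_act K R x)
  refine avg ham k _ _ (fun F => ?_)
  calc ((C.deep k F).card : ℝ≥0∞) * ∑' w, C.pk k x w * C.P3 l1 l2 x (C.Fw K R w)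
      = ∑ y ∈ C.deep k F, ∑' w, C.pk k y w * C.P3 l1 l2 y (C.Fw K R w) := by
        simp_rw [hc1]
        rw [Finset.sum_const, nsmul_eq_mul]
    _ = ∑ y ∈ C.deep k F, ∑ w ∈ F, C.pk k y w * C.P3 l1 l2 y (C.Fw K R w) := by
        refine Finset.sum_congr rfl (fun y hy => ?_)
        rw [deep, Finset.mem_filter] at hy
        refine tsum_eq_sum (fun w hw => ?_)
        by_cases h0 : C.pk k y w = 0
        · rw [h0, zero_mul]
        · exact absurd (hy.2 w ⟨k, le_rfl, h0⟩) hw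
    _ = ∑ w ∈ F, ∑ y ∈ C.deep k F, C.pk k w y * C.P3 l1 l2 y (C.Fw K R w) := by
        rw [Finset.sum_comm]
        refine Finset.sum_congr rfl (fun w _ => Finset.sum_congr rfl (fun y _ => ?_))
        rw [C.pk_symm]
    _ ≤ ∑ w ∈ F, ∑' y, C.pk k w y * C.P3 l1 l2 y (C.Fw K R w) := by
        refine Finset.sum_le_sum (fun w _ => ?_)
        exact ENNReal.sum_le_tsum _
    _ = ∑ w ∈ F, C.P3 l1 l2 w (C.Fw K R w) := by
        refine Finset.sum_congr rfl (fun w _ => harm K R k l1 l2 w)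
    _ = _ := by
        simp_rw [hc2]
        rw [Finset.sum_const, nsmul_eq_mul]

end Chain

end Pool.Agent.Q298.Frog
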