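import Pool.Agent.Q298.Frog.Walk

set_option autoImplicit false
set_option linter.unusedSectionVars false
open MeasureTheory Set Filter
open scoped ENNReal NNReal Topology

namespace Pool.Agent.Q298.Frog

variable {V : Type*} [MeasurableSpace V] [MeasurableSingletonClass V] [Countable V]

/-- cylinder -/
def cyl (n : ℕ) (w : ℕ → V) : Set (ℕ → V) := {X | ∀ i ≤ n, X i = w i}

lemma meas_cyl (n : ℕ) (w : ℕ → V) : MeasurableSet (cyl n w) := by
  have : cyl n w = ⋂ i ≤ n, {X : ℕ → V | X i = w i} := by
    ext X; simp [cyl]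
  rw [this]
  exact MeasurableSet.iInter (fun i => MeasurableSet.iInter (fun _ => Chain.meas_pt i (w i)))

theorem ext_cyl (μ ν : Measure (ℕ → V)) [IsFiniteMeasure μ] [IsFiniteMeasure ν]
    (h : ∀ n w, μ (cyl n w) = ν (cyl n w)) : μ = ν := by
  classical
  by_cases hne : Nonempty V
  swap
  · rw [not_nonempty_iff] at hne
    have : IsEmpty (ℕ → V) := ⟨fun X => hne.elim (X 0)⟩
    rw [Measure.eq_zero_of_isEmpty μ, Measure.eq_zero_of_isEmpty ν]
  obtain ⟨v0⟩ := hne
  have key : ∀ n : ℕ, μ.map (Finset.restrict (π := fun _ => V) (Finset.Iic n)) =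
      ν.map (Finset.restrict (π := fun _ => V) (Finset.Iic n)) := by
    intro n
    apply Measure.ext_of_singleton
    intro a
    rw [Measure.map_apply (Finset.measurable_restrict _) (measurableSet_singleton a),
      Measure.map_apply (Finset.measurable_restrict _) (measurableSet_singleton a)]
    have : (Finset.restrict (π := fun _ => V) (Finset.Iic n)) ⁻¹' ({a} : Set (Finset.Iic n → V)) =
        cyl n (fun i => if hi : i ∈ Finset.Iic n then a ⟨i, hi⟩ else v0) := by
      ext X
      simp only [mem_preimage, mem_singleton_iff, cyl, mem_ofPred_eq]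
      constructor
      · intro hX i hi
        rw [dif_pos (Finset.mem_Iic.2 hi), ← hX]
        rfl
      · intro hX
        ext ⟨i, hi⟩
        have := hX i (Finset.mem_Iic.1 hi)
        rw [dif_pos hi] at this
        exact this
    rw [this]
    exact h n _
  have hp : IsProjectiveLimit μ (fun I : Finset ℕ => μ.map (I.restrict (π := fun _ => V))) :=
    fun I => rfl
  have hq : IsProjectiveLimit ν (fun I : Finset ℕ => μ.map (I.restrict (π := fun _ => V))) := by
    intro I
    obtain ⟨n, hn⟩ : ∃ n, I ⊆ Finset.Iic n := ⟨I.sup id, Finset.subset_Iic_sup_id I⟩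
    have h1 : ∀ ρ : Measure (ℕ → V), ρ.map (I.restrict (π := fun _ => V)) =
        (ρ.map (Finset.restrict (π := fun _ => V) (Finset.Iic n))).map
          (Finset.restrict₂ (π := fun _ => V) hn) := by
      intro ρ
      rw [Measure.map_map (Finset.measurable_restrict₂ _) (Finset.measurable_restrict _),
        Finset.restrict₂_comp_restrict]
    show ν.map (I.restrict (π := fun _ => V)) = μ.map (I.restrict (π := fun _ => V))
    rw [h1 ν, h1 μ, key n]
  exact hp.unique hq

namespace Chain

variable (C : Chain V)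

open Classical in
lemma mu_cyl (n : ℕ) : ∀ (x : V) (w : ℕ → V), C.mu x (cyl n w) =
    if w 0 = x then ∏ i ∈ Finset.range n, C.p (w i) (w (i + 1)) else 0 := by
  induction n with
  | zero =>
    intro x w
    split_ifs with h
    · rw [Finset.prod_range_zero]
      refine C.mu_start_one x _ (fun X hX i hi => ?_)
      rw [Nat.le_zero.1 hi, h, hX]
    · refine C.mu_start x _ (fun X hX hc => h ?_)
      rw [← hX, hc 0 le_rfl]
  | succ n ih =>
    intro x w
    split_ifs with h
    · rw [C.step' x _ (cyl n (fun i => w (i + 1))) (meas_cyl _ _)]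
      · rw [tsum_eq_single (w 1)]
        · rw [ih, if_pos rfl, Finset.prod_range_succ', mul_comm, h]
        · intro z hz
          rw [ih, if_neg (fun h' => hz h'.symm), mul_zero]
      · intro X hX
        constructor
        · intro hc i hi
          exact hc (i + 1) (by omega)
        · intro hc i hi
          cases i with
          | zero => rw [hX, h]
          | succ i => exact hc i (by omega)
    · refine C.mu_start x _ (fun X hX hc => h ?_)
      rw [← hX, hc 0 (Nat.zero_le _)]

/-- symmetries of the chain -/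
structure Sym where
  f : V ≃ V
  hf : ∀ x y, C.p (f x) (f y) = C.p x y

variable {C}

lemma Sym.map_mu (φ : C.Sym) (x : V) :
    (C.mu x).map (fun X n => φ.f (X n)) = C.mu (φ.f x) := by
  have hm : Measurable (fun (X : ℕ → V) n => φ.f (X n)) := by
    apply measurable_pi_lambda
    intro n
    exact (measurable_of_countable _).comp (measurable_pi_apply n)
  have : IsProbabilityMeasure ((C.mu x).map (fun X n => φ.f (X n))) :=
    Measure.isProbabilityMeasure_map hm.aemeasurable
  apply ext_cyl
  intro n w
  rw [Measure.map_apply hm (meas_cyl _ _)]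
  have : (fun (X : ℕ → V) n => φ.f (X n)) ⁻¹' cyl n w = cyl n (fun i => φ.f.symm (w i)) := by
    ext X
    simp only [mem_preimage, cyl, mem_ofPred_eq]
    refine forall₂_congr (fun i _ => ?_)
    rw [Equiv.eq_symm_apply]
  rw [this, mu_cyl, mu_cyl]
  have e : (φ.f.symm (w 0) = x) ↔ (w 0 = φ.f x) := by
    rw [Equiv.symm_apply_eq]
  by_cases h : w 0 = φ.f x
  · rw [if_pos h, if_pos (e.2 h)]
    refine Finset.prod_congr rfl (fun i _ => ?_)
    rw [← φ.hf, Equiv.apply_symm_apply, Equiv.apply_symm_apply]
  · rw [if_neg h, if_neg (fun h' => h (e.1 h'))]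

lemma Sym.mu_eq (φ : C.Sym) (x : V) {A : Set (ℕ → V)} (hA : MeasurableSet A) :
    C.mu (φ.f x) A = C.mu x {X | (fun n => φ.f (X n)) ∈ A} := by
  have hm : Measurable (fun (X : ℕ → V) n => φ.f (X n)) := by
    apply measurable_pi_lambda
    intro n
    exact (measurable_of_countable _).comp (measurable_pi_apply n)
  rw [← φ.map_mu x, Measure.map_apply hm hA]
  rfl

lemma Sym.pk_eq (φ : C.Sym) (n : ℕ) (x y : V) : C.pk n (φ.f x) (φ.f y) = C.pk n x y := by
  unfold pk
  rw [φ.mu_eq x (meas_pt n _)]
  congr 1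
  ext X
  simp

lemma Sym.hit_eq (φ : C.Sym) (x y : V) : C.hit (φ.f x) (φ.f y) = C.hit x y := by
  unfold hit
  rw [φ.mu_eq x (meas_hit _)]
  congr 1
  ext X
  simp

lemma Sym.near_iff (φ : C.Sym) (r : ℕ) (x y : V) : C.near r (φ.f x) (φ.f y) ↔ C.near r x y := by
  unfold near
  simp only [φ.pk_eq]

/-- number of visits to `I` at times `0, ..., m` -/
noncomputable def vis (I : Set V) (X : ℕ → V) (m : ℕ) : ℕ := by
  classical exact ((Finset.range (m + 1)).filter (fun i => X i ∈ I)).card

noncomputable def ind (I : Set V) (x : V) : ℕ := by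
  classical exact if x ∈ I then 1 else 0

lemma vis_zero (I : Set V) (X : ℕ → V) : vis I X 0 = ind I (X 0) := by
  classical
  unfold vis ind
  rw [Finset.range_one, Finset.filter_singleton]
  split_ifs <;> simp

lemma vis_last (I : Set V) (X : ℕ → V) (m : ℕ) :
    vis I X (m + 1) = vis I X m + ind I (X (m + 1)) := by
  classical
  unfold vis ind
  rw [Finset.range_add_one, Finset.filter_insert]
  split_ifs with h
  · rw [Finset.card_insert_of_notMem (by simp)]
  · simp

lemma vis_first (I : Set V) (X : ℕ → V) (m : ℕ) :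
    vis I X (m + 1) = ind I (X 0) + vis I (fun n => X (n + 1)) m := by
  induction m with
  | zero => rw [vis_last, vis_zero, vis_zero]
  | succ m ih => rw [vis_last, ih, vis_last, add_assoc]

lemma vis_mono (I : Set V) (X : ℕ → V) {m n : ℕ} (h : m ≤ n) : vis I X m ≤ vis I X n := by
  induction n, h using Nat.le_induction with
  | base => exact le_rfl
  | succ n _ ih => rw [vis_last]; omega

lemma vis_le (I : Set V) (X : ℕ → V) (m : ℕ) : vis I X m ≤ m + 1 := by
  classical
  unfold vis
  refine (Finset.card_filter_le _ _).trans ?_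
  simp

lemma meas_vis (I : Set V) (m : ℕ) : Measurable (fun X : ℕ → V => vis I X m) := by
  induction m with
  | zero =>
    simp only [vis_zero]
    exact (measurable_of_countable (ind I)).comp (measurable_pi_apply (X := fun _ : ℕ => V) 0)
  | succ m ih =>
    simp only [vis_last]
    exact ih.add ((measurable_of_countable (ind I)).comp
      (measurable_pi_apply (X := fun _ : ℕ => V) (m + 1)))

lemma meas_visQ (I : Set V) (m : ℕ) (y : V) (Q : Set ℕ) :
    MeasurableSet {X : ℕ → V | X m = y ∧ vis I X m ∈ Q} :=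
  (meas_pt m y).inter ((meas_vis I m) (MeasurableSet.of_discrete (s := Q)))

/-- first step decomposition for visits -/
lemma vis_first_mu (I : Set V) (m : ℕ) (x y : V) (Q : Set ℕ) :
    C.mu x {X | X (m + 1) = y ∧ vis I X (m + 1) ∈ Q} =
      ∑' z, C.p x z * C.mu z {X | X m = y ∧ vis I X m ∈ {k | ind I x + k ∈ Q}} := by
  refine C.step' x _ _ (meas_visQ I m y _) (fun X hX => ?_)
  simp only [mem_ofPred_eq]
  rw [vis_first, hX]

lemma vis_last_mu (I : Set V) (m : ℕ) : ∀ (x y : V) (Q : Set ℕ),
    C.mu x {X | X (m + 1) = y ∧ vis I X (m + 1) ∈ Q} =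
      ∑' z, C.mu x {X | X m = z ∧ vis I X m ∈ {k | k + ind I y ∈ Q}} * C.p z y := by
  induction m with
  | zero =>
    intro x y Q
    rw [vis_first_mu]
    rw [tsum_eq_single y]
    · rw [tsum_eq_single x]
      · by_cases h : ind I x + ind I y ∈ Q
        · rw [C.mu_start_one y, C.mu_start_one x]
          · ring
          · intro X hX
            refine ⟨hX, ?_⟩
            rw [vis_zero, hX]
            exact h
          · intro X hX
            refine ⟨hX, ?_⟩
            rw [vis_zero, hX]
            exact h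
        · rw [C.mu_start y, C.mu_start x]
          · ring
          · intro X hX hc
            have := hc.2
            rw [vis_zero, hX] at this
            exact h this
          · intro X hX hc
            have := hc.2
            rw [vis_zero, hX] at this
            exact h this
      · intro z hz
        rw [C.mu_start x, zero_mul]
        intro X hX hc
        exact hz (hc.1.symm.trans hX)
    · intro z hz
      rw [C.mu_start z, mul_zero]
      intro X hX hc
      exact hz (hX.symm.trans hc.1)
  | succ m ih =>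
    intro x y Q
    have hL : ∀ a, C.mu a {X | X (m + 1) = y ∧ vis I X (m + 1) ∈ {k | ind I x + k ∈ Q}} =
        ∑' z, C.mu a {X | X m = z ∧ vis I X m ∈ {k | k + ind I y ∈ {k | ind I x + k ∈ Q}}} *
          C.p z y := fun a => ih a y _
    have hR : ∀ z, C.mu x {X | X (m + 1) = z ∧ vis I X (m + 1) ∈ {k | k + ind I y ∈ Q}} =
        ∑' a, C.p x a * C.mu a {X | X m = z ∧ vis I X m ∈
          {k | ind I x + k ∈ {k | k + ind I y ∈ Q}}} := fun z => vis_first_mu I m x z _
    rw [vis_first_mu]
    simp only [hL, hR, ← ENNReal.tsum_mul_left, ← ENNReal.tsum_mul_right]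
    rw [ENNReal.tsum_comm]
    congr 1
    ext z
    congr 1
    ext a
    rw [mul_assoc]
    simp only [mem_ofPred_eq, add_assoc]

lemma vis_symm (I : Set V) (m : ℕ) : ∀ (x y : V) (Q : Set ℕ),
    C.mu x {X | X m = y ∧ vis I X m ∈ Q} = C.mu y {X | X m = x ∧ vis I X m ∈ Q} := by
  induction m with
  | zero =>
    intro x y Q
    by_cases hxy : x = y
    · rw [hxy]
    · rw [C.mu_start x, C.mu_start y]
      · intro X hX hc
        exact hxy (hc.1.symm.trans hX)
      · intro X hX hc
        exact hxy (hX.symm.trans hc.1)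
  | succ m ih =>
    intro x y Q
    rw [vis_first_mu, vis_last_mu]
    congr 1
    ext z
    rw [ih z y, C.symm x z, mul_comm]
    congr 3
    ext X
    simp only [mem_ofPred_eq, add_comm]

/-- the event that the walk is at its `n`-th visit to `I` (not counting time `0` if it starts
in `I`) at a time at most `T`, at a point of `S` -/
def tgt (I : Set V) (T n : ℕ) (S : Set V) : Set (ℕ → V) :=
  {X | ∃ m ≤ T, X m ∈ I ∧ X m ∈ S ∧ vis I X m = n + 1}

lemma meas_tgt (I : Set V) (T n : ℕ) (S : Set V) : MeasurableSet (tgt I T n S) := by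
  have : tgt I T n S = ⋃ m ≤ T, ({X : ℕ → V | X m ∈ I ∩ S} ∩ {X | vis I X m ∈ ({n + 1} : Set ℕ)}) := by
    ext X
    simp only [tgt, mem_ofPred_eq, mem_iUnion, mem_inter_iff, mem_singleton_iff, exists_prop]
    constructor
    · rintro ⟨m, h1, h2, h3, h4⟩
      exact ⟨m, h1, ⟨h2, h3⟩, h4⟩
    · rintro ⟨m, h1, ⟨h2, h3⟩, h4⟩
      exact ⟨m, h1, h2, h3, h4⟩
  rw [this]
  refine MeasurableSet.biUnion (to_countable _) (fun m _ => MeasurableSet.inter ?_ ?_)
  · exact (measurable_pi_apply m) (MeasurableSet.of_discrete (s := I ∩ S))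
  · exact (meas_vis I m) (MeasurableSet.of_discrete (s := {n + 1}))

lemma tgt_unique {I : Set V} {X : ℕ → V} {n m m' : ℕ} (h : X m ∈ I) (h' : X m' ∈ I)
    (e : vis I X m = n + 1) (e' : vis I X m' = n + 1) : m = m' := by
  classical
  rcases lt_trichotomy m m' with hlt | heq | hlt
  · exfalso
    obtain ⟨k, rfl⟩ : ∃ k, m' = k + 1 := ⟨m' - 1, by omega⟩
    have h1 := vis_last I X k
    have h2 := vis_mono I X (show m ≤ k by omega)
    have h3 : ind I (X (k + 1)) = 1 := by unfold ind; rw [if_pos h']
    omega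
  · exact heq
  · exfalso
    obtain ⟨k, rfl⟩ : ∃ k, m = k + 1 := ⟨m - 1, by omega⟩
    have h1 := vis_last I X k
    have h2 := vis_mono I X (show m' ≤ k by omega)
    have h3 : ind I (X (k + 1)) = 1 := by unfold ind; rw [if_pos h]
    omega

variable (C)

/-- the kernel of the `n`-th visit to `I` -/
noncomputable def kap (I : Set V) (T n : ℕ) (x y : V) : ℝ≥0∞ := C.mu x (tgt I T n {y})

lemma kap_eq (I : Set V) (T n : ℕ) (x y : V) (hy : y ∈ I) :
    C.kap I T n x y = ∑ m ∈ Finset.range (T + 1),
      C.mu x {X | X m = y ∧ vis I X m ∈ ({n + 1} : Set ℕ)} := by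
  unfold kap
  have : tgt I T n {y} = ⋃ m ∈ Finset.range (T + 1),
      {X : ℕ → V | X m = y ∧ vis I X m ∈ ({n + 1} : Set ℕ)} := by
    ext X
    simp only [tgt, mem_ofPred_eq, mem_iUnion, mem_singleton_iff, exists_prop, Finset.mem_range]
    constructor
    · rintro ⟨m, h1, h2, h3, h4⟩
      exact ⟨m, by omega, h3, h4⟩
    · rintro ⟨m, h1, h3, h4⟩
      exact ⟨m, by omega, h3 ▸ hy, h3, h4⟩
  rw [this, measure_biUnion_finset]
  · intro m _ m' _ hmm
    rw [Function.onFun, disjoint_left]
    rintro X ⟨h1, h2⟩ ⟨h3, h4⟩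
    exact hmm (tgt_unique (h1 ▸ hy) (h3 ▸ hy) h2 h4)
  · intro m _
    exact meas_visQ I m y _

lemma kap_symm (I : Set V) (T n : ℕ) (x y : V) (hx : x ∈ I) (hy : y ∈ I) :
    C.kap I T n x y = C.kap I T n y x := by
  rw [kap_eq _ _ _ _ _ _ hy, kap_eq _ _ _ _ _ _ hx]
  exact Finset.sum_congr rfl (fun m _ => vis_symm I m x y _)

lemma kap_near (I : Set V) (T n : ℕ) (x y : V) (h : C.kap I T n x y ≠ 0) : C.near T x y := by
  by_contra hn
  unfold near at hn
  push Not at hn
  apply h
  unfold kap
  refine measure_mono_null (t := ⋃ m ∈ Finset.range (T + 1), {X : ℕ → V | X m = y}) ?_ ?_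
  · rintro X ⟨m, h1, h2, h3, h4⟩
    simp only [mem_iUnion]
    exact ⟨m, Finset.mem_range.2 (by omega), h3⟩
  · refine measure_iUnion_null (fun m => measure_iUnion_null (fun hm => ?_))
    exact hn m (by have := Finset.mem_range.1 hm; omega)

/-- additivity of the target law -/
lemma mu_tgt_eq_sum (I : Set V) (T n : ℕ) (x : V) (S : Finset V) :
    C.mu x (tgt I T n (S : Set V)) = ∑ y ∈ S, C.kap I T n x y := by
  unfold kap
  have : tgt I T n (S : Set V) = ⋃ y ∈ S, tgt I T n {y} := by
    ext X
    simp only [tgt, mem_ofPred_eq, mem_iUnion, mem_singleton_iff, exists_prop, Finset.mem_coe]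
    constructor
    · rintro ⟨m, h1, h2, h3, h4⟩
      exact ⟨X m, h3, m, h1, h2, rfl, h4⟩
    · rintro ⟨y, hy, m, h1, h2, h3, h4⟩
      exact ⟨m, h1, h2, h3 ▸ hy, h4⟩
  rw [this, measure_biUnion_finset]
  · intro y _ y' _ hyy
    rw [Function.onFun, disjoint_left]
    rintro X ⟨m, h1, h2, h3, h4⟩ ⟨m', h1', h2', h3', h4'⟩
    have := tgt_unique h2 h2' h4 h4'
    subst this
    exact hyy (h3.symm.trans h3')
  · intro y _
    exact meas_tgt I T n {y}

end Chain

end Pool.Agent.Q298.Frog
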