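import Pool.Agent.Q298.Frog.Frogs

set_option autoImplicit false
set_option linter.unusedSectionVars false
open MeasureTheory Set Filter ProbabilityTheory
open scoped ENNReal NNReal Topology

namespace Pool.Agent.Q298.Frog

variable {V : Type*}

/-- union of relations -/
def jn (r s : Rel V) : Rel V := fun e => r e ∨ s e

lemma dre_mono {r s : Rel V} (h : ∀ e, r e → s e) {a b : V} (hr : dre r a b) : dre s a b := by
  unfold dre at *
  induction hr with
  | refl => exact Relation.ReflTransGen.refl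
  | tail _ hbc ih => exact ih.tail (h _ hbc)

lemma dre_left {r s : Rel V} {a b : V} (hr : dre r a b) : dre (jn r s) a b :=
  dre_mono (fun _ h => Or.inl h) hr

lemma dre_right {r s : Rel V} {a b : V} (hr : dre s a b) : dre (jn r s) a b :=
  dre_mono (fun _ h => Or.inr h) hr

/-- reachable in `n` steps -/
def dn (r : Rel V) : ℕ → V → V → Prop
  | 0, a, b => a = b
  | n + 1, a, b => ∃ c, dn r n a c ∧ r (c, b)

lemma dre_iff (r : Rel V) (a b : V) : dre r a b ↔ ∃ n, dn r n a b := by
  constructor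
  · intro h
    induction h with
    | refl => exact ⟨0, rfl⟩
    | tail _ hbc ih =>
      obtain ⟨n, hn⟩ := ih
      exact ⟨n + 1, _, hn, hbc⟩
  · rintro ⟨n, hn⟩
    induction n generalizing b with
    | zero => rw [show a = b from hn]; exact Relation.ReflTransGen.refl
    | succ n ih =>
      obtain ⟨c, hc, hcb⟩ := hn
      exact (ih c hc).tail hcb

variable [MeasurableSpace V] [MeasurableSingletonClass V] [Countable V]

lemma meas_dn (n : ℕ) (a b : V) : MeasurableSet {r : Rel V | dn r n a b} := by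
  induction n generalizing b with
  | zero => exact MeasurableSet.const _
  | succ n ih =>
    have : {r : Rel V | dn r (n + 1) a b} = ⋃ c, ({r : Rel V | dn r n a c} ∩ {r | r (c, b)}) := by
      ext r
      simp [dn]
    rw [this]
    exact MeasurableSet.iUnion (fun c => (ih c).inter (meas_prop _))

lemma meas_dre (a b : V) : MeasurableSet {r : Rel V | dre r a b} := by
  have : {r : Rel V | dre r a b} = ⋃ n, {r : Rel V | dn r n a b} := by
    ext r
    simp [dre_iff]
  rw [this]
  exact MeasurableSet.iUnion (fun n => meas_dn n a b)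

lemma meas_jn : Measurable (fun p : Rel V × Rel V => jn p.1 p.2) := by
  apply measurable_pi_lambda
  intro e
  rw [← measurableSet_setOfPred]
  have : {p : Rel V × Rel V | jn p.1 p.2 e} =
      (Prod.fst ⁻¹' {f : Rel V | f e}) ∪ (Prod.snd ⁻¹' {f : Rel V | f e}) := by
    ext p; simp [jn]
  rw [this]
  exact (measurable_fst (meas_prop e)).union (measurable_snd (meas_prop e))

namespace Chain

variable {C : Chain V}

lemma Sym.dre_act (φ : C.Sym) (r : Rel V) (a b : V) : dre (φ.act r) (φ.f a) (φ.f b) ↔ dre r a b := by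
  constructor
  · intro h
    have key : ∀ x y : V, dre (φ.act r) x y → dre r (φ.f.symm x) (φ.f.symm y) := by
      intro x y hxy
      induction hxy with
      | refl => exact Relation.ReflTransGen.refl
      | tail _ hbc ih => exact ih.tail hbc
    have := key _ _ h
    rwa [Equiv.symm_apply_apply, Equiv.symm_apply_apply] at this
  · intro h
    induction h with
    | refl => exact Relation.ReflTransGen.refl
    | tail _ hbc ih =>
      refine ih.tail ?_
      show r (φ.f.symm _, φ.f.symm _)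
      rw [Equiv.symm_apply_apply, Equiv.symm_apply_apply]
      exact hbc

lemma Sym.jn_act (φ : C.Sym) (r s : Rel V) : φ.act (jn r s) = jn (φ.act r) (φ.act s) := rfl

variable (C)

/-- points that belong to a large local clique -/
def clq (K R : ℕ) (r : Rel V) : Set V :=
  {x | ∃ A : Finset V, x ∈ A ∧ K ≤ A.card ∧ ∀ u ∈ A, ∀ v ∈ A, C.near R u v ∧ (u = v ∨ r (u, v))}

lemma meas_clq (K R : ℕ) (x : V) : MeasurableSet {r : Rel V | x ∈ C.clq K R r} := by
  have : {r : Rel V | x ∈ C.clq K R r} = ⋃ A : Finset V, ({r : Rel V | x ∈ A ∧ K ≤ A.card} ∩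
      ⋂ u ∈ A, ⋂ v ∈ A, ({r : Rel V | C.near R u v} ∩ ({r : Rel V | u = v} ∪ {r | r (u, v)}))) := by
    ext r
    simp only [clq, mem_ofPred_eq, mem_iUnion, mem_inter_iff, mem_iInter, mem_union, and_assoc]
  rw [this]
  refine MeasurableSet.iUnion (fun A => (MeasurableSet.const _).inter ?_)
  refine Finset.measurableSet_biInter _ (fun u _ => Finset.measurableSet_biInter _ (fun v _ => ?_))
  exact (MeasurableSet.const _).inter ((MeasurableSet.const _).union (meas_prop _))

variable {C}

lemma Sym.clq_act (φ : C.Sym) (K R : ℕ) (r : Rel V) (x : V) :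
    φ.f x ∈ C.clq K R (φ.act r) ↔ x ∈ C.clq K R r := by
  classical
  constructor
  · rintro ⟨A, hx, hK, hA⟩
    refine ⟨A.image φ.f.symm, ?_, ?_, ?_⟩
    · rw [Finset.mem_image]
      exact ⟨_, hx, by simp⟩
    · rwa [Finset.card_image_of_injective _ φ.f.symm.injective]
    · intro u hu v hv
      rw [Finset.mem_image] at hu hv
      obtain ⟨u, hu, rfl⟩ := hu
      obtain ⟨v, hv, rfl⟩ := hv
      obtain ⟨h1, h2⟩ := hA u hu v hv
      refine ⟨?_, ?_⟩
      · rw [← φ.near_iff]
        simpa using h1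
      · rcases h2 with h2 | h2
        · left; rw [h2]
        · right; exact h2
  · rintro ⟨A, hx, hK, hA⟩
    refine ⟨A.image φ.f, ?_, ?_, ?_⟩
    · exact Finset.mem_image_of_mem _ hx
    · rwa [Finset.card_image_of_injective _ φ.f.injective]
    · intro u hu v hv
      rw [Finset.mem_image] at hu hv
      obtain ⟨u, hu, rfl⟩ := hu
      obtain ⟨v, hv, rfl⟩ := hv
      obtain ⟨h1, h2⟩ := hA u hu v hv
      refine ⟨(φ.near_iff _ _ _).2 h1, ?_⟩
      rcases h2 with h2 | h2
      · left; rw [h2]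
      · right
        show r (φ.f.symm _, φ.f.symm _)
        simpa using h2

/-- local dependence of the clique set -/
lemma clq_local (K R : ℕ) (r s : Rel V) (x : V)
    (h : ∀ u, C.near R x u → ∀ v, r (u, v) = s (u, v)) (hx : x ∈ C.clq K R r) :
    x ∈ C.clq K R s := by
  obtain ⟨A, hxA, hK, hA⟩ := hx
  refine ⟨A, hxA, hK, fun u hu v hv => ⟨(hA u hu v hv).1, ?_⟩⟩
  rcases (hA u hu v hv).2 with h2 | h2
  · exact Or.inl h2
  · right
    rw [← h u (hA x hxA u hu).1 v]
    exact h2

variable (C)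

/-- a walk visits any finite set with positive probability -/
lemma visits_pos (hi : C.Irr) (A : Finset V) : ∀ x,
    C.mu x {X | ∀ v ∈ A, ∃ n, X n = v} ≠ 0 := by
  classical
  induction A using Finset.induction_on with
  | empty =>
    intro x
    simp
  | insert a A ha ih =>
    intro x
    obtain ⟨m, hm⟩ := hi x a
    have hme : MeasurableSet {X : ℕ → V | ∀ v ∈ A, ∃ n, X n = v} := by
      have : {X : ℕ → V | ∀ v ∈ A, ∃ n, X n = v} = ⋂ v ∈ A, {X : ℕ → V | ∃ n, X n = v} := by
        ext X; simp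
      rw [this]
      exact Finset.measurableSet_biInter _ (fun v _ => meas_hit v)
    have h1 := C.markov m x _ hme a
    have h2 : C.mu x {X | X m = a ∧ (fun k => X (k + m)) ∈ {X : ℕ → V | ∀ v ∈ A, ∃ n, X n = v}} ≠ 0 := by
      rw [h1]
      exact mul_ne_zero hm (ih a)
    intro h0
    apply h2
    refine measure_mono_null ?_ h0
    rintro X ⟨h3, h4⟩ v hv
    rw [Finset.mem_insert] at hv
    rcases hv with rfl | hv
    · exact ⟨m, h3⟩
    · obtain ⟨n, hn⟩ := h4 v hv
      exact ⟨n + m, hn⟩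

lemma clq_pos (hi : C.Irr) [Infinite V] (l : ℝ≥0) (hl : 0 < l) (K : ℕ) (o : V) :
    ∃ R, C.Q l {r | o ∈ C.clq K R r} ≠ 0 := by
  classical
  obtain ⟨A, hoA, hK⟩ : ∃ A : Finset V, o ∈ A ∧ K ≤ A.card := by
    obtain ⟨B, hB⟩ := Infinite.exists_subset_card_eq V K
    exact ⟨insert o B, Finset.mem_insert_self _ _, hB ▸ Finset.card_le_card (Finset.subset_insert _ _)⟩
  choose nn hnn using hi
  set R := (A ×ˢ A).sup (fun p => nn p.1 p.2) with hR
  refine ⟨R, ?_⟩
  have hnear : ∀ u ∈ A, ∀ v ∈ A, C.near R u v := by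
    intro u hu v hv
    refine ⟨nn u v, ?_, hnn u v⟩
    exact Finset.le_sup (f := fun p : V × V => nn p.1 p.2)
      (Finset.mem_product.2 ⟨hu, hv⟩ : (u, v) ∈ A ×ˢ A)
  set T : Set (ℕ → V) := {X | ∀ v ∈ A, ∃ n, X n = v} with hT
  have hTm : MeasurableSet T := by
    have : T = ⋂ v ∈ A, {X : ℕ → V | ∃ n, X n = v} := by
      ext X; simp [hT]
    rw [this]
    exact Finset.measurableSet_biInter _ (fun v _ => meas_hit v)
  have hsub : {ω : Cfg V | ∀ u ∈ A, 0 < (ω u).1 ∧ (ω u).2 0 ∈ T} ⊆
      rel ⁻¹' {r | o ∈ C.clq K R r} := by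
    intro ω hω
    refine ⟨A, hoA, hK, fun u hu v hv => ⟨hnear u hu v hv, Or.inr ?_⟩⟩
    obtain ⟨n, hn⟩ := (hω u hu).2 v hv
    exact ⟨0, (hω u hu).1, n, hn⟩
  intro h0
  unfold Q at h0
  rw [Measure.map_apply meas_rel (C.meas_clq K R o)] at h0
  have h1 := measure_mono_null hsub h0
  have h2 : {ω : Cfg V | ∀ u ∈ A, 0 < (ω u).1 ∧ (ω u).2 0 ∈ T} =
      Set.pi (A : Set V) (fun _ => {m : ℕ | 0 < m} ×ˢ {W : ℕ → ℕ → V | W 0 ∈ T}) := by
    ext ω
    simp
  have hm2 : MeasurableSet {W : ℕ → ℕ → V | W 0 ∈ T} :=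
    (measurable_pi_apply (X := fun _ : ℕ => ℕ → V) 0) hTm
  rw [h2, frog, Measure.infinitePi_pi _ (fun x _ => MeasurableSet.of_discrete.prod hm2),
    Finset.prod_eq_zero_iff] at h1
  obtain ⟨u, hu, h3⟩ := h1
  rw [site, Measure.prod_prod, mul_eq_zero] at h3
  rcases h3 with h3 | h3
  · have h4 : poissonMeasure l {1} = 0 := measure_mono_null (by intro m hm; simp_all) h3
    have h5 := poissonMeasure_real_singleton_pos (r := l) 1 hl
    rw [measureReal_def, h4] at h5
    simp at h5
  · have h4 : (Measure.infinitePi fun _ : ℕ => C.mu u) {W : ℕ → ℕ → V | W 0 ∈ T} = C.mu u T := by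
      have h5 : ((Measure.infinitePi fun _ : ℕ => C.mu u).map (fun W => W 0)) T = C.mu u T := by
        rw [Measure.infinitePi_map_eval (μ := fun _ : ℕ => C.mu u) 0]
      rw [Measure.map_apply (measurable_pi_apply 0) hTm] at h5
      exact h5
    rw [h4] at h3
    exact C.visits_pos (fun x y => ⟨nn x y, hnn x y⟩) A u h3

end Chain

end Pool.Agent.Q298.Frog
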