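import Pool.Agent.Q298.Frog.Vol2

set_option autoImplicit false
set_option linter.unusedSectionVars false
open MeasureTheory Set Filter ProbabilityTheory
open scoped ENNReal NNReal Topology

namespace Pool.Agent.Q298.Frog

variable {V : Type*} [MeasurableSpace V] [MeasurableSingletonClass V] [Countable V]

/-- two relations and a path -/
abbrev Tri (V : Type*) := (Rel V × Rel V) × (ℕ → V)

namespace Chain

variable (C : Chain V)

noncomputable def P3 (l1 l2 : ℝ≥0) (x : V) : Measure (Tri V) :=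
  ((C.Q l1).prod (C.Q l2)).prod (C.mu x)

instance (l1 l2 : ℝ≥0) (x : V) : IsProbabilityMeasure (C.P3 l1 l2 x) := by
  unfold P3; infer_instance

variable {C}

/-- action on triples -/
def Sym.tri (φ : C.Sym) (q : Tri V) : Tri V := ((φ.act q.1.1, φ.act q.1.2), fun n => φ.f (q.2 n))

lemma Sym.meas_path (φ : C.Sym) : Measurable (fun (X : ℕ → V) n => φ.f (X n)) := by
  apply measurable_pi_lambda
  intro n
  exact (measurable_of_countable φ.f).comp (measurable_pi_apply n)

lemma Sym.meas_tri (φ : C.Sym) : Measurable (φ.tri : Tri V → Tri V) := by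
  unfold Sym.tri
  exact ((φ.meas_act.comp (measurable_fst.comp measurable_fst)).prodMk
    (φ.meas_act.comp (measurable_snd.comp measurable_fst))).prodMk
      (φ.meas_path.comp measurable_snd)

lemma Sym.map_tri (φ : C.Sym) (l1 l2 : ℝ≥0) (x : V) :
    (C.P3 l1 l2 x).map φ.tri = C.P3 l1 l2 (φ.f x) := by
  have h1 : (φ.tri : Tri V → Tri V) =
      Prod.map (Prod.map φ.act φ.act) (fun (X : ℕ → V) n => φ.f (X n)) := rfl
  rw [h1, P3, ← Measure.map_prod_map _ _ (φ.meas_act.prodMap φ.meas_act) φ.meas_path,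
    ← Measure.map_prod_map _ _ φ.meas_act φ.meas_act, φ.Q_act, φ.Q_act, φ.map_mu]
  rfl

lemma Sym.P3_eq (φ : C.Sym) (l1 l2 : ℝ≥0) (x : V) {A B : Set (Tri V)} (hB : MeasurableSet B)
    (h : ∀ q, φ.tri q ∈ B ↔ q ∈ A) : C.P3 l1 l2 (φ.f x) B = C.P3 l1 l2 x A := by
  rw [← φ.map_tri, Measure.map_apply φ.meas_tri hB]
  congr 1
  ext q
  exact h q

lemma Sym.vis_act (φ : C.Sym) (I I' : Set V) (h : ∀ x, φ.f x ∈ I' ↔ x ∈ I) (X : ℕ → V) (m : ℕ) :
    vis I' (fun n => φ.f (X n)) m = vis I X m := by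
  classical
  unfold vis
  simp only [h]

/-! measurability -/

lemma meas_at {α : Type*} [MeasurableSpace α] (f : α → V) (hf : Measurable f) (S : V → Set α)
    (hS : ∀ v, MeasurableSet (S v)) : MeasurableSet {a | a ∈ S (f a)} := by
  have : {a | a ∈ S (f a)} = ⋃ v, (f ⁻¹' {v} ∩ S v) := by
    ext a
    simp
  rw [this]
  exact MeasurableSet.iUnion (fun v => (hf (measurableSet_singleton v)).inter (hS v))

lemma meas_q2 (m : ℕ) : Measurable (fun q : Tri V => q.2 m) :=
  (measurable_pi_apply m).comp measurable_snd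

lemma meas_inI (K R : ℕ) (x : V) : MeasurableSet {q : Tri V | x ∈ C.clq K R q.1.1} :=
  (measurable_fst.comp measurable_fst) (C.meas_clq K R x)

lemma meas_pathI (K R m : ℕ) : MeasurableSet {q : Tri V | q.2 m ∈ C.clq K R q.1.1} :=
  meas_at (fun q : Tri V => q.2 m) (meas_q2 m) (fun v => {q | v ∈ C.clq K R q.1.1})
    (fun v => meas_inI K R v)

lemma meas_visI (K R m : ℕ) : Measurable (fun q : Tri V => vis (C.clq K R q.1.1) q.2 m) := by
  classical
  have hind : ∀ k, Measurable (fun q : Tri V => ind (C.clq K R q.1.1) (q.2 k)) := by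
    intro k
    unfold ind
    exact Measurable.ite (meas_pathI K R k) measurable_const measurable_const
  induction m with
  | zero =>
    simp only [vis_zero]
    exact hind 0
  | succ m ih =>
    simp only [vis_last]
    exact ih.add (hind (m + 1))

lemma meas_jn3 : Measurable (fun q : Tri V => jn q.1.1 q.1.2) := meas_jn.comp measurable_fst

lemma meas_dre3 (a b : V) : MeasurableSet {q : Tri V | dre (jn q.1.1 q.1.2) a b} :=
  meas_jn3 (meas_dre a b)

lemma meas_drep (m : ℕ) (b : V) : MeasurableSet {q : Tri V | dre (jn q.1.1 q.1.2) (q.2 m) b} :=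
  meas_at (fun q : Tri V => q.2 m) (meas_q2 m) (fun v => {q | dre (jn q.1.1 q.1.2) v b})
    (fun v => meas_dre3 v b)

variable (C)

/-- the event of the `n`-th visit -/
def Ev (K R T n : ℕ) (x : V) : Set (Tri V) :=
  {q | x ∈ C.clq K R q.1.1 ∧ ∃ m ≤ T, q.2 m ∈ C.clq K R q.1.1 ∧
    vis (C.clq K R q.1.1) q.2 m = n + 1 ∧ ¬ dre (jn q.1.1 q.1.2) (q.2 m) x}

variable {C}

lemma meas_Ev (K R T n : ℕ) (x : V) : MeasurableSet (C.Ev K R T n x) := by
  have : C.Ev K R T n x = {q : Tri V | x ∈ C.clq K R q.1.1} ∩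
      ⋃ m ≤ T, ({q : Tri V | q.2 m ∈ C.clq K R q.1.1} ∩
      ({q : Tri V | vis (C.clq K R q.1.1) q.2 m ∈ ({n + 1} : Set ℕ)} ∩
      {q : Tri V | dre (jn q.1.1 q.1.2) (q.2 m) x}ᶜ)) := by
    ext q
    simp only [Ev, mem_ofPred_eq, mem_inter_iff, mem_iUnion, exists_prop, mem_singleton_iff,
      mem_compl_iff]
  rw [this]
  refine (meas_inI K R x).inter (MeasurableSet.biUnion (to_countable _) (fun m _ => ?_))
  refine (meas_pathI K R m).inter (MeasurableSet.inter ?_ (meas_drep m x).compl)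
  exact (meas_visI K R m) (MeasurableSet.of_discrete (s := {n + 1}))

lemma Sym.Ev_act (φ : C.Sym) (K R T n : ℕ) (x : V) (q : Tri V) :
    φ.tri q ∈ C.Ev K R T n (φ.f x) ↔ q ∈ C.Ev K R T n x := by
  unfold Ev
  simp only [Sym.tri, mem_ofPred_eq, φ.clq_act, ← φ.jn_act, φ.dre_act,
    φ.vis_act (C.clq K R q.1.1) (C.clq K R (φ.act q.1.1)) (fun y => φ.clq_act K R q.1.1 y)]

/-- density of the clique set -/
lemma iota_const (h : C.Trans) (K R : ℕ) (l : ℝ≥0) (x y : V) :
    C.Q l {r | x ∈ C.clq K R r} = C.Q l {r | y ∈ C.clq K R r} := by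
  obtain ⟨φ, rfl⟩ := h x y
  conv_rhs => rw [← φ.Q_act l]
  rw [Measure.map_apply φ.meas_act (C.meas_clq K R _)]
  congr 1
  ext r
  exact (φ.clq_act K R r x).symm

/-! averaging -/

variable (C)

open Classical in
/-- points of `F` at distance more than `r` from the complement -/
noncomputable def deep (r : ℕ) (F : Finset V) : Finset V := F.filter (fun x => ∀ y, C.near r x y → y ∈ F)

/-- Folner condition -/
def Amen : Prop := ∀ (r : ℕ) (δ : ℝ≥0), 0 < δ → ∃ F : Finset V, F.Nonempty ∧
  (F.card : ℝ≥0∞) ≤ (1 + δ) * (C.deep r F).card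

variable {C}

lemma avg (h : C.Amen) (r : ℕ) (a b : ℝ≥0∞)
    (hab : ∀ F : Finset V, ((C.deep r F).card : ℝ≥0∞) * a ≤ F.card * b) : a ≤ b := by
  by_cases hb : b = ∞
  · rw [hb]; exact le_top
  have key : ∀ δ : ℝ≥0, 0 < δ → a ≤ b + δ * b := by
    intro δ hδ
    obtain ⟨F, hF, hc⟩ := h r δ hδ
    have h1 := hab F
    have hd0 : ((C.deep r F).card : ℝ≥0∞) ≠ 0 := by
      intro h0
      rw [h0, mul_zero] at hc
      have := hF.card_pos
      have h2 : (F.card : ℝ≥0∞) = 0 := le_antisymm hc bot_le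
      rw [Nat.cast_eq_zero] at h2
      omega
    have h2 : ((C.deep r F).card : ℝ≥0∞) * a ≤ ((C.deep r F).card : ℝ≥0∞) * (b + δ * b) := by
      calc _ ≤ (F.card : ℝ≥0∞) * b := h1
        _ ≤ ((1 + δ) * (C.deep r F).card) * b := by gcongr
        _ = _ := by ring
    exact (ENNReal.mul_le_mul_iff_right hd0 (ENNReal.natCast_ne_top _)).1 h2
  refine ENNReal.le_of_forall_pos_le_add (fun ε hε _ => ?_)
  lift b to ℝ≥0 using hb
  rcases eq_or_ne b 0 with h0 | h0
  · have := key 1 one_pos
    rw [h0] at this ⊢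
    simp only [ENNReal.coe_zero, mul_zero, add_zero] at this
    exact this.trans bot_le
  · have hpos : 0 < ε / b := div_pos hε (pos_iff_ne_zero.2 h0)
    have := key (ε / b) hpos
    have h2 : ((ε / b : ℝ≥0) : ℝ≥0∞) * (b : ℝ≥0∞) = ε := by
      rw [← ENNReal.coe_mul, div_mul_cancel₀ _ h0]
    rwa [h2] at this

/-- mass of the bad `n`-th visits -/
theorem Ev_le (htr : C.Trans) (ham : C.Amen) (K R T n : ℕ) (l1 l2 : ℝ≥0) (o : V) :
    (l2 * K : ℝ≥0∞) * C.P3 l1 l2 o (C.Ev K R T n o) ≤ 2 * C.Q l1 {r | o ∈ C.clq K R r} := by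
  classical
  refine avg ham (T + R) _ _ (fun F => ?_)
  have hconst : ∀ x, C.P3 l1 l2 x (C.Ev K R T n x) = C.P3 l1 l2 o (C.Ev K R T n o) := by
    intro x
    obtain ⟨φ, rfl⟩ := htr o x
    exact φ.P3_eq l1 l2 o (meas_Ev K R T n _) (φ.Ev_act K R T n o)
  -- slice estimate
  have hslice : ∀ x ∈ C.deep (T + R) F, C.P3 l1 l2 x (C.Ev K R T n x) ≤
      ∫⁻ r1, (if x ∈ C.JJ K R r1 F then ∑ y ∈ C.JJ K R r1 F, C.kap (C.clq K R r1) T n x y *
        C.frog l2 {ω | ¬ dre (jn r1 (rel ω)) y x} else 0) ∂(C.Q l1) := by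
    intro x hx
    rw [deep, Finset.mem_filter] at hx
    have e1 : C.P3 l1 l2 x (C.Ev K R T n x) = ∫⁻ r1, ∫⁻ r2, C.mu x {X | ((r1, r2), X) ∈ C.Ev K R T n x}
        ∂(C.Q l2) ∂(C.Q l1) := by
      rw [P3, Measure.prod_apply (meas_Ev K R T n x), lintegral_prod]
      · rfl
      · exact (measurable_measure_prodMk_left (meas_Ev K R T n x)).aemeasurable
    rw [e1]
    refine lintegral_mono (fun r1 => ?_)
    by_cases hxI : x ∈ C.clq K R r1
    swap
    · have : ∀ r2, {X | ((r1, r2), X) ∈ C.Ev K R T n x} = ∅ := by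
        intro r2
        ext X
        simp only [Ev, mem_ofPred_eq, mem_empty_iff_false, iff_false]
        exact fun h => hxI h.1
      simp only [this, measure_empty, lintegral_zero]
      exact bot_le
    have hxJ : x ∈ C.JJ K R r1 F := by
      rw [JJ, Finset.mem_filter]
      exact ⟨hx.1, fun y hy => hx.2 y (C.near_mono (by omega) hy), hxI⟩
    rw [if_pos hxJ]
    calc ∫⁻ r2, C.mu x {X | ((r1, r2), X) ∈ C.Ev K R T n x} ∂(C.Q l2)
        ≤ ∫⁻ r2, ∑ y ∈ C.JJ K R r1 F, C.kap (C.clq K R r1) T n x y *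
          ({r2 : Rel V | ¬ dre (jn r1 r2) y x}).indicator 1 r2 ∂(C.Q l2) := by
          refine lintegral_mono (fun r2 => ?_)
          have hsub : {X | ((r1, r2), X) ∈ C.Ev K R T n x} ⊆
              ⋃ y, {X | X ∈ tgt (C.clq K R r1) T n {y} ∧ ¬ dre (jn r1 r2) y x} := by
            rintro X ⟨_, m, hm, h1, h2, h3⟩
            rw [mem_iUnion]
            exact ⟨X m, ⟨m, hm, h1, rfl, h2⟩, h3⟩
          refine (measure_mono hsub).trans ((measure_iUnion_le _).trans ?_)
          rw [tsum_eq_sum (s := C.JJ K R r1 F)]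
          · refine Finset.sum_le_sum (fun y _ => ?_)
            by_cases hd : dre (jn r1 r2) y x
            · simp [hd]
            · rw [indicator_of_mem (show r2 ∈ {r2 : Rel V | ¬ dre (jn r1 r2) y x} from hd)]
              simp only [Pi.one_apply, mul_one]
              exact measure_mono (fun X hX => hX.1)
          · intro y hy
            refine measure_mono_null (t := tgt (C.clq K R r1) T n {y}) (fun X hX => hX.1) ?_
            by_contra hne
            apply hy
            have hnear := C.kap_near (C.clq K R r1) T n x y hne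
            rw [JJ, Finset.mem_filter]
            refine ⟨hx.2 y (C.near_mono (by omega) hnear), fun z hz => hx.2 z
              (C.near_trans hnear hz), ?_⟩
            by_contra hyI
            apply hne
            have : tgt (C.clq K R r1) T n {y} = ∅ := by
              ext X
              simp only [tgt, mem_ofPred_eq, mem_empty_iff_false, iff_false]
              rintro ⟨m, _, h1, h2, _⟩
              exact hyI (h2 ▸ h1)
            rw [this, measure_empty]
      _ = _ := by
          rw [lintegral_finsetSum']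
          · refine Finset.sum_congr rfl (fun y _ => ?_)
            have hm : MeasurableSet {r2 : Rel V | ¬ dre (jn r1 r2) y x} :=
              ((meas_jn.comp (measurable_const.prodMk measurable_id)) (meas_dre y x)).compl
            rw [lintegral_const_mul _ (measurable_one.indicator hm), lintegral_indicator_one hm, Q,
              Measure.map_apply meas_rel hm]
            rfl
          · intro y _
            have hm : MeasurableSet {r2 : Rel V | ¬ dre (jn r1 r2) y x} :=
              ((meas_jn.comp (measurable_const.prodMk measurable_id)) (meas_dre y x)).compl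
            exact ((measurable_one.indicator hm).const_mul _).aemeasurable
  have hsum : ∀ (S : Finset V) (g : V → Rel V → ℝ≥0∞),
      ∑ x ∈ S, ∫⁻ r1, g x r1 ∂(C.Q l1) ≤ ∫⁻ r1, ∑ x ∈ S, g x r1 ∂(C.Q l1) := by
    intro S g
    induction S using Finset.induction_on with
    | empty => simp
    | insert a S ha ih =>
      rw [Finset.sum_insert ha]
      simp_rw [Finset.sum_insert ha]
      exact (add_le_add le_rfl ih).trans (le_lintegral_add _ _)
  calc ((C.deep (T + R) F).card : ℝ≥0∞) * ((l2 * K : ℝ≥0∞) * C.P3 l1 l2 o (C.Ev K R T n o))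
      = (l2 * K : ℝ≥0∞) * ∑ x ∈ C.deep (T + R) F, C.P3 l1 l2 x (C.Ev K R T n x) := by
        simp_rw [hconst]
        rw [Finset.sum_const, nsmul_eq_mul]
        ring
    _ ≤ (l2 * K : ℝ≥0∞) * ∑ x ∈ C.deep (T + R) F, ∫⁻ r1, (if x ∈ C.JJ K R r1 F then
        ∑ y ∈ C.JJ K R r1 F, C.kap (C.clq K R r1) T n x y *
        C.frog l2 {ω | ¬ dre (jn r1 (rel ω)) y x} else 0) ∂(C.Q l1) := by
        gcongr with x hx
        exact hslice x hx
    _ ≤ (l2 * K : ℝ≥0∞) * ∫⁻ r1, ∑ x ∈ C.deep (T + R) F, (if x ∈ C.JJ K R r1 F then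
        ∑ y ∈ C.JJ K R r1 F, C.kap (C.clq K R r1) T n x y *
        C.frog l2 {ω | ¬ dre (jn r1 (rel ω)) y x} else 0) ∂(C.Q l1) := by
        gcongr
        exact hsum _ _
    _ ≤ ∫⁻ r1, (l2 * K : ℝ≥0∞) * ∑ x ∈ C.deep (T + R) F, (if x ∈ C.JJ K R r1 F then
        ∑ y ∈ C.JJ K R r1 F, C.kap (C.clq K R r1) T n x y *
        C.frog l2 {ω | ¬ dre (jn r1 (rel ω)) y x} else 0) ∂(C.Q l1) :=
        lintegral_const_mul_le _ _
    _ ≤ ∫⁻ r1, 2 * ((F.filter (fun x => x ∈ C.clq K R r1)).card : ℝ≥0∞) ∂(C.Q l1) := by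
        refine lintegral_mono (fun r1 => ?_)
        refine le_trans ?_ (vol_bound (C := C) K R T n r1 F l2)
        gcongr
        rw [← Finset.sum_filter]
        refine Finset.sum_le_sum_of_subset ?_
        intro x hx
        exact (Finset.mem_filter.1 hx).2
    _ = ∫⁻ r1, 2 * ∑ x ∈ F, ({r : Rel V | x ∈ C.clq K R r}).indicator 1 r1 ∂(C.Q l1) := by
        congr 1
        ext r1
        congr 1
        rw [Finset.card_filter]
        push_cast
        refine Finset.sum_congr rfl (fun x _ => ?_)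
        rw [indicator_apply]
        rfl
    _ = 2 * ∑ x ∈ F, C.Q l1 {r | x ∈ C.clq K R r} := by
        rw [lintegral_const_mul _ (Finset.measurable_sum _ (fun x _ =>
          measurable_one.indicator (C.meas_clq K R x))), lintegral_finsetSum _ (fun x _ =>
          measurable_one.indicator (C.meas_clq K R x))]
        congr 1
        refine Finset.sum_congr rfl (fun x _ => ?_)
        rw [lintegral_indicator_one (C.meas_clq K R x)]
    _ = (F.card : ℝ≥0∞) * (2 * C.Q l1 {r | o ∈ C.clq K R r}) := by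
        simp_rw [fun x => iota_const htr K R l1 x o]
        rw [Finset.sum_const, nsmul_eq_mul]
        ring

end Chain

end Pool.Agent.Q298.Frog
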