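import Pool.Agent.Q298.Frog.Reach

set_option autoImplicit false
set_option linter.unusedSectionVars false
open MeasureTheory Set Filter ProbabilityTheory
open scoped ENNReal NNReal Topology

namespace Pool.Agent.Q298.Frog

variable {V : Type*} [MeasurableSpace V] [MeasurableSingletonClass V] [Countable V]

namespace Chain

variable {D : Type*} [Fintype D] [DecidableEq D]

/-- class level edges -/
def xd (c : V → D) (J : Finset V) (I : Set V) (T n : ℕ) (ω : Cfg V) : D × D → Prop :=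
  fun e => ∃ x ∈ J, ∃ y ∈ J, c x = e.1 ∧ c y = e.2 ∧ ∃ k < (ω x).1, (ω x).2 k ∈ tgt I T n {y}

variable (C : Chain V)

open Classical in
/-- class level weights -/
noncomputable def wd (c : V → D) (J : Finset V) (I : Set V) (T n : ℕ) (l : ℝ≥0) (i j : D) : ℝ≥0 :=
  l * ∑ x ∈ J, ∑ y ∈ J, if c x = i ∧ c y = j then (C.kap I T n x y).toNNReal else 0

variable {C}

lemma kap_ne_top (I : Set V) (T n : ℕ) (x y : V) : C.kap I T n x y ≠ ∞ := measure_ne_top _ _

lemma wd_symm (c : V → D) (J : Finset V) (I : Set V) (hJ : ∀ x ∈ J, x ∈ I) (T n : ℕ) (l : ℝ≥0)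
    (i j : D) : C.wd c J I T n l i j = C.wd c J I T n l j i := by
  classical
  unfold wd
  congr 1
  rw [Finset.sum_comm]
  refine Finset.sum_congr rfl (fun x hx => Finset.sum_congr rfl (fun y hy => ?_))
  rw [C.kap_symm I T n y x (hJ y hy) (hJ x hx)]
  simp only [and_comm]

lemma meas_tau (x : V) (A : Set (ℕ → V)) (hA : MeasurableSet A) :
    MeasurableSet {ω : Cfg V | ∃ k < (ω x).1, (ω x).2 k ∈ A} := by
  have : {ω : Cfg V | ∃ k < (ω x).1, (ω x).2 k ∈ A} =
      (fun ω : Cfg V => ω x) ⁻¹' {p | ∀ k < p.1, p.2 k ∉ A}ᶜ := by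
    ext ω
    simp
  rw [this]
  exact (measurable_pi_apply x) (meas_noHit A hA).compl

lemma meas_xd (c : V → D) (J : Finset V) (I : Set V) (T n : ℕ) : Measurable (xd c J I T n) := by
  apply measurable_pi_lambda
  intro e
  rw [← measurableSet_setOfPred]
  have : {ω : Cfg V | xd c J I T n ω e} = ⋃ x ∈ J, ⋃ y ∈ J, ({ω : Cfg V | c x = e.1 ∧ c y = e.2} ∩
      {ω : Cfg V | ∃ k < (ω x).1, (ω x).2 k ∈ tgt I T n {y}}) := by
    ext ω
    simp only [xd, mem_ofPred_eq, mem_iUnion, mem_inter_iff, exists_prop, and_assoc]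
  rw [this]
  refine Finset.measurableSet_biUnion _ (fun x _ => Finset.measurableSet_biUnion _ (fun y _ => ?_))
  exact (MeasurableSet.const _).inter (meas_tau x _ (meas_tgt I T n _))

lemma sum_comm3 {ι κ M : Type*} [AddCommMonoid M] (S : Finset ι) (J : Finset κ)
    (g : ι → κ → κ → M) : ∑ e ∈ S, ∑ x ∈ J, ∑ y ∈ J, g e x y = ∑ x ∈ J, ∑ y ∈ J, ∑ e ∈ S, g e x y :=
  Finset.sum_comm.trans (Finset.sum_congr rfl (fun _ _ => Finset.sum_comm))

theorem law_xd (c : V → D) (J : Finset V) (I : Set V) (T n : ℕ) (l : ℝ≥0) :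
    (C.frog l).map (xd c J I T n) = lw (fun e : D × D => C.wd c J I T n l e.1 e.2) := by
  classical
  have : IsProbabilityMeasure ((C.frog l).map (xd c J I T n)) :=
    Measure.isProbabilityMeasure_map (meas_xd c J I T n).aemeasurable
  apply ext_vd
  intro S
  rw [Measure.map_apply (meas_xd c J I T n) (meas_vd S), lw_vd,
    ← ENNReal.ofReal_prod_of_nonneg (fun _ _ => (Real.exp_pos _).le), ← Real.exp_sum,
    Finset.sum_neg_distrib]
  have h1 : xd c J I T n ⁻¹' vd S = {ω : Cfg V | ∀ x ∈ J, ∀ k < (ω x).1, (ω x).2 k ∉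
      tgt I T n ((J.filter (fun y => (c x, c y) ∈ S) : Finset V) : Set V)} := by
    ext ω
    simp only [mem_preimage, vd, mem_ofPred_eq, xd]
    constructor
    · rintro h x hx k hk ⟨m, hm, h1, h2, h3⟩
      rw [Finset.mem_coe, Finset.mem_filter] at h2
      exact h _ h2.2 ⟨x, hx, _, h2.1, rfl, rfl, k, hk, m, hm, h1, rfl, h3⟩
    · rintro h e he ⟨x, hx, y, hy, hxe, hye, k, hk, m, hm, h1, h2, h3⟩
      refine h x hx k hk ⟨m, hm, h1, ?_, h3⟩
      rw [Finset.mem_coe, Finset.mem_filter]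
      rw [mem_singleton_iff] at h2
      rw [h2]
      refine ⟨hy, ?_⟩
      rw [hxe, hye]
      exact he
  rw [h1, C.frog_noHit l J (fun x => tgt I T n ((J.filter (fun y => (c x, c y) ∈ S) : Finset V) :
    Set V)) (fun x => meas_tgt I T n _)]
  congr 3
  have h2 : ∀ x, (C.mu x (tgt I T n ((J.filter (fun y => (c x, c y) ∈ S) : Finset V) : Set V))).toReal =
      ∑ y ∈ J, if (c x, c y) ∈ S then (C.kap I T n x y).toReal else 0 := by
    intro x
    rw [mu_tgt_eq_sum, ENNReal.toReal_sum (fun y _ => kap_ne_top I T n x y), Finset.sum_filter]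
  simp_rw [h2]
  unfold wd
  push_cast
  rw [← Finset.mul_sum]
  refine congrArg (fun t => (l : ℝ) * t) ?_
  refine Eq.symm ((sum_comm3 S J _).trans ?_)
  refine Finset.sum_congr rfl (fun x _ => ?_)
  refine Finset.sum_congr rfl (fun y _ => ?_)
  have h3 : ∀ e : D × D, ((if c x = e.1 ∧ c y = e.2 then (C.kap I T n x y).toNNReal else 0 : ℝ≥0) : ℝ)
      = if (c x, c y) = e then (C.kap I T n x y).toReal else 0 := by
    intro e
    by_cases h : (c x, c y) = e
    · rw [if_pos h, if_pos ⟨by rw [← h], by rw [← h]⟩]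
      rfl
    · rw [if_neg h, if_neg (fun h' => h (Prod.ext h'.1 h'.2))]
      rfl
  simp_rw [h3]
  rw [Finset.sum_ite_eq]

lemma dre_xd (c : V → D) (J : Finset V) (I : Set V) (T n : ℕ) (r1 : Rel V) (ω : Cfg V)
    (hc : ∀ x ∈ J, ∀ y ∈ J, c x = c y → dre r1 x y) {i j : D} (h : dre (xd c J I T n ω) i j) :
    ∀ x ∈ J, ∀ y ∈ J, c x = i → c y = j → dre (jn r1 (rel ω)) x y := by
  intro x hx
  induction h with
  | refl =>
    intro y hy hxi hyj
    exact dre_left (hc x hx y hy (hxi.trans hyj.symm))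
  | tail _ hbc ih =>
    intro y hy hxi hyj
    obtain ⟨x', hx', y', hy', hx'c, hy'c, k, hk, m, hm, h1, h2, h3⟩ := hbc
    have e1 := ih x' hx' hxi hx'c
    have e2 : dre (jn r1 (rel ω)) y' y := dre_left (hc y' hy' y hy (hy'c.trans hyj.symm))
    exact (e1.tail (Or.inr ⟨k, hk, m, h2⟩)).trans e2

lemma wd_coe (c : V → D) (J : Finset V) (I : Set V) (T n : ℕ) (l : ℝ≥0) (i j : D) :
    (C.wd c J I T n l i j : ℝ≥0∞) =
      l * ∑ x ∈ J, ∑ y ∈ J, if c x = i ∧ c y = j then C.kap I T n x y else 0 := by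
  classical
  unfold wd
  push_cast
  congr 1
  refine Finset.sum_congr rfl (fun x _ => Finset.sum_congr rfl (fun y _ => ?_))
  split_ifs with h
  · exact ENNReal.coe_toNNReal (kap_ne_top I T n x y)
  · rfl

/-- the finite volume bound, class version -/
theorem vol_class (c : V → D) (J : Finset V) (I : Set V) (hJ : ∀ x ∈ J, x ∈ I) (T n : ℕ)
    (l : ℝ≥0) (r1 : Rel V) (hc : ∀ x ∈ J, ∀ y ∈ J, c x = c y → dre r1 x y) :
    l * ∑ x ∈ J, ∑ y ∈ J, C.kap I T n x y * C.frog l {ω | ¬ dre (jn r1 (rel ω)) x y} ≤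
      2 * Fintype.card D := by
  classical
  have hdir := directed (fun i j => C.wd c J I T n l i j) (wd_symm c J I hJ T n l)
  refine le_trans ?_ hdir
  rw [← law_xd]
  have h1 : ∀ i j, (C.frog l).map (xd c J I T n) {f | ¬ dre f i j} =
      C.frog l {ω | ¬ dre (xd c J I T n ω) i j} := by
    intro i j
    rw [Measure.map_apply (meas_xd c J I T n) MeasurableSet.of_discrete]
    rfl
  simp_rw [h1, wd_coe]
  have h2 : ∀ x ∈ J, ∀ y ∈ J, C.kap I T n x y * C.frog l {ω | ¬ dre (jn r1 (rel ω)) x y} ≤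
      ∑ e ∈ (Finset.univ : Finset (D × D)).filter (fun p => p.1 ≠ p.2),
        (if c x = e.1 ∧ c y = e.2 then C.kap I T n x y else 0) *
          C.frog l {ω | ¬ dre (xd c J I T n ω) e.1 e.2} := by
    intro x hx y hy
    by_cases hxy : c x = c y
    · have : {ω : Cfg V | ¬ dre (jn r1 (rel ω)) x y} = ∅ := by
        ext ω
        simp only [mem_ofPred_eq, mem_empty_iff_false, iff_false, not_not]
        exact dre_left (hc x hx y hy hxy)
      rw [this, measure_empty, mul_zero]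
      exact bot_le
    · have hmem : (c x, c y) ∈ (Finset.univ : Finset (D × D)).filter (fun p => p.1 ≠ p.2) := by
        rw [Finset.mem_filter]; exact ⟨Finset.mem_univ _, hxy⟩
      refine le_trans ?_ (Finset.single_le_sum (fun _ _ => bot_le) hmem)
      simp only [and_self, if_true]
      gcongr
      intro hω
      exact dre_xd c J I T n r1 _ hc hω x hx y hy rfl rfl
  calc l * ∑ x ∈ J, ∑ y ∈ J, C.kap I T n x y * C.frog l {ω | ¬ dre (jn r1 (rel ω)) x y}
      ≤ l * ∑ x ∈ J, ∑ y ∈ J, ∑ e ∈ (Finset.univ : Finset (D × D)).filter (fun p => p.1 ≠ p.2),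
        (if c x = e.1 ∧ c y = e.2 then C.kap I T n x y else 0) *
          C.frog l {ω | ¬ dre (xd c J I T n ω) e.1 e.2} := by
        gcongr with x hx y hy
        exact h2 x hx y hy
    _ = _ := by
        simp_rw [Finset.mul_sum, Finset.sum_mul]
        refine Eq.trans ?_ (sum_comm3 _ J _).symm
        refine Finset.sum_congr rfl (fun x _ => Finset.sum_congr rfl (fun y _ =>
          Finset.sum_congr rfl (fun e _ => ?_)))
        rw [mul_assoc]

end Chain

end Pool.Agent.Q298.Frog
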