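import Pool.Agent.Q298.Frog.Vol

set_option autoImplicit false
set_option linter.unusedSectionVars false
open MeasureTheory Set Filter ProbabilityTheory
open scoped ENNReal NNReal Topology

namespace Pool.Agent.Q298.Frog

variable {V : Type*} [MeasurableSpace V] [MeasurableSingletonClass V] [Countable V]

/-- mutual reachability -/
def mre (r : Rel V) : Setoid V where
  r x y := dre r x y ∧ dre r y x
  iseqv := ⟨fun _ => ⟨Relation.ReflTransGen.refl, Relation.ReflTransGen.refl⟩,
    fun h => ⟨h.2, h.1⟩, fun h h' => ⟨h.1.trans h'.1, h'.2.trans h.2⟩⟩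

namespace Chain

variable (C : Chain V)

open Classical in
/-- the points of `F` deep inside `F` which belong to the clique set -/
noncomputable def JJ (K R : ℕ) (r : Rel V) (F : Finset V) : Finset V :=
  F.filter (fun x => (∀ y, C.near R x y → y ∈ F) ∧ x ∈ C.clq K R r)

open Classical in
lemma exists_classes (K R : ℕ) (r : Rel V) (F : Finset V) :
    ∃ (D : Finset (Quotient (mre r))) , (∀ x ∈ C.JJ K R r F, Quotient.mk (mre r) x ∈ D) ∧
      K * D.card ≤ (F.filter (fun x => x ∈ C.clq K R r)).card := by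
  refine ⟨(C.JJ K R r F).image (Quotient.mk (mre r)), fun x hx => Finset.mem_image_of_mem _ hx, ?_⟩
  set D := (C.JJ K R r F).image (Quotient.mk (mre r)) with hD
  have h1 : ∀ d ∈ D, ∃ A : Finset V, A ⊆ F.filter (fun x => x ∈ C.clq K R r) ∧ K ≤ A.card ∧
      ∀ u ∈ A, Quotient.mk (mre r) u = d := by
    intro d hd
    rw [hD, Finset.mem_image] at hd
    obtain ⟨x, hx, rfl⟩ := hd
    rw [JJ, Finset.mem_filter] at hx
    obtain ⟨hxF, hxn, A, hxA, hK, hA⟩ := hx
    refine ⟨A, ?_, hK, ?_⟩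
    · intro u hu
      rw [Finset.mem_filter]
      exact ⟨hxn u (hA x hxA u hu).1, A, hu, hK, hA⟩
    · intro u hu
      apply Quotient.sound
      refine ⟨?_, ?_⟩
      · rcases (hA u hu x hxA).2 with h | h
        · rw [h]; exact Relation.ReflTransGen.refl
        · exact Relation.ReflTransGen.single h
      · rcases (hA x hxA u hu).2 with h | h
        · rw [h]; exact Relation.ReflTransGen.refl
        · exact Relation.ReflTransGen.single h
  choose! A hA1 hA2 hA3 using h1
  have hdisj : Set.PairwiseDisjoint (D : Set (Quotient (mre r))) A := by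
    intro d hd d' hd' hne
    rw [Function.onFun, Finset.disjoint_left]
    intro u hu hu'
    exact hne ((hA3 d hd u hu).symm.trans (hA3 d' hd' u hu'))
  calc K * D.card = ∑ d ∈ D, K := by rw [Finset.sum_const, smul_eq_mul, mul_comm]
    _ ≤ ∑ d ∈ D, (A d).card := Finset.sum_le_sum (fun d hd => hA2 d hd)
    _ = (D.biUnion A).card := (Finset.card_biUnion hdisj).symm
    _ ≤ _ := Finset.card_le_card (Finset.biUnion_subset.2 (fun d hd => hA1 d hd))

variable {C}

open Classical in
/-- the finite volume bound -/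
theorem vol_bound (K R T n : ℕ) (r1 : Rel V) (F : Finset V) (l : ℝ≥0) :
    (l * K : ℝ≥0∞) * ∑ x ∈ C.JJ K R r1 F, ∑ y ∈ C.JJ K R r1 F,
      C.kap (C.clq K R r1) T n x y * C.frog l {ω | ¬ dre (jn r1 (rel ω)) y x} ≤
      2 * (F.filter (fun x => x ∈ C.clq K R r1)).card := by
  obtain ⟨D, hD, hcard⟩ := C.exists_classes K R r1 F
  have hJ : ∀ x ∈ C.JJ K R r1 F, x ∈ C.clq K R r1 := by
    intro x hx
    rw [JJ, Finset.mem_filter] at hx
    exact hx.2.2
  rcases (C.JJ K R r1 F).eq_empty_or_nonempty with he | ⟨x0, hx0⟩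
  · rw [he]
    simp
  set c : V → D := fun x => if h : Quotient.mk (mre r1) x ∈ D then ⟨_, h⟩ else
    ⟨_, hD x0 hx0⟩ with hc
  have hcc : ∀ x ∈ C.JJ K R r1 F, ∀ y ∈ C.JJ K R r1 F, c x = c y → dre r1 x y := by
    intro x hx y hy hxy
    rw [hc] at hxy
    simp only [dif_pos (hD x hx), dif_pos (hD y hy)] at hxy
    have h2 := congrArg Subtype.val hxy
    simp only at h2
    have h3 := Quotient.exact h2
    exact h3.1
  have hmain := vol_class (C := C) c (C.JJ K R r1 F) (C.clq K R r1) hJ T n l r1 hcc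
  rw [Fintype.card_coe] at hmain
  have hswap : ∑ x ∈ C.JJ K R r1 F, ∑ y ∈ C.JJ K R r1 F,
      C.kap (C.clq K R r1) T n x y * C.frog l {ω | ¬ dre (jn r1 (rel ω)) y x} =
      ∑ x ∈ C.JJ K R r1 F, ∑ y ∈ C.JJ K R r1 F,
      C.kap (C.clq K R r1) T n x y * C.frog l {ω | ¬ dre (jn r1 (rel ω)) x y} := by
    rw [Finset.sum_comm]
    refine Finset.sum_congr rfl (fun x hx => Finset.sum_congr rfl (fun y hy => ?_))
    rw [C.kap_symm _ T n y x (hJ y hy) (hJ x hx)]
  rw [hswap]
  calc (l * K : ℝ≥0∞) * _ = K * (l * ∑ x ∈ C.JJ K R r1 F, ∑ y ∈ C.JJ K R r1 F,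
      C.kap (C.clq K R r1) T n x y * C.frog l {ω | ¬ dre (jn r1 (rel ω)) x y}) := by ring
    _ ≤ K * (2 * D.card) := by gcongr
    _ = 2 * ((K * D.card : ℕ) : ℝ≥0∞) := by push_cast; ring
    _ ≤ _ := by gcongr

end Chain

end Pool.Agent.Q298.Frog
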