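import Mathlib

set_option autoImplicit false
set_option linter.unusedSectionVars false
open MeasureTheory Set Filter
open scoped ENNReal NNReal Topology

namespace Pool.Agent.Q298.Frog

/-- A symmetric Markov chain of finite range on a countable set, with its path laws. -/
structure Chain (V : Type*) [MeasurableSpace V] where
  p : V → V → ℝ≥0∞
  mu : V → Measure (ℕ → V)
  prob : ∀ x, IsProbabilityMeasure (mu x)
  start : ∀ x, mu x {X | X 0 = x}ᶜ = 0
  step : ∀ x (A : Set (ℕ → V)), MeasurableSet A →
    mu x {X | (fun n => X (n + 1)) ∈ A} = ∑' z, p x z * mu z A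
  symm : ∀ x y, p x y = p y x
  fin : ∀ x, {y | p x y ≠ 0}.Finite

variable {V : Type*} [MeasurableSpace V] [MeasurableSingletonClass V] [Countable V]

namespace Chain

variable (C : Chain V)

instance (x : V) : IsProbabilityMeasure (C.mu x) := C.prob x

lemma sum_p (x : V) : ∑' z, C.p x z = 1 := by
  have h := C.step x univ MeasurableSet.univ
  simp only [mem_univ, ofPred_true, measure_univ, mul_one] at h
  exact h.symm

lemma measurable_shift : Measurable (fun (X : ℕ → V) n => X (n + 1)) := by
  fun_prop

/-- one step, in the form of an almost sure statement -/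
lemma step' (x : V) (A B : Set (ℕ → V)) (hB : MeasurableSet B)
    (h : ∀ X : ℕ → V, X 0 = x → (X ∈ A ↔ (fun n => X (n + 1)) ∈ B)) :
    C.mu x A = ∑' z, C.p x z * C.mu z B := by
  rw [← C.step x B hB]
  apply measure_congr
  have h0 : ∀ᵐ X ∂(C.mu x), X 0 = x := by
    rw [ae_iff]
    have := C.start x
    simpa [compl_def] using this
  filter_upwards [h0] with X hX
  exact propext (h X hX)

lemma mu_start (x : V) (A : Set (ℕ → V)) (h : ∀ X : ℕ → V, X 0 = x → X ∉ A) : C.mu x A = 0 := by
  refine measure_mono_null ?_ (C.start x)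
  intro X hX h0
  exact h X h0 hX

lemma mu_start_one (x : V) (A : Set (ℕ → V)) (h : ∀ X : ℕ → V, X 0 = x → X ∈ A) :
    C.mu x A = 1 := by
  have h0 : ∀ᵐ X ∂(C.mu x), X ∈ A := by
    rw [ae_iff]
    exact C.mu_start x _ (fun X hX hn => hn (h X hX))
  have : A =ᵐ[C.mu x] univ := by
    filter_upwards [h0] with X hX
    exact propext ⟨fun _ => trivial, fun _ => hX⟩
  rw [measure_congr this, measure_univ]

/-- the n step transition probabilities -/
noncomputable def pk (n : ℕ) (x y : V) : ℝ≥0∞ := C.mu x {X | X n = y}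

lemma meas_pt (n : ℕ) (y : V) : MeasurableSet {X : ℕ → V | X n = y} := by
  have h : Measurable (fun X : ℕ → V => X n) := measurable_pi_apply n
  exact h (measurableSet_singleton y)

open Classical in
lemma pk_zero (x y : V) : C.pk 0 x y = if x = y then 1 else 0 := by
  unfold pk
  split_ifs with h
  · exact C.mu_start_one x _ (fun X hX => by simp [hX, h])
  · exact C.mu_start x _ (fun X hX => by simp [hX, h])

lemma pk_succ (n : ℕ) (x y : V) : C.pk (n + 1) x y = ∑' z, C.p x z * C.pk n z y := by
  unfold pk
  exact C.step' x _ {X | X n = y} (meas_pt n y) (fun X _ => Iff.rfl)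

lemma pk_one (x y : V) : C.pk 1 x y = C.p x y := by
  rw [show (1 : ℕ) = 0 + 1 from rfl, pk_succ]
  rw [tsum_eq_single y]
  · rw [pk_zero, if_pos rfl, mul_one]
  · intro z hz
    rw [pk_zero, if_neg hz, mul_zero]

/-- Markov property at a fixed time -/
lemma markov (n : ℕ) (x : V) (A : Set (ℕ → V)) (hA : MeasurableSet A) :
    ∀ y, C.mu x {X | X n = y ∧ (fun k => X (k + n)) ∈ A} = C.pk n x y * C.mu y A := by
  induction n generalizing x with
  | zero =>
    intro y
    rw [pk_zero]
    split_ifs with h
    · subst h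
      rw [one_mul]
      apply measure_congr
      have h0 : ∀ᵐ X ∂(C.mu x), X 0 = x := by
        rw [ae_iff]
        have := C.start x
        simpa [compl_def] using this
      filter_upwards [h0] with X hX
      apply propext
      constructor
      · intro h
        exact h.2
      · intro h
        exact ⟨hX, h⟩
    · rw [zero_mul]
      exact C.mu_start x _ (fun X hX h' => h (hX ▸ h'.1))
  | succ n ih =>
    intro y
    rw [C.step' x _ {X | X n = y ∧ (fun k => X (k + n)) ∈ A} ?_ ?_, pk_succ, ← ENNReal.tsum_mul_right]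
    · congr 1
      ext z
      rw [ih z y, mul_assoc]
    · exact (meas_pt n y).inter ((by fun_prop : Measurable fun (X : ℕ → V) k => X (k + n)) hA)
    · intro X _
      have : (fun k => X (k + (n + 1))) = (fun k => X (k + n + 1)) := by
        ext k; congr 1
      simp only [mem_ofPred_eq, this]

lemma pk_last (n : ℕ) (x y : V) : C.pk (n + 1) x y = ∑' z, C.pk n x z * C.p z y := by
  have h : ∀ z, C.pk n x z * C.p z y = C.mu x {X | X n = z ∧ X (n + 1) = y} := by
    intro z
    have := C.markov n x {X | X 1 = y} (meas_pt 1 y) z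
    rw [← C.pk_one]
    unfold pk at *
    rw [← this]
    congr 1
    ext X
    simp [add_comm]
  simp only [h]
  rw [← measure_iUnion]
  · unfold pk
    congr 1
    ext X
    simp
  · intro a b hab
    rw [Function.onFun, disjoint_left]
    rintro X ⟨h1, _⟩ ⟨h2, _⟩
    exact hab (h1.symm.trans h2)
  · intro z
    exact (meas_pt n z).inter (meas_pt _ y)

lemma pk_symm (n : ℕ) : ∀ x y, C.pk n x y = C.pk n y x := by
  classical
  induction n with
  | zero =>
    intro x y
    rw [pk_zero, pk_zero]
    by_cases h : x = y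
    · simp [h]
    · simp [h, Ne.symm h]
  | succ n ih =>
    intro x y
    rw [pk_succ, pk_last]
    congr 1
    ext z
    rw [ih z y, C.symm x z, mul_comm]

lemma sum_pk (n : ℕ) (x : V) : ∑' y, C.pk n x y = 1 := by
  unfold pk
  rw [← measure_iUnion]
  · have : (⋃ y, {X : ℕ → V | X n = y}) = univ := by ext X; simp
    rw [this, measure_univ]
  · intro a b hab
    rw [Function.onFun, disjoint_left]
    intro X h1 h2
    exact hab (h1.symm.trans h2)
  · exact fun y => meas_pt n y

lemma sum_pk' (n : ℕ) (x : V) : ∑' y, C.pk n y x = 1 := by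
  rw [← C.sum_pk n x]
  congr 1
  ext y
  exact C.pk_symm n y x

lemma pk_add (m n : ℕ) (x y : V) : C.pk (m + n) x y = ∑' z, C.pk m x z * C.pk n z y := by
  have h : ∀ z, C.pk m x z * C.pk n z y = C.mu x {X | X m = z ∧ X (m + n) = y} := by
    intro z
    have := C.markov m x {X | X n = y} (meas_pt n y) z
    unfold pk at *
    rw [← this]
    congr 1
    ext X
    simp [add_comm]
  simp only [h]
  rw [← measure_iUnion]
  · unfold pk
    congr 1
    ext X
    simp
  · intro a b hab
    rw [Function.onFun, disjoint_left]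
    rintro X ⟨h1, _⟩ ⟨h2, _⟩
    exact hab (h1.symm.trans h2)
  · intro z
    exact (meas_pt m z).inter (meas_pt _ y)

lemma pk_fin (n : ℕ) (x : V) : {y | C.pk n x y ≠ 0}.Finite := by
  induction n generalizing x with
  | zero =>
    refine (finite_singleton x).subset ?_
    intro y hy
    rw [mem_ofPred_eq, pk_zero] at hy
    by_contra h
    exact hy (if_neg (fun h' => h h'.symm))
  | succ n ih =>
    refine ((C.fin x).biUnion (fun z _ => ih z)).subset ?_
    intro y hy
    rw [mem_ofPred_eq, pk_succ] at hy
    obtain ⟨z, hz⟩ : ∃ z, C.p x z * C.pk n z y ≠ 0 := by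
      by_contra h
      push Not at h
      exact hy (by rw [ENNReal.tsum_eq_zero]; exact h)
    rw [mul_ne_zero_iff] at hz
    exact mem_biUnion hz.1 hz.2

/-- reachable in at most `r` steps -/
def near (r : ℕ) (x y : V) : Prop := ∃ k ≤ r, C.pk k x y ≠ 0

lemma near_symm {r : ℕ} {x y : V} (h : C.near r x y) : C.near r y x := by
  obtain ⟨k, hk, h⟩ := h
  exact ⟨k, hk, by rwa [C.pk_symm k y x]⟩

lemma near_fin (r : ℕ) (x : V) : {y | C.near r x y}.Finite := by
  refine ((Set.finite_Iic r).biUnion (fun k _ => C.pk_fin k x)).subset ?_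
  rintro y ⟨k, hk, h⟩
  exact mem_biUnion hk h

lemma near_self (r : ℕ) (x : V) : C.near r x x :=
  ⟨0, Nat.zero_le _, by rw [pk_zero, if_pos rfl]; exact one_ne_zero⟩

lemma near_mono {r s : ℕ} (h : r ≤ s) {x y : V} (hn : C.near r x y) : C.near s x y := by
  obtain ⟨k, hk, h'⟩ := hn
  exact ⟨k, hk.trans h, h'⟩

lemma near_trans {r s : ℕ} {x y z : V} (h1 : C.near r x y) (h2 : C.near s y z) :
    C.near (r + s) x z := by
  obtain ⟨k, hk, h⟩ := h1
  obtain ⟨l, hl, h'⟩ := h2
  refine ⟨k + l, by omega, ?_⟩
  rw [pk_add]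
  intro h0
  rw [ENNReal.tsum_eq_zero] at h0
  rcases mul_eq_zero.1 (h0 y) with h3 | h3
  · exact h h3
  · exact h' h3

/-- hitting probability -/
noncomputable def hit (x y : V) : ℝ≥0∞ := C.mu x {X | ∃ n, X n = y}

lemma meas_hit (y : V) : MeasurableSet {X : ℕ → V | ∃ n, X n = y} := by
  have : {X : ℕ → V | ∃ n, X n = y} = ⋃ n, {X | X n = y} := by ext; simp
  rw [this]
  exact MeasurableSet.iUnion (fun n => meas_pt n y)

lemma hit_self (y : V) : C.hit y y = 1 :=
  C.mu_start_one y _ (fun _ hX => ⟨0, hX⟩)

lemma hit_step {x y : V} (h : x ≠ y) : C.hit x y = ∑' z, C.p x z * C.hit z y := by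
  unfold hit
  refine C.step' x _ _ (meas_hit y) (fun X hX => ?_)
  constructor
  · rintro ⟨n, hn⟩
    cases n with
    | zero => exact absurd (hX.symm.trans hn) h
    | succ n => exact ⟨n, hn⟩
  · rintro ⟨n, hn⟩
    exact ⟨n + 1, hn⟩

/-- Green function up to time `N` -/
noncomputable def gr (N : ℕ) (x y : V) : ℝ≥0∞ := ∑ k ∈ Finset.range N, C.pk k x y

lemma gr_symm (N : ℕ) (x y : V) : C.gr N x y = C.gr N y x := by
  unfold gr
  exact Finset.sum_congr rfl (fun k _ => C.pk_symm k x y)

lemma gr_mono {N M : ℕ} (h : N ≤ M) (x y : V) : C.gr N x y ≤ C.gr M x y := by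
  unfold gr
  exact Finset.sum_le_sum_of_subset (Finset.range_mono h)

lemma gr_le (N : ℕ) (y : V) : ∀ x, C.gr N x y ≤ C.hit x y * C.gr N y y := by
  induction N with
  | zero => intro x; simp [gr]
  | succ N ih =>
    intro x
    by_cases h : x = y
    · subst h
      rw [hit_self, one_mul]
    · have h1 : C.gr (N + 1) x y = ∑' z, C.p x z * C.gr N z y := by
        unfold gr
        rw [Finset.sum_range_succ', pk_zero, if_neg h, add_zero]
        simp_rw [pk_succ, Finset.mul_sum]
        rw [Summable.tsum_finsetSum (fun _ _ => ENNReal.summable)]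
      rw [h1, C.hit_step h]
      calc ∑' z, C.p x z * C.gr N z y ≤ ∑' z, C.p x z * (C.hit z y * C.gr N y y) := by
            refine ENNReal.tsum_le_tsum (fun z => ?_)
            gcongr
            exact ih z
        _ = (∑' z, C.p x z * C.hit z y) * C.gr N y y := by
            rw [← ENNReal.tsum_mul_right]
            congr 1
            ext z
            rw [mul_assoc]
        _ ≤ _ := by
            gcongr
            exact C.gr_mono (Nat.le_succ N) y y

lemma gr_shift (N m : ℕ) (w x y : V) : C.gr N w x * C.pk m x y ≤ C.gr (N + m) w y := by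
  unfold gr
  rw [Finset.sum_mul]
  calc ∑ k ∈ Finset.range N, C.pk k w x * C.pk m x y ≤ ∑ k ∈ Finset.range N, C.pk (k + m) w y := by
        refine Finset.sum_le_sum (fun k _ => ?_)
        rw [pk_add]
        exact ENNReal.le_tsum x
    _ = ∑ k ∈ (Finset.range N).map (addRightEmbedding m), C.pk k w y := by
        rw [Finset.sum_map]
        rfl
    _ ≤ _ := by
        refine Finset.sum_le_sum_of_subset ?_
        intro k hk
        rw [Finset.mem_map] at hk
        obtain ⟨a, ha, rfl⟩ := hk
        rw [Finset.mem_range] at *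
        simp only [addRightEmbedding_apply]
        omega

/-- invariance of shift invariant events -/
lemma inv_step (A : Set (ℕ → V)) (hA : MeasurableSet A)
    (hs : ∀ X : ℕ → V, X ∈ A ↔ (fun n => X (n + 1)) ∈ A) (n : ℕ) (x : V) :
    C.mu x A = ∑' z, C.pk n x z * C.mu z A := by
  induction n generalizing x with
  | zero =>
    rw [tsum_eq_single x]
    · rw [pk_zero, if_pos rfl, one_mul]
    · intro z hz
      rw [pk_zero, if_neg (Ne.symm hz), zero_mul]
  | succ n ih =>
    rw [C.step' x A A hA (fun X _ => hs X)]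
    simp_rw [pk_succ, ← ENNReal.tsum_mul_right]
    rw [ENNReal.tsum_comm]
    congr 1
    ext z
    rw [ih z, ← ENNReal.tsum_mul_left]
    congr 1
    ext w
    rw [mul_assoc]

end Chain

end Pool.Agent.Q298.Frog
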